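import Pool.Agent.Hyp5.Match

/-! # HYP5 GLOBALHALL: assignment of the odd components -/

set_option autoImplicit false

namespace Pool.Agent.Hyp5

open Finset

variable {V : Type*} [DecidableEq V]

open Classical in
/-- the places allowed for a component -/
private noncomputable def ghT (G : SimpleGraph V) (A : Finset V) (Fb : Finset (Finset V))
    (d dB : ℕ) (C : Finset V) : Finset (V ⊕ ℕ) :=
  (A.filter (fun x => ∃ y ∈ C, G.Adj x y)).disjSum (range (if C ∈ Fb then dB else d))

private theorem gh_hall {G : SimpleGraph V} {A : Finset V} {F Fb : Finset (Finset V)}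
    {d dB : ℕ} (hle : dB ≤ d)
    (h1 : ∀ T ⊆ F, T.card ≤ (nbr G A T).card + d)
    (h2 : ∀ T ⊆ Fb, T.card ≤ (nbr G A T).card + dB) :
    ∃ f : {C // C ∈ F} → V ⊕ ℕ, Function.Injective f ∧ ∀ C, f C ∈ ghT G A Fb d dB C.1 := by
  classical
  rw [← Finset.all_card_le_biUnion_card_iff_exists_injective
    (fun C : {C // C ∈ F} => ghT G A Fb d dB C.1)]
  intro s
  rcases s.eq_empty_or_nonempty with rfl | ⟨C0, hC0⟩
  · simp
  set T : Finset (Finset V) := s.image Subtype.val with hT
  have hcard : T.card = s.card := Finset.card_image_of_injective s Subtype.val_injective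
  by_cases hs : T ⊆ Fb
  · have hsub : (nbr G A T).disjSum (range dB) ⊆
        s.biUnion (fun C : {C // C ∈ F} => ghT G A Fb d dB C.1) := by
      intro x hx
      rw [Finset.mem_biUnion]
      rcases x with a | j
      · rw [Finset.inl_mem_disjSum] at hx
        unfold nbr at hx
        rw [Finset.mem_filter] at hx
        obtain ⟨ha, C, hC, y, hy, hadj⟩ := hx
        obtain ⟨C', hC', rfl⟩ := Finset.mem_image.mp hC
        refine ⟨C', hC', ?_⟩
        unfold ghT
        rw [Finset.inl_mem_disjSum, Finset.mem_filter]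
        exact ⟨ha, y, hy, hadj⟩
      · rw [Finset.inr_mem_disjSum] at hx
        refine ⟨C0, hC0, ?_⟩
        unfold ghT
        rw [Finset.inr_mem_disjSum, if_pos (hs (Finset.mem_image_of_mem _ hC0))]
        exact hx
    have := Finset.card_le_card hsub
    rw [Finset.card_disjSum, Finset.card_range] at this
    have h3 := h2 T hs
    omega
  · obtain ⟨C1, hC1, hC1b⟩ := Finset.not_subset.mp hs
    obtain ⟨C2, hC2, rfl⟩ := Finset.mem_image.mp hC1
    have hsub : (nbr G A T).disjSum (range d) ⊆
        s.biUnion (fun C : {C // C ∈ F} => ghT G A Fb d dB C.1) := by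
      intro x hx
      rw [Finset.mem_biUnion]
      rcases x with a | j
      · rw [Finset.inl_mem_disjSum] at hx
        unfold nbr at hx
        rw [Finset.mem_filter] at hx
        obtain ⟨ha, C, hC, y, hy, hadj⟩ := hx
        obtain ⟨C', hC', rfl⟩ := Finset.mem_image.mp hC
        refine ⟨C', hC', ?_⟩
        unfold ghT
        rw [Finset.inl_mem_disjSum, Finset.mem_filter]
        exact ⟨ha, y, hy, hadj⟩
      · rw [Finset.inr_mem_disjSum] at hx
        refine ⟨C2, hC2, ?_⟩
        unfold ghT
        rw [Finset.inr_mem_disjSum, if_neg hC1b]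
        exact hx
    have := Finset.card_le_card hsub
    rw [Finset.card_disjSum, Finset.card_range] at this
    have hTF : T ⊆ F := by
      intro C hC
      obtain ⟨C', -, rfl⟩ := Finset.mem_image.mp hC
      exact C'.2
    have h3 := h1 T hTF
    omega

/-- Hall's theorem with `dB` free places for all members and `d - dB` free places for the members
outside `Fb`. -/
theorem exists_assignment [Nonempty V] {G : SimpleGraph V} {A : Finset V}
    {F Fb : Finset (Finset V)}
    {d dB : ℕ} (hFb : Fb ⊆ F) (hd : F.card = A.card + d) (hle : dB ≤ d)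
    (h1 : ∀ T ⊆ F, T.card ≤ (nbr G A T).card + d)
    (h2 : ∀ T ⊆ Fb, T.card ≤ (nbr G A T).card + dB) :
    ∃ (F1 F2 F3 : Finset (Finset V)) (φ : Finset V → V),
      F1 ∪ F2 ∪ F3 = F ∧ Disjoint F1 F2 ∧ Disjoint F1 F3 ∧ Disjoint F2 F3 ∧
      (∀ C ∈ F1, φ C ∈ A ∧ ∃ y ∈ C, G.Adj (φ C) y) ∧ Set.InjOn φ (F1 : Set (Finset V)) ∧
      F1.image φ = A ∧ F2.card = dB ∧ F3.card = d - dB ∧ Disjoint F3 Fb := by
  classical
  obtain ⟨f, hf, hft⟩ := gh_hall hle h1 h2
  set g : Finset V → V ⊕ ℕ := fun C => if h : C ∈ F then f ⟨C, h⟩ else Sum.inr 0 with hg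
  have hgF : ∀ C (h : C ∈ F), g C = f ⟨C, h⟩ := fun C h => dif_pos h
  have hgt : ∀ C ∈ F, g C ∈ ghT G A Fb d dB C := by
    intro C hC
    rw [hgF C hC]
    exact hft ⟨C, hC⟩
  have hginj : ∀ C ∈ F, ∀ D ∈ F, g C = g D → C = D := by
    intro C hC D hD h
    rw [hgF C hC, hgF D hD] at h
    exact congrArg Subtype.val (hf h)
  have himg : F.image g = A.disjSum (range d) := by
    refine Finset.eq_of_subset_of_card_le ?_ ?_
    · intro x hx
      obtain ⟨C, hC, rfl⟩ := Finset.mem_image.mp hx
      have := hgt C hC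
      unfold ghT at this
      rcases hgC : g C with a | j
      · rw [hgC, Finset.inl_mem_disjSum, Finset.mem_filter] at this
        rw [Finset.inl_mem_disjSum]
        exact this.1
      · rw [hgC, Finset.inr_mem_disjSum, Finset.mem_range] at this
        rw [Finset.inr_mem_disjSum, Finset.mem_range]
        split_ifs at this <;> omega
    · rw [Finset.card_image_of_injOn (fun C hC D hD h => hginj C hC D hD h),
        Finset.card_disjSum, Finset.card_range, hd]
  set F1 := F.filter (fun C => ∃ a, g C = Sum.inl a) with hF1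
  set F2 := F.filter (fun C => ∃ j < dB, g C = Sum.inr j) with hF2
  set F3 := F.filter (fun C => ∃ j, dB ≤ j ∧ g C = Sum.inr j) with hF3
  refine ⟨F1, F2, F3, fun C => Sum.elim id (fun _ => Classical.arbitrary V) (g C), ?_, ?_, ?_, ?_,
    ?_, ?_, ?_, ?_, ?_, ?_⟩
  · ext C
    simp only [hF1, hF2, hF3, Finset.mem_union, Finset.mem_filter]
    constructor
    · rintro ((h | h) | h) <;> exact h.1
    · intro hC
      rcases hgC : g C with a | j
      · left; left
        exact ⟨hC, a, rfl⟩
      · by_cases hj : j < dB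
        · left; right
          exact ⟨hC, j, hj, rfl⟩
        · right
          exact ⟨hC, j, by omega, rfl⟩
  · rw [Finset.disjoint_left]
    intro C hC hC'
    simp only [hF1, hF2, Finset.mem_filter] at hC hC'
    obtain ⟨-, a, ha⟩ := hC
    obtain ⟨-, j, -, hj⟩ := hC'
    rw [ha] at hj
    exact absurd hj (by simp)
  · rw [Finset.disjoint_left]
    intro C hC hC'
    simp only [hF1, hF3, Finset.mem_filter] at hC hC'
    obtain ⟨-, a, ha⟩ := hC
    obtain ⟨-, j, -, hj⟩ := hC'
    rw [ha] at hj
    exact absurd hj (by simp)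
  · rw [Finset.disjoint_left]
    intro C hC hC'
    simp only [hF2, hF3, Finset.mem_filter] at hC hC'
    obtain ⟨-, j, h3, hj⟩ := hC
    obtain ⟨-, j', h4, hj'⟩ := hC'
    rw [hj] at hj'
    have := Sum.inr.inj hj'
    omega
  · intro C hC
    simp only [hF1, Finset.mem_filter] at hC
    obtain ⟨hCF, a, ha⟩ := hC
    have := hgt C hCF
    unfold ghT at this
    rw [ha, Finset.inl_mem_disjSum, Finset.mem_filter] at this
    simp only [ha, Sum.elim_inl, id]
    exact this
  · intro C hC D hD h
    simp only [hF1, Finset.coe_filter, Set.mem_ofPred_eq] at hC hD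
    obtain ⟨hCF, a, ha⟩ := hC
    obtain ⟨hDF, b, hb⟩ := hD
    simp only [ha, hb, Sum.elim_inl, id] at h
    refine hginj C hCF D hDF ?_
    rw [ha, hb, h]
  · ext a
    rw [Finset.mem_image]
    constructor
    · rintro ⟨C, hC, rfl⟩
      simp only [hF1, Finset.mem_filter] at hC
      obtain ⟨hCF, b, hb⟩ := hC
      have := hgt C hCF
      unfold ghT at this
      rw [hb, Finset.inl_mem_disjSum, Finset.mem_filter] at this
      simp only [hb, Sum.elim_inl, id]
      exact this.1
    · intro ha
      have : (Sum.inl a : V ⊕ ℕ) ∈ F.image g := by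
        rw [himg, Finset.inl_mem_disjSum]
        exact ha
      obtain ⟨C, hC, hCa⟩ := Finset.mem_image.mp this
      refine ⟨C, ?_, ?_⟩
      · simp only [hF1, Finset.mem_filter]
        exact ⟨hC, a, hCa⟩
      · simp only [hCa, Sum.elim_inl, id]
  · have : F2.image g = (range dB).map ⟨Sum.inr, Sum.inr_injective⟩ := by
      ext x
      simp only [Finset.mem_image, Finset.mem_map, Finset.mem_range, hF2, Finset.mem_filter,
        Function.Embedding.coeFn_mk]
      constructor
      · rintro ⟨C, ⟨hC, j, hj, hCj⟩, rfl⟩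
        exact ⟨j, hj, hCj.symm⟩
      · rintro ⟨j, hj, rfl⟩
        have h3 : (Sum.inr j : V ⊕ ℕ) ∈ F.image g := by
          rw [himg, Finset.inr_mem_disjSum, Finset.mem_range]
          omega
        obtain ⟨C, hC, hCj⟩ := Finset.mem_image.mp h3
        exact ⟨C, ⟨hC, j, hj, hCj⟩, hCj⟩
    have h4 : (F2.image g).card = F2.card := Finset.card_image_of_injOn fun C hC D hD h =>
      hginj C (Finset.filter_subset _ _ hC) D (Finset.filter_subset _ _ hD) h
    rw [← h4, this, Finset.card_map, Finset.card_range]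
  · have : F3.image g = (Ico dB d).map ⟨Sum.inr, Sum.inr_injective⟩ := by
      ext x
      simp only [Finset.mem_image, Finset.mem_map, Finset.mem_Ico, hF3, Finset.mem_filter,
        Function.Embedding.coeFn_mk]
      constructor
      · rintro ⟨C, ⟨hC, j, hj, hCj⟩, rfl⟩
        have h3 : (Sum.inr j : V ⊕ ℕ) ∈ F.image g := by
          rw [← hCj]
          exact Finset.mem_image_of_mem g hC
        rw [himg, Finset.inr_mem_disjSum, Finset.mem_range] at h3
        exact ⟨j, ⟨hj, h3⟩, hCj.symm⟩
      · rintro ⟨j, hj, rfl⟩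
        have h3 : (Sum.inr j : V ⊕ ℕ) ∈ F.image g := by
          rw [himg, Finset.inr_mem_disjSum, Finset.mem_range]
          omega
        obtain ⟨C, hC, hCj⟩ := Finset.mem_image.mp h3
        exact ⟨C, ⟨hC, j, hj.1, hCj⟩, hCj⟩
    have h4 : (F3.image g).card = F3.card := Finset.card_image_of_injOn fun C hC D hD h =>
      hginj C (Finset.filter_subset _ _ hC) D (Finset.filter_subset _ _ hD) h
    rw [← h4, this, Finset.card_map, Nat.card_Ico]
  · rw [Finset.disjoint_left]
    intro C hC hCb
    simp only [hF3, Finset.mem_filter] at hC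
    obtain ⟨hCF, j, hj, hCj⟩ := hC
    have := hgt C hCF
    unfold ghT at this
    rw [hCj, Finset.inr_mem_disjSum, Finset.mem_range, if_pos hCb] at this
    omega

end Pool.Agent.Hyp5
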