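import Pool.Agent.Hyp5.Tutte

/-! # HYP5 SYS: maximal systems of odd closed sets, and systems of a factor-critical set -/

set_option autoImplicit false

namespace Pool.Agent.Hyp5

open Finset

variable {V : Type*} [DecidableEq V] {G : SimpleGraph V}

/-- refining a system inside a closed set -/
private theorem sys_refine {W X Y S : Finset V} {F D : Finset (Finset V)}
    (hF : OddSys G (W \ X) F) (hY : Closed G (W \ X) Y) (hFY : ∀ C ∈ F, Disjoint C Y)
    (hS : S ⊆ Y) (hD : OddSys G (Y \ S) D) :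
    OddSys G (W \ (X ∪ S)) (F ∪ D) ∧ (F ∪ D).card = F.card + D.card := by
  have hsub : W \ (X ∪ S) ⊆ W \ X := sdiff_subset_sdiff (le_refl _) subset_union_left
  have hDY : ∀ E ∈ D, E ⊆ Y := fun E hE => ((hD.closed E hE).1).trans sdiff_subset
  have hFD : ∀ C ∈ F, ∀ E ∈ D, Disjoint C E := fun C hC E hE =>
    (hFY C hC).mono_right (hDY E hE)
  refine ⟨⟨?_, ?_, ?_⟩, ?_⟩
  · intro C hC
    rcases mem_union.1 hC with hC | hC
    · refine (hF.closed C hC).mono ?_ hsub
      intro y hy
      have h1 := mem_sdiff.1 ((hF.closed C hC).1 hy)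
      refine mem_sdiff.2 ⟨h1.1, ?_⟩
      intro h2
      rcases mem_union.1 h2 with h2 | h2
      · exact h1.2 h2
      · exact (Finset.disjoint_left.1 (hFY C hC)) hy (hS h2)
    · refine ⟨?_, ?_⟩
      · intro y hy
        have h1 := mem_sdiff.1 ((hD.closed C hC).1 hy)
        have h2 := mem_sdiff.1 (hY.1 h1.1)
        refine mem_sdiff.2 ⟨h2.1, ?_⟩
        intro h3
        rcases mem_union.1 h3 with h3 | h3
        · exact h2.2 h3
        · exact h1.2 h3
      · intro x hx y hy hxy
        have h1 := mem_sdiff.1 ((hD.closed C hC).1 hx)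
        have h2 := hY.2 x h1.1 y (hsub hy) hxy
        refine (hD.closed C hC).2 x hx y (mem_sdiff.2 ⟨h2, ?_⟩) hxy
        intro h3
        exact (mem_sdiff.1 hy).2 (mem_union_right _ h3)
  · intro C hC
    rcases mem_union.1 hC with hC | hC
    · exact hF.odd C hC
    · exact hD.odd C hC
  · intro C hC E hE hne
    rcases mem_union.1 hC with hC | hC
    · rcases mem_union.1 hE with hE | hE
      · exact hF.disj C hC E hE hne
      · exact hFD C hC E hE
    · rcases mem_union.1 hE with hE | hE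
      · exact (hFD E hE C hC).symm
      · exact hD.disj C hC E hE hne
  · refine card_union_of_disjoint ?_
    rw [Finset.disjoint_left]
    intro C hC hC'
    have h1 := hFD C hC C hC'
    rw [disjoint_self] at h1
    have h2 := (hF.odd C hC).pos
    rw [h1] at h2
    simp at h2

/-- A pair `(X, F)` with `P ⊆ X ⊆ W` and `F` odd closed sets of `W \ X` which maximises
`|F| - |X|` and then `|X|`: the members of `F` are factor-critical and the rest has a
perfect matching. -/
theorem exists_sys (G : SimpleGraph V) (W P : Finset V) (hP : P ⊆ W) :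
    ∃ (X : Finset V) (F : Finset (Finset V)), P ⊆ X ∧ X ⊆ W ∧ FCSys G (W \ X) F ∧
      PM G ((W \ X) \ F.biUnion id) ∧
      ∀ (X' : Finset V) (F' : Finset (Finset V)), P ⊆ X' → X' ⊆ W → OddSys G (W \ X') F' →
        F'.card + X.card ≤ F.card + X'.card := by
  classical
  let S : Finset (Finset V × Finset (Finset V)) :=
    (W.powerset ×ˢ W.powerset.powerset).filter (fun p => P ⊆ p.1 ∧ OddSys G (W \ p.1) p.2)
  let f : Finset V × Finset (Finset V) → ℤ := fun p =>
    ((W.card : ℤ) + 1) * ((p.2.card : ℤ) - p.1.card) + p.1.card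
  have hmem : ∀ (X : Finset V) (F : Finset (Finset V)), P ⊆ X → X ⊆ W → OddSys G (W \ X) F →
      (X, F) ∈ S := by
    intro X F h1 h2 h3
    refine mem_filter.2 ⟨mem_product.2 ⟨mem_powerset.2 h2, mem_powerset.2 ?_⟩, h1, h3⟩
    intro C hC
    exact mem_powerset.2 ((h3.closed C hC).1.trans sdiff_subset)
  have hne : S.Nonempty := ⟨(P, ∅), hmem P ∅ (le_refl _) hP
    ⟨fun C hC => absurd hC (notMem_empty C), fun C hC => absurd hC (notMem_empty C),
      fun C hC => absurd hC (notMem_empty C)⟩⟩
  obtain ⟨⟨X, F⟩, hXF, hmax⟩ := exists_max_image S f hne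
  obtain ⟨h1, hPX, hodd⟩ := mem_filter.1 hXF
  have hXW : X ⊆ W := mem_powerset.1 (mem_product.1 h1).1
  simp only at hPX hodd
  have hXc : X.card ≤ W.card := card_le_card hXW
  have key : ∀ (X' : Finset V) (F' : Finset (Finset V)), P ⊆ X' → X' ⊆ W →
      OddSys G (W \ X') F' → F'.card + X.card ≤ F.card + X'.card ∧
        (F'.card + X.card = F.card + X'.card → X'.card ≤ X.card) := by
    intro X' F' h1 h2 h3
    have h4 := hmax (X', F') (hmem X' F' h1 h2 h3)
    simp only [f] at h4
    have h5 : (X'.card : ℤ) ≤ W.card := by exact_mod_cast card_le_card h2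
    have h6 : (X.card : ℤ) ≤ W.card := by exact_mod_cast hXc
    have h7 : (0 : ℤ) ≤ X'.card := by positivity
    have h8 : (0 : ℤ) ≤ X.card := by positivity
    have h9 : ((F'.card : ℤ) - X'.card) - ((F.card : ℤ) - X.card) ≤ 0 := by
      by_contra hcon
      push Not at hcon
      have h10 : (1 : ℤ) ≤ ((F'.card : ℤ) - X'.card) - ((F.card : ℤ) - X.card) := hcon
      nlinarith
    refine ⟨by omega, fun heq => ?_⟩
    have h11 : (F'.card : ℤ) - X'.card = (F.card : ℤ) - X.card := by omega
    rw [h11] at h4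
    omega
  have hempty : ∀ C ∈ F, C.Nonempty := fun C hC => card_pos.1 (hodd.odd C hC).pos
  refine ⟨X, F, hPX, hXW, ⟨hodd.closed, ?_, hodd.disj⟩, ?_, fun X' F' h1 h2 h3 =>
    (key X' F' h1 h2 h3).1⟩
  · -- members are factor-critical
    intro C hC
    refine ⟨hempty C hC, fun v hv => ?_⟩
    by_contra hpm
    have hev : Even (C.erase v).card := by
      rw [card_erase_of_mem hv]
      obtain ⟨a, ha⟩ := hodd.odd C hC
      exact ⟨a, by omega⟩
    obtain ⟨T, hT, D, hD, hTD⟩ := tutte_fin G (C.erase v) hev hpm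
    have hCc := hodd.closed C hC
    have h1 : (C.erase v) \ T = C \ (insert v T) := by
      ext y
      simp only [mem_sdiff, mem_erase, mem_insert]
      tauto
    have hvT : v ∉ T := fun h => (notMem_erase v C) (hT h)
    have hins : insert v T ⊆ C := by
      intro y hy
      rcases mem_insert.1 hy with rfl | hy
      · exact hv
      · exact mem_of_mem_erase (hT hy)
    have hF' : OddSys G (W \ X) (F.erase C) :=
      ⟨fun E hE => hodd.closed E (mem_of_mem_erase hE),
        fun E hE => hodd.odd E (mem_of_mem_erase hE),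
        fun E hE E' hE' hne => hodd.disj E (mem_of_mem_erase hE) E' (mem_of_mem_erase hE') hne⟩
    obtain ⟨h2, h3⟩ := sys_refine hF' hCc
      (fun E hE => hodd.disj E (mem_of_mem_erase hE) C hC (ne_of_mem_erase hE)) hins
      (by rw [← h1]; exact hD)
    have hCX : C ⊆ W \ X := hCc.1
    have h4 : (X ∪ insert v T).card = X.card + (T.card + 1) := by
      rw [card_union_of_disjoint, card_insert_of_notMem hvT]
      rw [Finset.disjoint_left]
      intro y hy hy'
      exact (mem_sdiff.1 (hCX (hins hy'))).2 hy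
    have h5 := key (X ∪ insert v T) (F.erase C ∪ D) (hPX.trans subset_union_left)
      (union_subset hXW ((hins.trans hCX).trans sdiff_subset)) h2
    rw [h3, h4, card_erase_of_mem hC] at h5
    have h6 : 1 ≤ F.card := card_pos.2 ⟨C, hC⟩
    have h7 := h5.1
    have h8 := h5.2 (by omega)
    omega
  · -- the rest has a perfect matching
    have hcl : Closed G (W \ X) ((W \ X) \ F.biUnion id) :=
      (Closed.biUnion hodd.closed).compl
    have hdis : ∀ C ∈ F, Disjoint C ((W \ X) \ F.biUnion id) := by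
      intro C hC
      rw [Finset.disjoint_left]
      intro y hy hy'
      exact (mem_sdiff.1 hy').2 (mem_biUnion.2 ⟨C, hC, hy⟩)
    by_contra hpm
    rcases Nat.even_or_odd ((W \ X) \ F.biUnion id).card with hev | hod
    · obtain ⟨T, hT, D, hD, hTD⟩ := tutte_fin G _ hev hpm
      obtain ⟨h2, h3⟩ := sys_refine hodd hcl hdis hT hD
      have hTX : T ⊆ W \ X := hT.trans sdiff_subset
      have h4 : (X ∪ T).card = X.card + T.card := by
        rw [card_union_of_disjoint]
        rw [Finset.disjoint_left]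
        intro y hy hy'
        exact (mem_sdiff.1 (hTX hy')).2 hy
      have h5 := (key (X ∪ T) (F ∪ D) (hPX.trans subset_union_left)
        (union_subset hXW (hTX.trans sdiff_subset)) h2).1
      rw [h3, h4] at h5
      omega
    · have h2 : ((W \ X) \ F.biUnion id) ∉ F := by
        intro h
        have h3 := hdis _ h
        rw [disjoint_self] at h3
        have h4 := hod.pos
        rw [h3] at h4
        simp at h4
      have h3 : OddSys G (W \ X) (insert ((W \ X) \ F.biUnion id) F) := by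
        refine ⟨?_, ?_, ?_⟩
        · intro C hC
          rcases mem_insert.1 hC with rfl | hC
          · exact hcl
          · exact hodd.closed C hC
        · intro C hC
          rcases mem_insert.1 hC with rfl | hC
          · exact hod
          · exact hodd.odd C hC
        · intro C hC E hE hne
          rcases mem_insert.1 hC with h | hC
          · rcases mem_insert.1 hE with h' | hE
            · exact absurd (h.trans h'.symm) hne
            · rw [h]; exact (hdis E hE).symm
          · rcases mem_insert.1 hE with h' | hE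
            · rw [h']; exact hdis C hC
            · exact hodd.disj C hC E hE hne
      have h4 := (key X _ hPX hXW h3).1
      rw [card_insert_of_notMem h2] at h4
      omega

/-- the partner outside of an odd closed set -/
private theorem sys_partner {Q X : Finset V} {F : Finset (Finset V)}
    (h : OddSys G (Q \ X) F) {x : V} {f : V → V}
    (hf : ∀ v ∈ Q.erase x, f v ∈ Q.erase x ∧ f (f v) = v ∧ G.Adj v (f v)) (hx : x ∈ X)
    (C : Finset V) (hC : C ∈ F) : ∃ v ∈ C, f v ∈ X.erase x := by
  have hCQ : ∀ v ∈ C, v ∈ Q.erase x := by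
    intro v hv
    have h1 := mem_sdiff.1 ((h.closed C hC).1 hv)
    exact mem_erase.2 ⟨fun h2 => h1.2 (h2 ▸ hx), h1.1⟩
  by_contra hcon
  push Not at hcon
  have hpm : PM G C := by
    refine ⟨f, fun v hv => ?_⟩
    obtain ⟨h1, h2, h3⟩ := hf v (hCQ v hv)
    refine ⟨?_, h2, h3⟩
    have h4 : f v ∉ X := fun h5 => hcon v hv (mem_erase.2 ⟨(mem_erase.1 h1).1, h5⟩)
    exact (h.closed C hC).2 v hv (f v) (mem_sdiff.2 ⟨(mem_erase.1 h1).2, h4⟩) h3
  exact (Nat.not_even_iff_odd.2 (h.odd C hC)) hpm.even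

/-- upper bound for the number of odd closed sets in a factor-critical set. -/
theorem FC.sys_le {Q X : Finset V} {F : Finset (Finset V)} (hQ : FC G Q) (hX : X ⊆ Q)
    (hne : X.Nonempty) (h : OddSys G (Q \ X) F) : F.card + 1 ≤ X.card := by
  obtain ⟨x, hx⟩ := hne
  obtain ⟨f, hf⟩ := hQ.2 x (hX hx)
  haveI : Nonempty V := ⟨x⟩
  choose! g hg using sys_partner h hf hx
  have hCQ : ∀ C ∈ F, ∀ v ∈ C, v ∈ Q.erase x := by
    intro C hC v hv
    have h1 := mem_sdiff.1 ((h.closed C hC).1 hv)
    exact mem_erase.2 ⟨fun h2 => h1.2 (h2 ▸ hx), h1.1⟩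
  have h1 : F.card ≤ (X.erase x).card := by
    refine card_le_card_of_injOn (fun C => f (g C)) (fun C hC => (hg C hC).2) ?_
    intro C hC D hD hCD
    simp only at hCD
    have h2 : g C = g D := by
      rw [← (hf _ (hCQ C hC _ (hg C hC).1)).2.1, hCD, (hf _ (hCQ D hD _ (hg D hD).1)).2.1]
    by_contra hne
    have h3 := h.disj C hC D hD hne
    exact (Finset.disjoint_left.1 h3) (hg C hC).1 (h2 ▸ (hg D hD).1)
  rw [card_erase_of_mem hx] at h1
  have h2 : 1 ≤ X.card := card_pos.2 ⟨x, hx⟩
  omega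

/-- the rest of a tight system has a perfect matching. -/
theorem Tight.rest_pm {Q X : Finset V} {F : Finset (Finset V)} (hQ : FC G Q)
    (h : Tight G Q X F) : PM G ((Q \ X) \ F.biUnion id) := by
  have hodd : OddSys G (Q \ X) F := h.sys.oddSys
  have hne : X.Nonempty := by
    rw [← card_pos, ← h.card]
    exact Nat.succ_pos _
  obtain ⟨x, hx⟩ := hne
  obtain ⟨f, hf⟩ := hQ.2 x (h.sub hx)
  haveI : Nonempty V := ⟨x⟩
  choose! g hg using sys_partner hodd hf hx
  have hCQ : ∀ C ∈ F, ∀ v ∈ C, v ∈ Q.erase x := by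
    intro C hC v hv
    have h1 := mem_sdiff.1 ((hodd.closed C hC).1 hv)
    exact mem_erase.2 ⟨fun h2 => h1.2 (h2 ▸ hx), h1.1⟩
  have hinj : Set.InjOn (fun C => f (g C)) (F : Set (Finset V)) := by
    intro C hC D hD hCD
    simp only at hCD
    have hC' : C ∈ F := hC
    have hD' : D ∈ F := hD
    have h2 : g C = g D := by
      rw [← (hf _ (hCQ C hC' _ (hg C hC').1)).2.1, hCD, (hf _ (hCQ D hD' _ (hg D hD').1)).2.1]
    by_contra hne
    have h3 := hodd.disj C hC' D hD' hne
    exact (Finset.disjoint_left.1 h3) (hg C hC').1 (h2 ▸ (hg D hD').1)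
  have hcard : (X.erase x).card ≤ F.card := by
    rw [card_erase_of_mem hx, ← h.card]
    omega
  have hsurj := surjOn_of_injOn_of_card_le (s := F) (t := X.erase x) (fun C => f (g C))
    (fun C hC => (hg C hC).2) hinj hcard
  refine ⟨f, fun r hr => ?_⟩
  obtain ⟨h1, h2⟩ := mem_sdiff.1 hr
  obtain ⟨h3, h4⟩ := mem_sdiff.1 h1
  have hrx : r ∈ Q.erase x := mem_erase.2 ⟨fun h5 => h4 (h5 ▸ hx), h3⟩
  obtain ⟨h5, h6, h7⟩ := hf r hrx
  refine ⟨?_, h6, h7⟩
  have h8 : f r ∉ X := by
    intro h8
    have h9 : f r ∈ ((X.erase x : Finset V) : Set V) :=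
      mem_coe.2 (mem_erase.2 ⟨(mem_erase.1 h5).1, h8⟩)
    obtain ⟨C, hC, hCr⟩ := hsurj h9
    simp only at hCr
    have hC' : C ∈ F := hC
    have h10 : g C = r := by
      rw [← (hf _ (hCQ C hC' _ (hg C hC').1)).2.1, hCr, h6]
    exact h2 (mem_biUnion.2 ⟨C, hC', h10 ▸ (hg C hC').1⟩)
  refine mem_sdiff.2 ⟨mem_sdiff.2 ⟨(mem_erase.1 h5).2, h8⟩, ?_⟩
  intro h9
  obtain ⟨C, hC, hfr⟩ := mem_biUnion.1 h9
  exact h2 (mem_biUnion.2 ⟨C, hC, (hodd.closed C hC).2 (f r) hfr r h1 h7.symm⟩)

/-- closed sets of a subfamily -/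
private theorem closed_sub_nbr {Q X : Finset V} {F : Finset (Finset V)}
    (h : ∀ C ∈ F, Closed G (Q \ X) C) {T : Finset (Finset V)} (hT : T ⊆ F) :
    ∀ C ∈ T, Closed G (Q \ nbr G X T) C := by
  classical
  intro C hC
  have hc := h C (hT hC)
  refine ⟨?_, ?_⟩
  · intro y hy
    obtain ⟨h1, h2⟩ := mem_sdiff.1 (hc.1 hy)
    refine mem_sdiff.2 ⟨h1, fun h3 => h2 ?_⟩
    unfold nbr at h3
    exact (mem_filter.1 h3).1
  · intro x hx y hy hxy
    obtain ⟨h1, h2⟩ := mem_sdiff.1 hy
    refine hc.2 x hx y (mem_sdiff.2 ⟨h1, fun h3 => h2 ?_⟩) hxy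
    unfold nbr
    exact mem_filter.2 ⟨h3, C, hC, x, hx, hxy.symm⟩

/-- a subfamily together with its neighbours is again a system. -/
theorem OddSys.sub_nbr {Q X : Finset V} {F : Finset (Finset V)} (hX : X ⊆ Q)
    (h : OddSys G (Q \ X) F) {T : Finset (Finset V)} (hT : T ⊆ F) :
    OddSys G (Q \ nbr G X T) T :=
  ⟨closed_sub_nbr h.closed hT, fun C hC => h.odd C (hT hC),
    fun C hC D hD hne => h.disj C (hT hC) D (hT hD) hne⟩

/-- a subfamily together with its neighbours is again a system of factor-critical sets. -/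
theorem FCSys.sub_nbr {Q X : Finset V} {F : Finset (Finset V)} (hX : X ⊆ Q)
    (h : FCSys G (Q \ X) F) {T : Finset (Finset V)} (hT : T ⊆ F) :
    FCSys G (Q \ nbr G X T) T :=
  ⟨closed_sub_nbr h.closed hT, fun C hC => h.fc C (hT hC),
    fun C hC D hD hne => h.disj C (hT hC) D (hT hD) hne⟩

/-- Hall's condition with surplus one. -/
theorem FC.hall {Q X : Finset V} {F : Finset (Finset V)} (hQ : FC G Q) (hX : X ⊆ Q)
    (hne : X.Nonempty) (h : OddSys G (Q \ X) F) {T : Finset (Finset V)} (hT : T ⊆ F)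
    (hTne : T.Nonempty) : T.card + 1 ≤ (nbr G X T).card := by
  classical
  have h1 : OddSys G (Q \ nbr G X T) T := h.sub_nbr hX hT
  have hN : nbr G X T ⊆ X := by
    unfold nbr
    exact filter_subset _ _
  rcases (nbr G X T).eq_empty_or_nonempty with h2 | h2
  · exfalso
    obtain ⟨C, hC⟩ := hTne
    have h3 := h1.closed C hC
    rw [h2, sdiff_empty] at h3
    have h4 : C = Q := hQ.conn h3 (card_pos.1 (h1.odd C hC).pos)
    obtain ⟨x, hx⟩ := hne
    have h5 : x ∈ C := h4 ▸ hX hx
    exact (mem_sdiff.1 ((h.closed C (hT hC)).1 h5)).2 hx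
  · exact hQ.sys_le (hN.trans hX) h2 h1

end Pool.Agent.Hyp5
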