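import Pool.Agent.Hyp5.Defs

/-! # HYP5 MATCH: basic facts on perfect matchings and factor-critical sets -/

set_option autoImplicit false

namespace Pool.Agent.Hyp5

open Finset

variable {V : Type*} [DecidableEq V] {G : SimpleGraph V}

theorem PM.even {Q : Finset V} (h : PM G Q) : Even Q.card := by
  obtain ⟨f, hf⟩ := h
  have h2 : (∑ x ∈ Q, (1 : ZMod 2)) = 0 := by
    refine Finset.sum_involution (fun a _ => f a) ?_ ?_ ?_ ?_
    · intro a _
      decide
    · intro a ha _ he
      exact (hf a ha).2.2.ne he.symm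
    · intro a ha
      exact (hf a ha).1
    · intro a ha
      exact (hf a ha).2.1
  rw [Finset.sum_const, nsmul_eq_mul, mul_one] at h2
  exact (ZMod.natCast_eq_zero_iff_even).1 h2

theorem PM.empty (G : SimpleGraph V) : PM G (∅ : Finset V) :=
  ⟨id, fun v hv => absurd hv (Finset.notMem_empty v)⟩

theorem PM.union {P Q : Finset V} (hP : PM G P) (hQ : PM G Q) (hd : Disjoint P Q) :
    PM G (P ∪ Q) := by
  obtain ⟨f, hf⟩ := hP
  obtain ⟨g, hg⟩ := hQ
  refine ⟨fun v => if v ∈ P then f v else g v, ?_⟩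
  intro v hv
  by_cases hvP : v ∈ P
  · obtain ⟨h1, h2, h3⟩ := hf v hvP
    simp only [hvP, if_true, h1, h2]
    exact ⟨mem_union_left _ h1, trivial, h3⟩
  · have hvQ : v ∈ Q := (mem_union.1 hv).resolve_left hvP
    obtain ⟨h1, h2, h3⟩ := hg v hvQ
    have h4 : g v ∉ P := fun h => (Finset.disjoint_left.1 hd) h h1
    simp only [hvP, if_false, h4, h2]
    exact ⟨mem_union_right _ h1, trivial, h3⟩

theorem PM.pair {x y : V} (h : G.Adj x y) : PM G {x, y} := by
  refine ⟨fun v => if v = x then y else x, ?_⟩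
  intro v hv
  have hne : y ≠ x := h.ne'
  rcases mem_insert.1 hv with rfl | hv
  · simp only [if_true, hne, if_false]
    exact ⟨by simp, trivial, h⟩
  · rw [mem_singleton] at hv
    subst hv
    simp only [hne, if_false, if_true]
    exact ⟨by simp, trivial, h.symm⟩

theorem PM.biUnion {F : Finset (Finset V)} (h : ∀ C ∈ F, PM G C)
    (hd : ∀ C ∈ F, ∀ D ∈ F, C ≠ D → Disjoint C D) : PM G (F.biUnion id) := by
  induction F using Finset.induction_on with
  | empty => simpa using PM.empty G
  | insert C F hC ih =>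
    rw [biUnion_insert]
    refine PM.union (h C (mem_insert_self _ _)) (ih ?_ ?_) ?_
    · intro D hD
      exact h D (mem_insert_of_mem hD)
    · intro D hD E hE hDE
      exact hd D (mem_insert_of_mem hD) E (mem_insert_of_mem hE) hDE
    · rw [Finset.disjoint_biUnion_right]
      intro D hD
      refine hd C (mem_insert_self _ _) D (mem_insert_of_mem hD) ?_
      rintro rfl
      exact hC hD

/-- a perfect matching restricts to a closed subset. -/
theorem PM.restrict {Q P : Finset V} (hQ : PM G Q) (hP : Closed G Q P) : PM G P := by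
  obtain ⟨f, hf⟩ := hQ
  refine ⟨f, fun v hv => ?_⟩
  obtain ⟨h1, h2, h3⟩ := hf v (hP.1 hv)
  exact ⟨hP.2 v hv _ h1 h3, h2, h3⟩

theorem Closed.compl {Q P : Finset V} (h : Closed G Q P) : Closed G Q (Q \ P) := by
  refine ⟨sdiff_subset, fun x hx y hy hxy => ?_⟩
  rw [mem_sdiff] at hx ⊢
  exact ⟨hy, fun hyP => hx.2 (h.2 y hyP x hx.1 hxy.symm)⟩

theorem Closed.mono {W W' C : Finset V} (h : Closed G W C) (h1 : C ⊆ W') (h2 : W' ⊆ W) :
    Closed G W' C :=
  ⟨h1, fun x hx y hy hxy => h.2 x hx y (h2 hy) hxy⟩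

theorem Closed.union {W C D : Finset V} (hC : Closed G W C) (hD : Closed G W D) :
    Closed G W (C ∪ D) := by
  refine ⟨union_subset hC.1 hD.1, fun x hx y hy hxy => ?_⟩
  rcases mem_union.1 hx with hx | hx
  · exact mem_union_left _ (hC.2 x hx y hy hxy)
  · exact mem_union_right _ (hD.2 x hx y hy hxy)

theorem Closed.biUnion {W : Finset V} {F : Finset (Finset V)} (h : ∀ C ∈ F, Closed G W C) :
    Closed G W (F.biUnion id) := by
  refine ⟨?_, fun x hx y hy hxy => ?_⟩
  · intro x hx
    obtain ⟨C, hC, hxC⟩ := mem_biUnion.1 hx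
    exact (h C hC).1 hxC
  · obtain ⟨C, hC, hxC⟩ := mem_biUnion.1 hx
    exact mem_biUnion.2 ⟨C, hC, (h C hC).2 x hxC y hy hxy⟩

theorem FC.odd {Q : Finset V} (h : FC G Q) : Odd Q.card := by
  obtain ⟨⟨v, hv⟩, h2⟩ := h
  have h3 := (h2 v hv).even
  rw [card_erase_of_mem hv] at h3
  have h4 : 0 < Q.card := card_pos.2 ⟨v, hv⟩
  obtain ⟨k, hk⟩ := h3
  exact ⟨k, by omega⟩

theorem FC.singleton (G : SimpleGraph V) (v : V) : FC G {v} := by
  refine ⟨singleton_nonempty v, fun w hw => ?_⟩
  rw [mem_singleton] at hw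
  subst hw
  rw [show ({w} : Finset V).erase w = ∅ by simp]
  exact PM.empty G

/-- factor-critical sets are connected. -/
theorem FC.conn {Q P : Finset V} (hQ : FC G Q) (hP : Closed G Q P) (hne : P.Nonempty) :
    P = Q := by
  by_contra hPQ
  obtain ⟨v, hv⟩ := hne
  have hss : P ⊂ Q := lt_of_le_of_ne hP.1 hPQ
  obtain ⟨w, hwQ, hwP⟩ := Finset.exists_of_ssubset hss
  have h1 : Even P.card := by
    refine ((hQ.2 w hwQ).restrict (hP.mono ?_ (erase_subset _ _))).even
    intro x hx
    refine mem_erase.2 ⟨?_, hP.1 hx⟩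
    rintro rfl
    exact hwP hx
  have h2 : Even (Q \ P).card := by
    refine ((hQ.2 v (hP.1 hv)).restrict (hP.compl.mono ?_ (erase_subset _ _))).even
    intro x hx
    rw [mem_sdiff] at hx
    refine mem_erase.2 ⟨?_, hx.1⟩
    rintro rfl
    exact hx.2 hv
  have h3 := card_sdiff_add_card_eq_card hP.1
  have h4 := hQ.odd
  rw [← h3] at h4
  have h5 : Even ((Q \ P).card + P.card) := h2.add h1
  exact (Nat.not_even_iff_odd.2 h4) h5

theorem FC.pm_insert {C : Finset V} {x : V} (h : FC G C) (hx : x ∉ C)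
    (ha : ∃ y ∈ C, G.Adj x y) : PM G (insert x C) := by
  obtain ⟨y, hy, hxy⟩ := ha
  have h1 : insert x C = {x, y} ∪ C.erase y := by
    ext z
    simp only [mem_insert, mem_union, mem_singleton, mem_erase]
    constructor
    · rintro (h | h)
      · exact Or.inl (Or.inl h)
      · by_cases hz : z = y
        · exact Or.inl (Or.inr hz)
        · exact Or.inr ⟨hz, h⟩
    · rintro ((h | h) | h)
      · exact Or.inl h
      · exact Or.inr (h ▸ hy)
      · exact Or.inr h.2
  rw [h1]
  refine (PM.pair hxy).union (h.2 y hy) ?_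
  rw [disjoint_left]
  intro z hz hz2
  rw [mem_erase] at hz2
  rcases mem_insert.1 hz with rfl | hz
  · exact hx hz2.2
  · exact hz2.1 (mem_singleton.1 hz)

theorem FC.insert_pair {M : Finset V} {i j : V} (h : FC G M) (hi : i ∉ M) (hj : j ∉ M)
    (hij : G.Adj i j) (hin : ∃ y ∈ M, G.Adj i y) (hjn : ∃ y ∈ M, G.Adj j y) :
    FC G (insert i (insert j M)) := by
  have hne : i ≠ j := hij.ne
  refine ⟨⟨i, mem_insert_self _ _⟩, fun v hv => ?_⟩
  by_cases hvi : v = i
  · subst hvi
    rw [erase_insert (by simp [hne, hi])]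
    exact h.pm_insert hj hjn
  by_cases hvj : v = j
  · subst hvj
    have h1 : (insert i (insert v M)).erase v = insert i M := by
      ext z
      simp only [mem_erase, mem_insert]
      constructor
      · rintro ⟨h1, h2 | h2 | h2⟩
        · exact Or.inl h2
        · exact absurd h2 h1
        · exact Or.inr h2
      · rintro (h2 | h2)
        · exact ⟨by rw [h2]; exact hne, Or.inl h2⟩
        · exact ⟨by rintro rfl; exact hj h2, Or.inr (Or.inr h2)⟩
    rw [h1]
    exact h.pm_insert hi hin
  · have hvM : v ∈ M := by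
      rcases mem_insert.1 hv with hv | hv
      · exact absurd hv hvi
      · rcases mem_insert.1 hv with hv | hv
        · exact absurd hv hvj
        · exact hv
    have h1 : (insert i (insert j M)).erase v = {i, j} ∪ M.erase v := by
      ext z
      simp only [mem_erase, mem_insert, mem_union, mem_singleton]
      constructor
      · rintro ⟨h1, h2 | h2 | h2⟩
        · exact Or.inl (Or.inl h2)
        · exact Or.inl (Or.inr h2)
        · exact Or.inr ⟨h1, h2⟩
      · rintro ((h2 | h2) | h2)
        · exact ⟨by rw [h2]; exact fun h => hvi h.symm, Or.inl h2⟩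
        · exact ⟨by rw [h2]; exact fun h => hvj h.symm, Or.inr (Or.inl h2)⟩
        · exact ⟨h2.1, Or.inr (Or.inr h2.2)⟩
    rw [h1]
    refine (PM.pair hij).union (h.2 v hvM) ?_
    rw [disjoint_left]
    intro z hz hz2
    rw [mem_erase] at hz2
    rcases mem_insert.1 hz with rfl | hz
    · exact hi hz2.2
    · rw [mem_singleton] at hz
      subst hz
      exact hj hz2.2

theorem FCSys.oddSys {W : Finset V} {F : Finset (Finset V)} (h : FCSys G W F) :
    OddSys G W F :=
  ⟨h.closed, fun C hC => (h.fc C hC).odd, h.disj⟩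

/-- a block of the graph `gr B` is a clique, so it does not leave a closed set which it meets. -/
theorem block_closed {ι : Type*} {B : ι → Finset V} {W C : Finset V} (h : Closed (gr B) W C)
    (i : ι) (hne : (B i ∩ C).Nonempty) : B i ∩ W ⊆ C := by
  obtain ⟨x, hx⟩ := hne
  rw [mem_inter] at hx
  intro y hy
  rw [mem_inter] at hy
  by_cases hxy : x = y
  · rw [← hxy]
    exact hx.2
  · exact h.2 x hx.2 y hy.2 ⟨hxy, i, hx.1, hy.1⟩

end Pool.Agent.Hyp5
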