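import Pool.Agent.Hyp5.Defs
import Pool.Agent.Hyp5.Match

/-! # HYP5 TUTTE: the theorem of Tutte for a finite set of vertices -/

set_option autoImplicit false

namespace Pool.Agent.Hyp5

open Finset

variable {V : Type*} [DecidableEq V] {G : SimpleGraph V}

/-- the graph induced on a finite set -/
abbrev tutteH (G : SimpleGraph V) (Q : Finset V) : SimpleGraph {v // v ∈ Q} :=
  G.comap Subtype.val

theorem tutte_pm (G : SimpleGraph V) (Q : Finset V) (M : (tutteH G Q).Subgraph)
    (hM : M.IsPerfectMatching) : PM G Q := by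
  rw [SimpleGraph.Subgraph.isPerfectMatching_iff] at hM
  choose f hf hf' using hM
  refine ⟨fun v => if hv : v ∈ Q then (f ⟨v, hv⟩ : V) else v, ?_⟩
  intro v hv
  have h1 : M.Adj ⟨v, hv⟩ (f ⟨v, hv⟩) := hf _
  have h2 : f (f ⟨v, hv⟩) = ⟨v, hv⟩ := (hf' (f ⟨v, hv⟩) ⟨v, hv⟩ h1.symm).symm
  simp only [hv, dif_pos]
  refine ⟨(f ⟨v, hv⟩).2, ?_, ?_⟩
  · rw [dif_pos (f ⟨v, hv⟩).2]
    simp [h2]
  · exact h1.adj_sub

theorem tutte_fin (G : SimpleGraph V) (Q : Finset V) (hev : Even Q.card) (h : ¬ PM G Q) :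
    ∃ S ⊆ Q, ∃ F : Finset (Finset V), OddSys G (Q \ S) F ∧ S.card + 2 ≤ F.card := by
  classical
  have h1 : ¬ ∀ u, ¬ (tutteH G Q).IsTutteViolator u := by
    rw [← SimpleGraph.tutte]
    rintro ⟨M, hM⟩
    exact h (tutte_pm G Q M hM)
  push Not at h1
  obtain ⟨u, hu⟩ := h1
  unfold SimpleGraph.IsTutteViolator at hu
  set K := ((⊤ : (tutteH G Q).Subgraph).deleteVerts u).coe with hK
  have hverts : ∀ x : {v // v ∈ Q}, x ∈ ((⊤ : (tutteH G Q).Subgraph).deleteVerts u).verts ↔
      x ∉ u := by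
    intro x; simp
  let φ : ((⊤ : (tutteH G Q).Subgraph).deleteVerts u).verts → V := fun x => x.1.1
  have hφ : Function.Injective φ := by
    intro x y hxy
    exact Subtype.ext (Subtype.ext hxy)
  have hKadj : ∀ x y, K.Adj x y ↔ G.Adj (φ x) (φ y) := by
    intro x y
    simp [hK, SimpleGraph.Subgraph.coe_adj, φ]
  let cf : K.ConnectedComponent → Finset V := fun c => (c.supp.toFinset).image φ
  have hcf_mem : ∀ c x, x ∈ cf c ↔ ∃ z ∈ c.supp, φ z = x := by
    intro c x; simp [cf]
  have hcf_card : ∀ c, (cf c).card = c.supp.ncard := by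
    intro c
    simp only [cf]
    rw [Finset.card_image_of_injective _ hφ, Set.ncard_eq_toFinset_card']
  have hcf_disj : ∀ c d, c ≠ d → Disjoint (cf c) (cf d) := by
    intro c d hcd
    rw [Finset.disjoint_left]
    intro x hx hx'
    obtain ⟨z, hz, rfl⟩ := (hcf_mem c x).1 hx
    obtain ⟨z', hz', e⟩ := (hcf_mem d _).1 hx'
    have := hφ e
    subst this
    rw [SimpleGraph.ConnectedComponent.mem_supp_iff] at hz hz'
    exact hcd (hz.symm.trans hz')
  have hcf_inj : Function.Injective cf := by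
    intro c d hcd
    by_contra hne
    have hd := hcf_disj c d hne
    rw [hcd, Finset.disjoint_self_iff_empty] at hd
    have h0 := hcf_card d
    rw [hd, Finset.card_empty] at h0
    obtain ⟨z, hz⟩ := d.nonempty_supp
    have := Set.ncard_pos (Set.toFinite _) |>.2 ⟨z, hz⟩
    omega
  set S : Finset V := u.toFinset.image Subtype.val with hS
  have hSmem : ∀ x (hx : x ∈ Q), x ∈ S ↔ (⟨x, hx⟩ : {v // v ∈ Q}) ∈ u := by
    intro x hx
    simp [hS, hx]
  have hSQ : S ⊆ Q := by
    intro x hx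
    simp only [hS, Finset.mem_image] at hx
    obtain ⟨y, _, rfl⟩ := hx
    exact y.2
  have hScard : S.card = u.ncard := by
    rw [hS, Finset.card_image_of_injective _ Subtype.val_injective, Set.ncard_eq_toFinset_card']
  set F : Finset (Finset V) := (K.oddComponents.toFinset).image cf with hF
  have hFcard : F.card = K.oddComponents.ncard := by
    rw [hF, Finset.card_image_of_injective _ hcf_inj, Set.ncard_eq_toFinset_card']
  refine ⟨S, hSQ, F, ⟨?_, ?_, ?_⟩, ?_⟩
  · intro C hC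
    simp only [hF, Finset.mem_image] at hC
    obtain ⟨c, _, rfl⟩ := hC
    refine ⟨?_, ?_⟩
    · intro x hx
      obtain ⟨z, hz, rfl⟩ := (hcf_mem c x).1 hx
      rw [Finset.mem_sdiff]
      refine ⟨z.1.2, ?_⟩
      rw [hSmem _ z.1.2]
      exact (hverts z.1).1 z.2
    · intro x hx y hy hxy
      obtain ⟨z, hz, rfl⟩ := (hcf_mem c x).1 hx
      rw [Finset.mem_sdiff] at hy
      have hyu : (⟨y, hy.1⟩ : {v // v ∈ Q}) ∉ u := fun hh => hy.2 ((hSmem y hy.1).2 hh)
      let y' : ((⊤ : (tutteH G Q).Subgraph).deleteVerts u).verts := ⟨⟨y, hy.1⟩, (hverts _).2 hyu⟩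
      have hadj : K.Adj z y' := (hKadj z y').2 hxy
      refine (hcf_mem c y).2 ⟨y', ?_, rfl⟩
      rw [SimpleGraph.ConnectedComponent.mem_supp_iff] at hz ⊢
      rw [← hz]
      exact (SimpleGraph.ConnectedComponent.sound hadj.reachable.symm)
  · intro C hC
    simp only [hF, Finset.mem_image] at hC
    obtain ⟨c, hc, rfl⟩ := hC
    rw [hcf_card]
    simpa using hc
  · intro C hC D hD hne
    simp only [hF, Finset.mem_image] at hC hD
    obtain ⟨c, hc, rfl⟩ := hC
    obtain ⟨d, hd, rfl⟩ := hD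
    exact hcf_disj c d (fun hh => hne (by rw [hh]))
  · have hpar := SimpleGraph.odd_ncard_oddComponents K
    have hcardK : Nat.card ((⊤ : (tutteH G Q).Subgraph).deleteVerts u).verts = (Q \ S).card := by
      rw [Nat.card_eq_fintype_card, ← Finset.card_univ, ← Finset.card_image_of_injective _ hφ]
      congr 1
      ext x
      simp only [Finset.mem_image, Finset.mem_univ, true_and, Finset.mem_sdiff]
      constructor
      · rintro ⟨z, rfl⟩
        refine ⟨z.1.2, ?_⟩
        rw [hSmem _ z.1.2]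
        exact (hverts z.1).1 z.2
      · rintro ⟨hxQ, hxS⟩
        exact ⟨⟨⟨x, hxQ⟩, (hverts _).2 (fun hh => hxS ((hSmem x hxQ).2 hh))⟩, rfl⟩
    rw [hcardK, Finset.card_sdiff_of_subset hSQ] at hpar
    have hle := Finset.card_le_card hSQ
    rw [hFcard, hScard]
    rw [hScard] at hpar hle
    rw [Nat.odd_iff, Nat.odd_iff] at hpar
    rw [Nat.even_iff] at hev
    omega

end Pool.Agent.Hyp5
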