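import Pool.Agent.Hyp5.Match

/-! # HYP5 COST: counting lemmas for the costs -/

set_option autoImplicit false

namespace Pool.Agent.Hyp5

open Finset

variable {V : Type*} [DecidableEq V] {ι : Type*} [Fintype ι] {B : ι → Finset V}

theorem sum_inc {P : Finset V} (hP : Reg B P) : ∑ i, (B i ∩ P).card = 5 * P.card := by
  have h1 : ∀ i, (B i ∩ P).card = ∑ v ∈ P, if v ∈ B i then 1 else 0 := by
    intro i
    rw [← Finset.card_filter, Finset.inter_comm, ← Finset.filter_mem_eq_inter]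
  simp_rw [h1]
  rw [Finset.sum_comm]
  have h2 : ∀ v ∈ P, (∑ i, if v ∈ B i then 1 else 0) = 5 := by
    intro v hv
    rw [← Finset.card_filter]
    exact hP v hv
  rw [Finset.sum_congr rfl h2, Finset.sum_const, smul_eq_mul, mul_comm]

theorem cost_mem_tch {P : Finset V} {i : ι} : i ∈ tch B P ↔ (B i ∩ P).Nonempty := by
  simp [tch]

theorem sum_inc_tch {P : Finset V} (hP : Reg B P) :
    ∑ i ∈ tch B P, (B i ∩ P).card = 5 * P.card := by
  rw [← sum_inc hP]
  apply Finset.sum_subset (Finset.subset_univ _)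
  intro i _ hi
  rw [cost_mem_tch, Finset.not_nonempty_iff_eq_empty] at hi
  rw [hi, Finset.card_empty]

theorem Reg.mono {P Q : Finset V} (h : Reg B Q) (hPQ : P ⊆ Q) : Reg B P :=
  fun v hv => h v (hPQ hv)

theorem tch_mono {P P' : Finset V} (h : P ⊆ P') : tch B P ⊆ tch B P' := by
  intro i hi
  rw [cost_mem_tch] at hi ⊢
  exact hi.mono (Finset.inter_subset_inter_left h)

theorem tch_disj {P P' : Finset V} (hd : Disjoint P P')
    (h : ∀ x ∈ P, ∀ y ∈ P', ¬ (gr B).Adj x y) : Disjoint (tch B P) (tch B P') := by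
  rw [Finset.disjoint_left]
  intro i h1 h2
  rw [cost_mem_tch] at h1 h2
  obtain ⟨x, hx⟩ := h1
  obtain ⟨y, hy⟩ := h2
  rw [Finset.mem_inter] at hx hy
  apply h x hx.2 y hy.2
  refine ⟨?_, i, hx.1, hy.1⟩
  rintro rfl
  exact Finset.disjoint_left.mp hd hx.2 hy.2

theorem PsiQ_mono {Q P P' : Finset V} (h : P ⊆ P') : PsiQ B Q P ≤ PsiQ B Q P' :=
  Finset.sum_le_sum_of_subset (tch_mono h)

theorem PsiQ_add {Q P P' : Finset V} (hP : P ⊆ Q) (hP' : P' ⊆ Q)
    (hd : Disjoint (tch B P) (tch B P')) : PsiQ B Q P + PsiQ B Q P' ≤ Psi B Q := by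
  classical
  unfold Psi PsiQ
  rw [← Finset.sum_union hd]
  exact Finset.sum_le_sum_of_subset (Finset.union_subset (tch_mono hP) (tch_mono hP'))

theorem PsiQ_add3 {Q P P' P'' : Finset V} (hP : P ⊆ Q) (hP' : P' ⊆ Q) (hP'' : P'' ⊆ Q)
    (h1 : Disjoint (tch B P) (tch B P')) (h2 : Disjoint (tch B P) (tch B P''))
    (h3 : Disjoint (tch B P') (tch B P'')) :
    PsiQ B Q P + PsiQ B Q P' + PsiQ B Q P'' ≤ Psi B Q := by
  classical
  unfold Psi PsiQ
  rw [← Finset.sum_union h1, ← Finset.sum_union (Finset.disjoint_union_left.mpr ⟨h2, h3⟩)]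
  exact Finset.sum_le_sum_of_subset (Finset.union_subset (Finset.union_subset (tch_mono hP)
    (tch_mono hP')) (tch_mono hP''))

omit [Fintype ι] in
theorem cost_card_split (Q : Finset V) (i : ι) :
    (B i).card = (B i ∩ Q).card + (B i \ Q).card := by
  rw [Finset.card_inter_add_card_sdiff]

omit [Fintype ι] in
theorem cost_inner_of {Q : Finset V} {i : ι} (h3 : (B i).card = 3) (h0 : (B i \ Q).card = 0) :
    Inner B Q i := by
  refine ⟨?_, h3⟩
  rwa [Finset.card_eq_zero, Finset.sdiff_eq_empty_iff_subset] at h0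

/-- a block meeting `Q` which is not an inner triple of `Q`. -/
theorem psi_noninner {Q : Finset V} {i : ι} (hs : (B i).card ≤ 3) (hne : (B i ∩ Q).Nonempty)
    (hn : ¬ Inner B Q i) : 4 ≤ psi B Q i ∧ 2 * (B i ∩ Q).card ≤ psi B Q i := by
  have h1 := cost_card_split (B := B) Q i
  have h2 : 1 ≤ (B i ∩ Q).card := Finset.card_pos.mpr hne
  have h3 : ¬ ((B i).card = 3 ∧ (B i \ Q).card = 0) := fun h => hn (cost_inner_of h.1 h.2)
  unfold psi om
  split_ifs <;> omega

theorem psi_one {Q : Finset V} {i : ι} (hs : (B i).card ≤ 3) (h1 : (B i ∩ Q).card = 1) :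
    7 ≤ psi B Q i := by
  have h2 := cost_card_split (B := B) Q i
  unfold psi om
  split_ifs <;> omega

/-- comparison of the costs with respect to `M` and to `Q`, when the points of `Q \ M` in blocks
meeting `M` are in `N`. -/
theorem Psi_closed {Q M N : Finset V} (hMQ : M ⊆ Q) (hN : N ⊆ Q \ M)
    (h : ∀ i ∈ tch B M, B i ∩ Q ⊆ M ∪ N) :
    Psi B M = PsiQ B Q M + 4 * ∑ i ∈ tch B M, (B i ∩ N).card := by
  unfold Psi PsiQ
  rw [Finset.mul_sum, ← Finset.sum_add_distrib]
  apply Finset.sum_congr rfl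
  intro i hi
  have h1 : B i \ M = (B i \ Q) ∪ (B i ∩ N) := by
    ext x
    simp only [Finset.mem_sdiff, Finset.mem_union, Finset.mem_inter]
    constructor
    · rintro ⟨hx, hxM⟩
      by_cases hxQ : x ∈ Q
      · have := h i hi (Finset.mem_inter.mpr ⟨hx, hxQ⟩)
        rw [Finset.mem_union] at this
        exact Or.inr ⟨hx, this.resolve_left hxM⟩
      · exact Or.inl ⟨hx, hxQ⟩
    · rintro (⟨hx, hxQ⟩ | ⟨hx, hxN⟩)
      · exact ⟨hx, fun hM => hxQ (hMQ hM)⟩
      · exact ⟨hx, (Finset.mem_sdiff.mp (hN hxN)).2⟩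
  have h2 : Disjoint (B i \ Q) (B i ∩ N) := by
    rw [Finset.disjoint_left]
    intro x hx hx'
    rw [Finset.mem_sdiff] at hx
    rw [Finset.mem_inter] at hx'
    exact hx.2 (Finset.mem_sdiff.mp (hN hx'.2)).1
  unfold psi
  rw [h1, Finset.card_union_of_disjoint h2]
  ring

/-- the cost of a set met by inner triples in single points only. -/
theorem cost_ge {Q P : Finset V} (hs : Small B) (hr : Reg B P) (hPQ : P ⊆ Q)
    (h1 : ∀ i ∈ inn B Q P, (B i ∩ P).card = 1) :
    10 * P.card ≤ PsiQ B Q P + 2 * (inn B Q P).card := by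
  have h2 : 2 * (inn B Q P).card = ∑ i ∈ tch B P, if Inner B Q i then 2 else 0 := by
    unfold inn
    rw [← Finset.sum_filter, Finset.sum_const, smul_eq_mul, mul_comm]
  have h3 : 10 * P.card = ∑ i ∈ tch B P, 2 * (B i ∩ P).card := by
    rw [← Finset.mul_sum, sum_inc_tch hr]; ring
  rw [h2, h3]
  unfold PsiQ
  rw [← Finset.sum_add_distrib]
  apply Finset.sum_le_sum
  intro i hi
  by_cases hin : Inner B Q i
  · rw [if_pos hin, h1 i (by unfold inn; exact Finset.mem_filter.mpr ⟨hi, hin⟩)]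
    omega
  · rw [if_neg hin, add_zero]
    rw [cost_mem_tch] at hi
    have h4 := (psi_noninner (hs i) (hi.mono (Finset.inter_subset_inter_left hPQ)) hin).2
    have h5 : (B i ∩ P).card ≤ (B i ∩ Q).card :=
      Finset.card_le_card (Finset.inter_subset_inter_left hPQ)
    omega

/-- the cost of a single point. -/
theorem cost_single {Q : Finset V} {l : V} (hs : Small B) (hr : Reg B {l}) (hl : l ∈ Q) :
    20 ≤ PsiQ B Q {l} + 4 * (inn B Q {l}).card := by
  have h2 : 4 * (inn B Q {l}).card = ∑ i ∈ tch B {l}, if Inner B Q i then 4 else 0 := by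
    unfold inn
    rw [← Finset.sum_filter, Finset.sum_const, smul_eq_mul, mul_comm]
  have h0 : (tch B {l}).card = 5 := by
    rw [← hr l (Finset.mem_singleton_self l)]
    congr 1
    ext i
    rw [cost_mem_tch, Finset.mem_filter]
    constructor
    · rintro ⟨x, hx⟩
      rw [Finset.mem_inter, Finset.mem_singleton] at hx
      exact ⟨Finset.mem_univ _, hx.2 ▸ hx.1⟩
    · rintro ⟨_, h⟩
      exact ⟨l, Finset.mem_inter.mpr ⟨h, Finset.mem_singleton_self l⟩⟩
  have h3 : 20 = ∑ i ∈ tch B {l}, 4 := by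
    rw [Finset.sum_const, smul_eq_mul, h0]
  rw [h2, h3]
  unfold PsiQ
  rw [← Finset.sum_add_distrib]
  apply Finset.sum_le_sum
  intro i hi
  by_cases hin : Inner B Q i
  · rw [if_pos hin]; omega
  · rw [if_neg hin, add_zero]
    rw [cost_mem_tch] at hi
    exact (psi_noninner (hs i) (hi.mono (Finset.inter_subset_inter_left
      (Finset.singleton_subset_iff.mpr hl))) hin).1

/-- the key lemma when there is no inner triple. -/
theorem key_noinner {Q : Finset V} (hs : Small B) (hr : Reg B Q) (hodd : Odd Q.card)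
    (hn : ∀ i, ¬ Inner B Q i) : 35 ≤ Psi B Q := by
  have h2 := sum_inc_tch hr
  have hp : ∀ i ∈ tch B Q, 2 * (B i ∩ Q).card + (if (B i ∩ Q).card = 1 then 5 else 0) ≤
      psi B Q i := by
    intro i hi
    rw [cost_mem_tch] at hi
    split_ifs with h
    · rw [h]; exact psi_one (hs i) h
    · exact (psi_noninner (hs i) hi (hn i)).2
  have h3 : ∑ i ∈ tch B Q, (2 * (B i ∩ Q).card + (if (B i ∩ Q).card = 1 then 5 else 0)) ≤
      Psi B Q := Finset.sum_le_sum hp
  rw [Finset.sum_add_distrib, ← Finset.mul_sum, h2] at h3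
  obtain ⟨k, hk⟩ := hodd
  by_cases h5 : 4 ≤ Q.card
  · omega
  by_cases h4 : Q.card = 1
  · have h6 : ∀ i ∈ tch B Q, (B i ∩ Q).card = 1 := by
      intro i hi
      rw [cost_mem_tch] at hi
      have h7 : 1 ≤ (B i ∩ Q).card := Finset.card_pos.mpr hi
      have h8 : (B i ∩ Q).card ≤ Q.card := Finset.card_le_card Finset.inter_subset_right
      omega
    have h7 : ∑ i ∈ tch B Q, (if (B i ∩ Q).card = 1 then 5 else 0) =
        ∑ i ∈ tch B Q, 5 * (B i ∩ Q).card := by
      apply Finset.sum_congr rfl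
      intro i hi
      rw [h6 i hi, if_pos rfl]
    rw [h7, ← Finset.mul_sum, h2] at h3
    omega
  · have h6 : ∃ i ∈ tch B Q, (B i ∩ Q).card = 1 := by
      by_contra hcon
      push Not at hcon
      have h7 : ∀ i ∈ tch B Q, (B i ∩ Q).card = 2 := by
        intro i hi
        have h8 := hcon i hi
        have h9 : 1 ≤ (B i ∩ Q).card := Finset.card_pos.mpr (cost_mem_tch.mp hi)
        have h10 := cost_card_split (B := B) Q i
        have h11 := hs i
        have h12 : ¬ ((B i).card = 3 ∧ (B i \ Q).card = 0) :=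
          fun h => hn i (cost_inner_of h.1 h.2)
        omega
      rw [Finset.sum_congr rfl h7, Finset.sum_const, smul_eq_mul] at h2
      omega
    obtain ⟨i, hi, hi1⟩ := h6
    have h7 : (if (B i ∩ Q).card = 1 then 5 else 0) ≤
        ∑ i ∈ tch B Q, (if (B i ∩ Q).card = 1 then 5 else 0) :=
      Finset.single_le_sum (f := fun i => if (B i ∩ Q).card = 1 then 5 else 0)
        (fun _ _ => Nat.zero_le _) hi
    rw [if_pos hi1] at h7
    omega

/-- summing the costs of the members of a system. -/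
theorem sum_sys {Q X : Finset V} {F : Finset (Finset V)} (hr : Reg B Q) (hX : X ⊆ Q)
    (hF : FCSys (gr B) (Q \ X) F) (i : ι) (hi : B i ⊆ X) (hc : (B i).card = 3) :
    ∑ C ∈ F, Psi B C + 12 ≤ Psi B Q + 20 * X.card := by
  classical
  have hCQ : ∀ C ∈ F, C ⊆ Q := fun C hC => (hF.closed C hC).1.trans Finset.sdiff_subset
  have hCX : ∀ C ∈ F, Disjoint C X := by
    intro C hC
    rw [Finset.disjoint_left]
    intro x hx hx'
    exact (Finset.mem_sdiff.mp ((hF.closed C hC).1 hx)).2 hx'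
  have hbl : ∀ C ∈ F, ∀ j ∈ tch B C, B j ∩ (Q \ X) ⊆ C := fun C hC j hj =>
    block_closed (hF.closed C hC) j (cost_mem_tch.mp hj)
  have e1 : ∀ C ∈ F, Psi B C = PsiQ B Q C + 4 * ∑ j ∈ tch B C, (B j ∩ X).card := by
    intro C hC
    apply Psi_closed (hCQ C hC)
    · intro x hx
      exact Finset.mem_sdiff.mpr ⟨hX hx, fun h => Finset.disjoint_left.mp (hCX C hC) h hx⟩
    · intro j hj x hx
      rw [Finset.mem_inter] at hx
      by_cases hxX : x ∈ X
      · exact Finset.mem_union_right _ hxX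
      · exact Finset.mem_union_left _ (hbl C hC j hj (Finset.mem_inter.mpr
          ⟨hx.1, Finset.mem_sdiff.mpr ⟨hx.2, hxX⟩⟩))
  have hdis : (F : Set (Finset V)).PairwiseDisjoint (tch B) := by
    intro C hC D hD hne
    rw [Function.onFun, Finset.disjoint_left]
    intro j hj hj'
    obtain ⟨x, hx⟩ := cost_mem_tch.mp hj
    rw [Finset.mem_inter] at hx
    have h1 : x ∈ D := hbl D hD j hj' (Finset.mem_inter.mpr ⟨hx.1, (hF.closed C hC).1 hx.2⟩)
    exact Finset.disjoint_left.mp (hF.disj C hC D hD hne) hx.2 h1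
  have e2 : ∑ C ∈ F, PsiQ B Q C ≤ Psi B Q := by
    unfold PsiQ Psi PsiQ
    rw [← Finset.sum_biUnion hdis]
    apply Finset.sum_le_sum_of_subset
    intro j hj
    rw [Finset.mem_biUnion] at hj
    obtain ⟨C, hC, hj⟩ := hj
    exact tch_mono (hCQ C hC) hj
  have e3 : ∑ C ∈ F, ∑ j ∈ tch B C, (B j ∩ X).card + 3 ≤ 5 * X.card := by
    rw [← sum_inc (hr.mono hX), ← Finset.sum_biUnion hdis]
    have hni : i ∉ F.biUnion (tch B) := by
      rw [Finset.mem_biUnion]
      rintro ⟨C, hC, hj⟩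
      obtain ⟨x, hx⟩ := cost_mem_tch.mp hj
      rw [Finset.mem_inter] at hx
      exact Finset.disjoint_left.mp (hCX C hC) hx.2 (hi hx.1)
    have h3 : (B i ∩ X).card = 3 := by
      rw [Finset.inter_eq_left.mpr hi, hc]
    calc ∑ j ∈ F.biUnion (tch B), (B j ∩ X).card + 3 =
        ∑ j ∈ insert i (F.biUnion (tch B)), (B j ∩ X).card := by
          rw [Finset.sum_insert hni, h3, add_comm]
      _ ≤ ∑ j, (B j ∩ X).card := Finset.sum_le_sum_of_subset (Finset.subset_univ _)
  rw [Finset.sum_congr rfl e1, Finset.sum_add_distrib, ← Finset.mul_sum]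
  omega

end Pool.Agent.Hyp5
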