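import Pool.Agent.Hyp5.SysB
import Pool.Agent.Hyp5.Cost

/-! # HYP5 ALLSPLIT: every inner triple splits, or the cost is large -/

set_option autoImplicit false

namespace Pool.Agent.Hyp5

open Finset

variable {V : Type*} [DecidableEq V] {ι : Type*} [Fintype ι] {B : ι → Finset V}

theorem all_split {Q : Finset V} (hs : Small B) (hr : Reg B Q) (hfc : FC (gr B) Q)
    (hb : Bad B Q) (ih : IH B Q) : 35 ≤ Psi B Q ∨ AllSplit B Q := by
  by_cases h35 : 35 ≤ Psi B Q
  · exact Or.inl h35
  refine Or.inr fun i hi => ?_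
  obtain ⟨X, F, hBX, ht, hmin⟩ := exists_min_tight hfc hi.1 hi.2 (hb i hi)
  have hcl : ∀ x ∈ B i, ∀ y ∈ B i, x ≠ y → (gr B).Adj x y := fun x hx y hy hne =>
    ⟨hne, i, hx, hy⟩
  have hBne : (B i).Nonempty := by
    rw [← Finset.card_pos, hi.2]
    norm_num
  have hXne : X.Nonempty := hBne.mono hBX
  have hCsub : ∀ C ∈ F, C ⊆ Q \ X := fun C hC => (ht.sys.closed C hC).1
  have hCQ : ∀ C ∈ F, C ⊂ Q := by
    intro C hC
    refine ⟨(hCsub C hC).trans Finset.sdiff_subset, fun hQC => ?_⟩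
    obtain ⟨x, hx⟩ := hXne
    exact (Finset.mem_sdiff.1 (hCsub C hC (hQC (ht.sub hx)))).2 hx
  have hbad : ∀ C ∈ F, Bad B C := by
    intro C hC j hj hpm
    exact hb j ⟨hj.1.trans (hCQ C hC).1, hj.2⟩
      (good_comp hfc hi.2 hcl hBX ht hmin hC hj.1 hpm)
  have h1 : ∀ C ∈ F, 35 ≤ Psi B C := fun C hC => ih C (hCQ C hC) (ht.sys.fc C hC) (hbad C hC)
  have h2 := sum_sys hr ht.sub ht.sys i hBX hi.2
  have h3 : F.card * 35 ≤ ∑ C ∈ F, Psi B C := by
    rw [← smul_eq_mul]
    exact Finset.card_nsmul_le_sum F _ _ h1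
  have h4 := ht.card
  have h5 : 3 ≤ X.card := hi.2 ▸ Finset.card_le_card hBX
  have hX : B i = X := Finset.eq_of_subset_of_card_le hBX (by rw [hi.2]; omega)
  subst hX
  have h6 : F.card = 2 := by have := hi.2; omega
  obtain ⟨L, M, hLM, rfl⟩ := Finset.card_eq_two.1 h6
  have hLm : L ∈ ({L, M} : Finset (Finset V)) := by simp
  have hMm : M ∈ ({L, M} : Finset (Finset V)) := by simp
  have hodd := ht.sys.oddSys
  have hall := fun T (hT : T ⊆ ({L, M} : Finset (Finset V))) => hfc.hall ht.sub hBne hodd hT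
  have hnb : ∀ C : Finset V, nbr (gr B) (B i) {C} = nb (gr B) (B i) C := by
    intro C
    ext x
    simp [nbr, nb]
  refine ⟨L, M, hi, ht.sys.closed L hLm, ht.sys.closed M hMm, ht.sys.disj L hLm M hMm hLM,
    ht.sys.fc L hLm, ht.sys.fc M hMm, hbad L hLm, hbad M hMm, ?_, ?_, ?_, ?_⟩
  · have := ht.rest_pm hfc
    have e : ({L, M} : Finset (Finset V)).biUnion id = L ∪ M := by
      simp
    rw [e] at this
    have e2 : ((Q \ B i) \ L) \ M = (Q \ B i) \ (L ∪ M) := by
      ext x
      simp only [Finset.mem_sdiff, Finset.mem_union]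
      tauto
    rw [e2]
    exact this
  · have := hall {L} (by simp) (by simp)
    rwa [hnb, Finset.card_singleton] at this
  · have := hall {M} (by simp) (by simp)
    rwa [hnb, Finset.card_singleton] at this
  · have h7 := hall {L, M} (Finset.Subset.refl _) (by simp)
    rw [h6] at h7
    have h8 : nbr (gr B) (B i) {L, M} ⊆ B i := by
      classical
      exact Finset.filter_subset _ _
    have h9 : nbr (gr B) (B i) {L, M} = B i :=
      Finset.eq_of_subset_of_card_le h8 (by rw [hi.2]; exact h7)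
    intro x hx
    rw [← h9] at hx
    simp only [nbr, Finset.mem_filter, Finset.mem_insert, Finset.mem_singleton] at hx
    obtain ⟨hx1, C, hC, hy⟩ := hx
    rw [Finset.mem_union]
    rcases hC with rfl | rfl
    · left
      simp only [nb, Finset.mem_filter]
      exact ⟨hx1, hy⟩
    · right
      simp only [nb, Finset.mem_filter]
      exact ⟨hx1, hy⟩

end Pool.Agent.Hyp5
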