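import Pool.Agent.Hyp5.LeafCost

/-! # HYP5 CASEE: a one point leaf met by inner triples, with an empty rest -/

set_option autoImplicit false

namespace Pool.Agent.Hyp5

open Finset

variable {V : Type*} [DecidableEq V] {ι : Type*} [Fintype ι] {B : ι → Finset V}

theorem caseE_sum (P : Finset V) (f : ι → ℕ) :
    ∑ m ∈ tch B P, f m = ∑ m, if (B m ∩ P).Nonempty then f m else 0 := by
  rw [tch, Finset.sum_filter]

theorem caseB_empty {Q L M : Finset V} {i : ι} (hs : Small B) (hr : Reg B Q)
    (hb : Bad B Q) (ih : IH B Q)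
    (hall : AllSplit B Q) (h : Split B Q i L M) (hL : Leaf B Q L)
    (hk : (inn B Q L).Nonempty) (hcard : L.card = 1)
    (hR : (((Q \ B i) \ L) \ M) = ∅) : 35 ≤ Psi B Q := by
  classical
  obtain ⟨l, rfl⟩ := Finset.card_eq_one.1 hcard
  obtain ⟨j0, hj0⟩ := hk
  have hj1 : (B j0 ∩ {l}).Nonempty ∧ Inner B Q j0 := by
    simpa [inn, tch] using hj0
  obtain ⟨hn1, hn2, -, -⟩ := leaf_triple hall h hL hj1.2 hj1.1
  set N := nb (gr B) (B i) M with hN
  have hNcard : N.card = 2 := by rw [hn1]; exact hn2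
  have hNi : N ⊆ B i := by rw [hn1]; exact Finset.inter_subset_left
  have hBi : B i ⊆ Q := h.inner.1
  have hcBi : (B i).card = 3 := h.inner.2
  obtain ⟨t, ht⟩ : ∃ t, B i \ N = {t} := by
    rw [← Finset.card_eq_one, Finset.card_sdiff_of_subset hNi, hcBi, hNcard]
  have htBi : t ∈ B i := by
    have : t ∈ B i \ N := by rw [ht]; exact Finset.mem_singleton_self t
    exact (Finset.mem_sdiff.1 this).1
  have htN : t ∉ N := by
    have : t ∈ B i \ N := by rw [ht]; exact Finset.mem_singleton_self t
    exact (Finset.mem_sdiff.1 this).2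
  have hBieq : ∀ x ∈ B i, x ∈ N ∨ x = t := by
    intro x hx
    by_cases hxN : x ∈ N
    · exact Or.inl hxN
    · right
      have : x ∈ B i \ N := Finset.mem_sdiff.2 ⟨hx, hxN⟩
      rw [ht] at this
      exact Finset.mem_singleton.1 this
  obtain ⟨p, q, hpq, hNpq⟩ := Finset.card_eq_two.1 hNcard
  have hlQ : l ∈ Q ∧ l ∉ B i := by
    have := h.cL.1 (Finset.mem_singleton_self l)
    exact Finset.mem_sdiff.1 this
  have hMQ : ∀ x ∈ M, x ∈ Q ∧ x ∉ B i := fun x hx => Finset.mem_sdiff.1 (h.cM.1 hx)
  have hlM : l ∉ M := Finset.disjoint_singleton_left.1 h.dis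
  have hQ : ∀ x ∈ Q, x ∈ N ∨ x = t ∨ x = l ∨ x ∈ M := by
    intro x hx
    by_cases h1 : x ∈ B i
    · rcases hBieq x h1 with h2 | h2
      · exact Or.inl h2
      · exact Or.inr (Or.inl h2)
    · by_cases h2 : x = l
      · exact Or.inr (Or.inr (Or.inl h2))
      · by_cases h3 : x ∈ M
        · exact Or.inr (Or.inr (Or.inr h3))
        · exfalso
          have : x ∈ ((Q \ B i) \ {l}) \ M := by
            simp [hx, h1, h2, h3]
          rw [hR] at this
          simp at this
  have hNM : ∀ x ∈ N, ∃ y ∈ M, (gr B).Adj x y := by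
    intro x hx
    rw [hN, nb, Finset.mem_filter] at hx
    exact hx.2
  have htM : ∀ y ∈ M, ¬ (gr B).Adj t y := by
    intro y hy ha
    exact htN (by rw [hN, nb, Finset.mem_filter]; exact ⟨htBi, y, hy, ha⟩)
  have hlMadj : ∀ y ∈ M, ¬ (gr B).Adj l y := by
    intro y hy ha
    have := h.cL.2 l (Finset.mem_singleton_self l) y (h.cM.1 hy) ha
    rw [Finset.mem_singleton] at this
    exact hlM (this ▸ hy)
  have htl : (gr B).Adj t l := by
    have h1 := h.nLM htBi
    rcases Finset.mem_union.1 h1 with h2 | h2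
    · rw [nb, Finset.mem_filter] at h2
      obtain ⟨y, hy, ha⟩ := h2.2
      rw [Finset.mem_singleton] at hy
      exact hy ▸ ha
    · exact absurd h2 htN
  have htneM : t ∉ M := fun h1 => (hMQ t h1).2 htBi
  have hNdM : ∀ x ∈ N, x ∉ M := fun x hx h1 => (hMQ x h1).2 (hNi hx)
  have hlN : l ∉ N := fun h1 => hlQ.2 (hNi h1)
  have hlt : l ≠ t := fun h1 => hlQ.2 (h1 ▸ htBi)
  have hNQ : N ⊆ Q := hNi.trans hBi
  have hMQ' : M ⊆ Q := fun x hx => (hMQ x hx).1
  set E : Finset V := {l, t} with hE
  have hEQ : E ⊆ Q := by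
    intro x hx
    rw [hE, Finset.mem_insert, Finset.mem_singleton] at hx
    rcases hx with rfl | rfl
    · exact hlQ.1
    · exact hBi htBi
  have hEcard : E.card = 2 := Finset.card_pair hlt
  -- blocks meeting `E` do not meet `M`
  have hEM : ∀ m, (B m ∩ E).Nonempty → ¬ (B m ∩ M).Nonempty := by
    rintro m ⟨x, hx⟩ ⟨y, hy⟩
    rw [Finset.mem_inter] at hx hy
    have hxE := hx.2
    rw [hE, Finset.mem_insert, Finset.mem_singleton] at hxE
    rcases hxE with rfl | rfl
    · exact hlMadj y hy.2 ⟨fun h1 => hlM (h1 ▸ hy.2), m, hx.1, hy.1⟩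
    · exact htM y hy.2 ⟨fun h1 => htneM (h1 ▸ hy.2), m, hx.1, hy.1⟩
  -- blocks in `Q` not meeting `M` or `N` lie in `E`
  have hnotinner : ∀ m, ¬ (B m ∩ M).Nonempty → ¬ (B m ∩ N).Nonempty → ¬ Inner B Q m := by
    intro m h1 h2 h3
    have h4 : B m ⊆ E := by
      intro x hx
      rcases hQ x (h3.1 hx) with h5 | h5 | h5 | h5
      · exact absurd ⟨x, Finset.mem_inter.2 ⟨hx, h5⟩⟩ h2
      · rw [hE, h5]; simp
      · rw [hE, h5]; simp
      · exact absurd ⟨x, Finset.mem_inter.2 ⟨hx, h5⟩⟩ h1
    have h5 := Finset.card_le_card h4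
    rw [h3.2, hEcard] at h5
    omega
  have hsumE : ∑ m, (B m ∩ E).card = 10 := by
    rw [sum_inc (hr.mono hEQ), hEcard]
  have hsumN : ∑ m, (B m ∩ N).card = 10 := by
    rw [sum_inc (hr.mono hNQ), hNcard]
  -- (II)
  have hMsub : M ⊂ Q := by
    refine Finset.ssubset_iff_subset_ne.2 ⟨hMQ', ?_⟩
    intro h1
    exact hlM (h1 ▸ hlQ.1)
  have hII : 35 ≤ Psi B M := ih M hMsub h.fM h.bM
  have hPM : Psi B M = PsiQ B Q M + 4 * ∑ m ∈ tch B M, (B m ∩ N).card := by
    refine Psi_closed hMQ' ?_ ?_
    · intro x hx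
      exact Finset.mem_sdiff.2 ⟨hNQ hx, hNdM x hx⟩
    · intro m hm x hx
      rw [tch, Finset.mem_filter] at hm
      rw [Finset.mem_inter] at hx
      rcases hQ x hx.2 with h1 | h1 | h1 | h1
      · exact Finset.mem_union_right _ h1
      · exfalso
        refine hEM m ⟨x, Finset.mem_inter.2 ⟨hx.1, ?_⟩⟩ hm.2
        rw [hE, h1]; simp
      · exfalso
        refine hEM m ⟨x, Finset.mem_inter.2 ⟨hx.1, ?_⟩⟩ hm.2
        rw [hE, h1]; simp
      · exact Finset.mem_union_left _ h1
  -- (I)
  set Q1 : Finset V := insert p (insert q M) with hQ1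
  have hpN : p ∈ N := by rw [hNpq]; simp
  have hqN : q ∈ N := by rw [hNpq]; simp
  have hQ1mem : ∀ x, x ∈ Q1 ↔ x ∈ N ∨ x ∈ M := by
    intro x
    rw [hQ1, hNpq]
    simp [or_assoc]
  have hQ1Q : Q1 ⊆ Q := by
    intro x hx
    rcases (hQ1mem x).1 hx with h1 | h1
    · exact hNQ h1
    · exact hMQ' h1
  have hQ1sub : Q1 ⊂ Q := by
    refine Finset.ssubset_iff_subset_ne.2 ⟨hQ1Q, ?_⟩
    intro h1
    have : l ∈ Q1 := h1 ▸ hlQ.1
    rcases (hQ1mem l).1 this with h2 | h2
    · exact hlN h2
    · exact hlM h2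
  have hFC : FC (gr B) Q1 := by
    refine h.fM.insert_pair (hNdM p hpN) (hNdM q hqN) ⟨hpq, i, hNi hpN, hNi hqN⟩ (hNM p hpN)
      (hNM q hqN)
  have hBad : Bad B Q1 := by
    intro j hj hpm
    refine hb j ⟨hj.1.trans hQ1Q, hj.2⟩ ?_
    have h1 : PM (gr B) ((Q1 \ B j) ∪ {t, l}) := by
      refine hpm.union (PM.pair htl) ?_
      rw [Finset.disjoint_left]
      intro x hx hx2
      rw [Finset.mem_insert, Finset.mem_singleton] at hx2
      have hx3 := (hQ1mem x).1 (Finset.mem_sdiff.1 hx).1
      rcases hx2 with rfl | rfl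
      · rcases hx3 with h2 | h2
        · exact htN h2
        · exact htneM h2
      · rcases hx3 with h2 | h2
        · exact hlN h2
        · exact hlM h2
    have h2 : Q \ B j = (Q1 \ B j) ∪ {t, l} := by
      ext x
      simp only [Finset.mem_sdiff, Finset.mem_union, Finset.mem_insert, Finset.mem_singleton]
      constructor
      · rintro ⟨h3, h4⟩
        rcases hQ x h3 with h5 | h5 | h5 | h5
        · exact Or.inl ⟨(hQ1mem x).2 (Or.inl h5), h4⟩
        · exact Or.inr (Or.inl h5)
        · exact Or.inr (Or.inr h5)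
        · exact Or.inl ⟨(hQ1mem x).2 (Or.inr h5), h4⟩
      · have hjn : ∀ x, x ∈ B j → x ∈ N ∨ x ∈ M := fun x hx => (hQ1mem x).1 (hj.1 hx)
        rintro (⟨h3, h4⟩ | rfl | rfl)
        · exact ⟨hQ1Q h3, h4⟩
        · refine ⟨hBi htBi, fun h3 => ?_⟩
          rcases hjn _ h3 with h4 | h4
          · exact htN h4
          · exact htneM h4
        · refine ⟨hlQ.1, fun h3 => ?_⟩
          rcases hjn _ h3 with h4 | h4
          · exact hlN h4
          · exact hlM h4
    rw [h2]
    exact h1
  have hI : 35 ≤ Psi B Q1 := ih Q1 hQ1sub hFC hBad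
  have hPQ1 : Psi B Q1 = PsiQ B Q Q1 + 4 * ∑ m ∈ tch B Q1, (B m ∩ E).card := by
    refine Psi_closed hQ1Q ?_ ?_
    · intro x hx
      rw [Finset.mem_sdiff]
      refine ⟨hEQ hx, fun h1 => ?_⟩
      rw [hE, Finset.mem_insert, Finset.mem_singleton] at hx
      rcases hx with rfl | rfl
      · rcases (hQ1mem _).1 h1 with h2 | h2
        · exact hlN h2
        · exact hlM h2
      · rcases (hQ1mem _).1 h1 with h2 | h2
        · exact htN h2
        · exact htneM h2
    · intro m _ x hx
      rw [Finset.mem_inter] at hx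
      rw [Finset.mem_union, hQ1mem, hE, Finset.mem_insert, Finset.mem_singleton]
      rcases hQ x hx.2 with h1 | h1 | h1 | h1
      · exact Or.inl (Or.inl h1)
      · exact Or.inr (Or.inr h1)
      · exact Or.inr (Or.inl h1)
      · exact Or.inl (Or.inr h1)
  -- relations between touching conditions
  have hmono : ∀ {P P' : Finset V} (m : ι), P ⊆ P' → (B m ∩ P).Nonempty → (B m ∩ P').Nonempty :=
    fun m hPP h1 => h1.mono (Finset.inter_subset_inter_left hPP)
  have hQ1touch : ∀ m, (B m ∩ Q1).Nonempty → (B m ∩ N).Nonempty ∨ (B m ∩ M).Nonempty := by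
    rintro m ⟨x, hx⟩
    rw [Finset.mem_inter] at hx
    rcases (hQ1mem x).1 hx.2 with h1 | h1
    · exact Or.inl ⟨x, Finset.mem_inter.2 ⟨hx.1, h1⟩⟩
    · exact Or.inr ⟨x, Finset.mem_inter.2 ⟨hx.1, h1⟩⟩
  have hNQ1 : N ⊆ Q1 := fun x hx => (hQ1mem x).2 (Or.inl hx)
  have hpsiE : ∀ m, (B m ∩ E).Nonempty → ¬ (B m ∩ N).Nonempty →
      2 * (B m ∩ E).card ≤ psi B Q m := by
    intro m h1 h2
    have h3 := (psi_noninner (Q := Q) (hs m) (hmono m hEQ h1) (hnotinner m (hEM m h1) h2)).2
    have h4 : (B m ∩ E).card ≤ (B m ∩ Q).card :=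
      Finset.card_le_card (Finset.inter_subset_inter_left hEQ)
    omega
  have hpsiEN : ∀ m, (B m ∩ E).Nonempty → (B m ∩ N).Nonempty →
      8 * (B m ∩ E).card ≤ psi B Q m + 4 * (B m ∩ N).card := by
    intro m h1 h2
    have hdis : Disjoint (B m ∩ E) (B m ∩ N) := by
      rw [Finset.disjoint_left]
      intro x hx hx2
      rw [Finset.mem_inter] at hx hx2
      have hxE := hx.2
      rw [hE, Finset.mem_insert, Finset.mem_singleton] at hxE
      rcases hxE with rfl | rfl
      · exact hlN hx2.2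
      · exact htN hx2.2
    have hle : (B m ∩ E).card + (B m ∩ N).card ≤ (B m).card := by
      rw [← Finset.card_union_of_disjoint hdis]
      exact Finset.card_le_card (Finset.union_subset Finset.inter_subset_left
        Finset.inter_subset_left)
    have h3 := hs m
    have hc1 := h1.card_pos
    have hc2 := h2.card_pos
    have hcE : (B m ∩ E).card = 1 := by
      by_contra hne
      have hE2 : (B m ∩ E).card = 2 := by omega
      have hN1 : (B m ∩ N).card = 1 := by omega
      have hBm3 : (B m).card = 3 := by omega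
      have hEsub : E ⊆ B m := by
        have : B m ∩ E = E := Finset.eq_of_subset_of_card_le Finset.inter_subset_right
          (by rw [hE2, hEcard])
        rw [← this]
        exact Finset.inter_subset_left
      have hBm : B m = (B m ∩ E) ∪ (B m ∩ N) := by
        symm
        refine Finset.eq_of_subset_of_card_le (Finset.union_subset Finset.inter_subset_left
          Finset.inter_subset_left) ?_
        rw [Finset.card_union_of_disjoint hdis]
        omega
      have hinner : Inner B Q m := by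
        refine ⟨?_, hBm3⟩
        rw [hBm]
        exact Finset.union_subset (Finset.inter_subset_right.trans hEQ)
          (Finset.inter_subset_right.trans hNQ)
      have hlm : (B m ∩ {l}).Nonempty :=
        ⟨l, Finset.mem_inter.2 ⟨hEsub (by rw [hE]; simp), Finset.mem_singleton_self l⟩⟩
      obtain ⟨h5, h6, -, -⟩ := leaf_triple hall h hL hinner hlm
      have h7 : N ⊆ B m := by
        rw [hN, h5]
        exact Finset.inter_subset_right
      have h8 : B m ∩ N = N := Finset.inter_eq_right.2 h7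
      rw [h8, hNcard] at hN1
      omega
    rw [hcE]
    by_cases hN2 : (B m ∩ N).card = 2
    · omega
    · have hN1 : (B m ∩ N).card = 1 := by omega
      by_cases hBm3 : (B m).card = 3
      · -- the third point is outside `Q`
        have h4 : 4 ≤ psi B Q m := by
          refine (psi_noninner (Q := Q) (hs m) (hmono m hEQ h1) ?_).1
          intro hin
          have h5 : B m ⊆ (B m ∩ E) ∪ (B m ∩ N) := by
            intro x hx
            rcases hQ x (hin.1 hx) with h6 | h6 | h6 | h6
            · exact Finset.mem_union_right _ (Finset.mem_inter.2 ⟨hx, h6⟩)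
            · refine Finset.mem_union_left _ (Finset.mem_inter.2 ⟨hx, ?_⟩)
              rw [hE, h6]; simp
            · refine Finset.mem_union_left _ (Finset.mem_inter.2 ⟨hx, ?_⟩)
              rw [hE, h6]; simp
            · exact absurd ⟨x, Finset.mem_inter.2 ⟨hx, h6⟩⟩ (hEM m h1)
          have h6 := Finset.card_le_card h5
          rw [Finset.card_union_of_disjoint hdis] at h6
          omega
        omega
      · have hBm2 : (B m).card = 2 := by omega
        have h4 : 4 ≤ psi B Q m := by
          rw [psi, hBm2, om]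
          norm_num
        omega
  set a : ℕ := ∑ m ∈ tch B N, (B m ∩ E).card with ha
  have ineq1 : ∑ m ∈ tch B Q1, (B m ∩ E).card ≤ a := by
    rw [ha, caseE_sum, caseE_sum]
    refine Finset.sum_le_sum fun m _ => ?_
    by_cases h1 : (B m ∩ E).Nonempty
    · have h2 := hEM m h1
      by_cases h3 : (B m ∩ N).Nonempty
      · rw [if_pos h3, if_pos (hmono m hNQ1 h3)]
      · rw [if_neg h3, if_neg]
        intro h4
        rcases hQ1touch m h4 with h5 | h5
        · exact h3 h5
        · exact h2 h5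
    · rw [Finset.not_nonempty_iff_eq_empty] at h1
      simp [h1]
  have ineq2 : PsiQ B Q Q1 + 2 * 10 ≤ Psi B Q + 2 * a := by
    rw [← hsumE, ha, Psi, PsiQ, PsiQ, caseE_sum, caseE_sum, caseE_sum, Finset.mul_sum,
      Finset.mul_sum, ← Finset.sum_add_distrib, ← Finset.sum_add_distrib]
    refine Finset.sum_le_sum fun m _ => ?_
    by_cases h1 : (B m ∩ E).Nonempty
    · by_cases h3 : (B m ∩ N).Nonempty
      · rw [if_pos h3, if_pos (hmono m hNQ1 h3), if_pos (hmono m hNQ h3)]
      · rw [if_neg h3, if_neg, if_pos (hmono m hEQ h1)]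
        · have := hpsiE m h1 h3
          omega
        · intro h4
          rcases hQ1touch m h4 with h5 | h5
          · exact h3 h5
          · exact hEM m h1 h5
    · have h0 : (B m ∩ E).card = 0 := by
        rw [Finset.not_nonempty_iff_eq_empty] at h1
        rw [h1, Finset.card_empty]
      rw [h0]
      by_cases h3 : (B m ∩ Q1).Nonempty
      · rw [if_pos h3, if_pos (hmono m hQ1Q h3)]
        omega
      · rw [if_neg h3]
        omega
  have ineq3 : PsiQ B Q M + 6 * a + 2 * 10 + 4 * ∑ m ∈ tch B M, (B m ∩ N).card ≤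
      Psi B Q + 4 * 10 := by
    nth_rewrite 1 [← hsumE]
    nth_rewrite 1 [← hsumN]
    rw [ha, Psi, PsiQ, PsiQ, caseE_sum, caseE_sum, caseE_sum, caseE_sum, Finset.mul_sum,
      Finset.mul_sum, Finset.mul_sum, Finset.mul_sum, ← Finset.sum_add_distrib,
      ← Finset.sum_add_distrib, ← Finset.sum_add_distrib, ← Finset.sum_add_distrib]
    refine Finset.sum_le_sum fun m _ => ?_
    by_cases h1 : (B m ∩ M).Nonempty
    · have h0 : (B m ∩ E).card = 0 := by
        rw [Finset.card_eq_zero, ← Finset.not_nonempty_iff_eq_empty]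
        intro h2
        exact hEM m h2 h1
      rw [h0, if_pos h1, if_pos h1, if_pos (hmono m hMQ' h1)]
      split_ifs <;> omega
    · rw [if_neg h1, if_neg h1]
      by_cases h2 : (B m ∩ E).Nonempty
      · by_cases h3 : (B m ∩ N).Nonempty
        · rw [if_pos h3, if_pos (hmono m hNQ h3)]
          have := hpsiEN m h2 h3
          omega
        · rw [if_neg h3, if_pos (hmono m hEQ h2)]
          have := hpsiE m h2 h3
          omega
      · have h0 : (B m ∩ E).card = 0 := by
          rw [Finset.not_nonempty_iff_eq_empty] at h2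
          rw [h2, Finset.card_empty]
        rw [h0]
        split_ifs <;> omega
  omega

end Pool.Agent.Hyp5
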