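import Pool.Agent.Hyp5.LeafCost

/-! # HYP5 CASER: a leaf met by inner triples, which is not a single point or with a nonempty rest -/

set_option autoImplicit false

namespace Pool.Agent.Hyp5

open Finset

variable {V : Type*} [DecidableEq V] {ι : Type*} [Fintype ι] {B : ι → Finset V}

theorem caseR_tch {W P P' : Finset V} (hP : Closed (gr B) W P) (hP' : P' ⊆ W)
    (hd : Disjoint P P') : Disjoint (tch B P) (tch B P') := by
  refine tch_disj hd fun x hx y hy hxy => ?_
  exact disjoint_left.1 hd (hP.2 x hx y (hP' hy) hxy) hy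

theorem caseR_mem {Q P : Finset V} {j : ι} (hj : j ∈ inn B Q P) :
    Inner B Q j ∧ (B j ∩ P).Nonempty := by
  unfold inn at hj
  rw [mem_filter] at hj
  refine ⟨hj.2, ?_⟩
  have h := hj.1
  unfold tch at h
  rw [mem_filter] at h
  exact h.2

omit [DecidableEq V] in
theorem caseR_nb {G : SimpleGraph V} {X C : Finset V} {x : V} :
    x ∈ nb G X C ↔ x ∈ X ∧ ∃ y ∈ C, G.Adj x y := by
  classical
  unfold nb
  rw [mem_filter]

theorem caseB_big {Q L M : Finset V} {i : ι} (hs : Small B) (hr : Reg B Q) (ih : IH B Q)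
    (hall : AllSplit B Q) (h : Split B Q i L M) (hL : Leaf B Q L)
    (hk : (inn B Q L).Nonempty) (hcard : 3 ≤ L.card) : 35 ≤ Psi B Q := by
  have hLW := h.cL.1
  have hMW := h.cM.1
  have hLQ : L ⊆ Q := hLW.trans sdiff_subset
  have hMQ : M ⊆ Q := hMW.trans sdiff_subset
  have h1 := cost_ge hs (hr.mono hLQ) hLQ (fun j hj => by
    obtain ⟨hj1, hj2⟩ := caseR_mem hj
    exact (leaf_triple hall h hL hj1 hj2).2.2.1)
  have h2 := other_ge hr ih hall h hL hk
  have h3 := PsiQ_add hLQ hMQ (caseR_tch h.cL hMW h.dis)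
  have h4 : 0 < (inn B Q L).card := card_pos.2 hk
  omega

theorem caseB_rest {Q L M : Finset V} {i : ι} (hs : Small B) (hr : Reg B Q) (ih : IH B Q)
    (hall : AllSplit B Q) (h : Split B Q i L M) (hL : Leaf B Q L)
    (hk : (inn B Q L).Nonempty) (hcard : L.card = 1)
    (hR : (((Q \ B i) \ L) \ M).Nonempty) : 35 ≤ Psi B Q := by
  have hLW := h.cL.1
  have hMW := h.cM.1
  have hLQ : L ⊆ Q := hLW.trans sdiff_subset
  have hMQ : M ⊆ Q := hMW.trans sdiff_subset
  obtain ⟨R, hRdef⟩ : ∃ R, R = (((Q \ B i) \ L) \ M) := ⟨_, rfl⟩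
  have hRc : Closed (gr B) (Q \ B i) R := by
    rw [hRdef]
    exact h.closed_rest
  have hRpm : PM (gr B) R := by
    rw [hRdef]
    exact h.rest
  have hparts : ∀ {j : ι}, Inner B Q j → B j ⊆ B i ∪ L ∨ B j ⊆ B i ∪ M ∨ B j ⊆ B i ∪ R := by
    intro j hj
    rw [hRdef]
    exact h.triple_part hj
  rw [← hRdef] at hR
  have hRW := hRc.1
  have hRQ : R ⊆ Q := hRW.trans sdiff_subset
  have hLR : Disjoint L R := by
    rw [hRdef, disjoint_left]
    intro x hx hx2
    simp only [mem_sdiff] at hx2
    exact hx2.1.2 hx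
  have hMR : Disjoint M R := by
    rw [hRdef, disjoint_left]
    intro x hx hx2
    simp only [mem_sdiff] at hx2
    exact hx2.2 hx
  have hiL : Disjoint (B i) L := by
    rw [disjoint_left]
    intro x hx hx2
    exact (mem_sdiff.1 (hLW hx2)).2 hx
  have hiM : Disjoint (B i) M := by
    rw [disjoint_left]
    intro x hx hx2
    exact (mem_sdiff.1 (hMW hx2)).2 hx
  have hiR : Disjoint (B i) R := by
    rw [disjoint_left]
    intro x hx hx2
    exact (mem_sdiff.1 (hRW hx2)).2 hx
  obtain ⟨l, hl⟩ := card_eq_one.1 hcard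
  subst hl
  have hlQ : l ∈ Q := hLQ (mem_singleton_self l)
  have h1 := cost_single (Q := Q) hs (hr.mono hLQ) hlQ
  have h2 := other_ge hr ih hall h hL hk
  have h3 := PsiQ_add3 hLQ hMQ hRQ (caseR_tch h.cL hMW h.dis) (caseR_tch h.cL hRW hLR)
    (caseR_tch h.cM hRW hMR)
  have h4 : 0 < (inn B Q {l}).card := card_pos.2 hk
  suffices h5 : 8 ≤ PsiQ B Q R by omega
  obtain ⟨j0, hj0⟩ := hk
  obtain ⟨hj01, hj02⟩ := caseR_mem hj0
  obtain ⟨hj03, hj04, _, hj05⟩ := leaf_triple hall h hL hj01 hj02
  have hlj0 : l ∈ B j0 := by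
    obtain ⟨x, hx⟩ := hj02
    rw [mem_inter, mem_singleton] at hx
    exact hx.2 ▸ hx.1
  have hli : l ∉ B i := fun hx => disjoint_left.1 hiL hx (mem_singleton_self l)
  have hnbL : nb (gr B) (B i) {l} = B i := by
    apply Subset.antisymm
    · intro x hx
      exact (caseR_nb.1 hx).1
    · intro x hx
      rcases mem_union.1 (h.nLM hx) with h6 | h6
      · exact h6
      · rw [hj03, mem_inter] at h6
        rw [caseR_nb]
        refine ⟨hx, l, mem_singleton_self l, ?_, j0, h6.2, hlj0⟩
        rintro rfl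
        exact hli hx
  -- an inner triple meeting `R` lies in `B i ∪ R`
  have hsubR : ∀ j, Inner B Q j → (B j ∩ R).Nonempty → B j ⊆ B i ∪ R := by
    intro j hj hne
    obtain ⟨y, hy⟩ := hne
    rw [mem_inter] at hy
    rcases hparts hj with h6 | h6 | h6
    · exfalso
      rcases mem_union.1 (h6 hy.1) with h7 | h7
      · exact disjoint_left.1 hiR h7 hy.2
      · exact disjoint_left.1 hLR h7 hy.2
    · exfalso
      rcases mem_union.1 (h6 hy.1) with h7 | h7
      · exact disjoint_left.1 hiR h7 hy.2
      · exact disjoint_left.1 hMR h7 hy.2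
    · exact h6
  by_cases hcase : ∃ j, Inner B Q j ∧ (B j ∩ R).Nonempty ∧ ¬ nb (gr B) (B i) M ⊆ B j
  · obtain ⟨j, hj, hjR, hjn⟩ := hcase
    have hne : B j ≠ B i := by
      intro heq
      obtain ⟨y, hy⟩ := hjR
      rw [mem_inter, heq] at hy
      exact disjoint_left.1 hiR hy.1 hy.2
    have hsub := hsubR j hj hjR
    obtain ⟨Z, Z', hZ, _, hZp⟩ := claim1 h (hall j hj) hne
    rw [← hRdef] at hZp
    rcases hZp with hZL | hZM | hZR
    · have hZeq : Z = {l} := hL.2 j Z Z' hZ hZL
      have hdl : Disjoint (B j) {l} := by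
        rw [disjoint_left]
        intro x hx hx2
        rw [← hZeq] at hx2
        exact (mem_sdiff.1 (hZ.cL.1 hx2)).2 hx
      obtain ⟨_, h7, h8⟩ := claim2 h.symm hZ hne hZL hdl
      rw [hnbL] at h7
      rw [← h7, h.inner.2] at h8
      omega
    · have hdM : Disjoint (B j) M := by
        rw [disjoint_left]
        intro x hx hx2
        rcases mem_union.1 (hsub hx) with h7 | h7
        · exact disjoint_left.1 hiM h7 hx2
        · exact disjoint_left.1 hMR hx2 h7
      obtain ⟨_, h7, _⟩ := claim2 h hZ hne hZM hdM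
      exact absurd (h7 ▸ inter_subset_right) hjn
    · obtain ⟨L', hL'Z, hL'⟩ := exists_leaf hZ
      exact (leaf_ge8 hs hr hall hL').trans (PsiQ_mono (hL'Z.trans hZR))
  · push Not at hcase
    have hnbi : nb (gr B) (B i) M ⊆ B i := fun x hx => (caseR_nb.1 hx).1
    have hone : ∀ j ∈ inn B Q R, (B j ∩ R).card = 1 := by
      intro j hj
      obtain ⟨hj1, hj2⟩ := caseR_mem hj
      have h6 := hcase j hj1 hj2
      have h7 := hsubR j hj1 hj2
      have h8 : B j = (B j ∩ B i) ∪ (B j ∩ R) := by
        rw [← inter_union_distrib_left]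
        exact (inter_eq_left.2 h7).symm
      have h9 : Disjoint (B j ∩ B i) (B j ∩ R) :=
        hiR.mono inter_subset_right inter_subset_right
      have h10 := congrArg card h8
      rw [card_union_of_disjoint h9, hj1.2] at h10
      have h11 : 2 ≤ (B j ∩ B i).card :=
        h.nM.trans (card_le_card (subset_inter h6 hnbi))
      have h12 : 0 < (B j ∩ R).card := card_pos.2 hj2
      omega
    obtain ⟨x, hx⟩ : (nb (gr B) (B i) M).Nonempty := by
      rw [← card_pos]
      have := h.nM
      omega
    have hxi : x ∈ B i := hnbi hx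
    have hxj0 : x ∈ B j0 := by
      rw [hj03, mem_inter] at hx
      exact hx.2
    obtain ⟨_, y, hyM, _, i', hxi', hyi'⟩ := caseR_nb.1 hx
    have hcount : (inn B Q R).card ≤ 2 := by
      have h6 := hr x (h.inner.1 hxi)
      classical
      have h7 : insert j0 (insert i (insert i' (inn B Q R))) ⊆
          univ.filter (fun j => x ∈ B j) := by
        intro j hj
        rw [mem_filter]
        refine ⟨mem_univ _, ?_⟩
        simp only [mem_insert] at hj
        rcases hj with rfl | rfl | rfl | hj
        · exact hxj0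
        · exact hxi
        · exact hxi'
        · obtain ⟨hj1, hj2⟩ := caseR_mem hj
          exact hcase j hj1 hj2 hx
      have hi' : i' ∉ inn B Q R := by
        intro hj
        obtain ⟨hj1, hj2⟩ := caseR_mem hj
        rcases mem_union.1 (hsubR i' hj1 hj2 hyi') with h8 | h8
        · exact disjoint_left.1 hiM h8 hyM
        · exact disjoint_left.1 hMR hyM h8
      have hi : i ∉ insert i' (inn B Q R) := by
        intro hj
        rcases mem_insert.1 hj with hj | hj
        · rw [← hj] at hyi'
          exact disjoint_left.1 hiM hyi' hyM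
        · obtain ⟨_, z, hz⟩ := caseR_mem hj
          rw [mem_inter] at hz
          exact disjoint_left.1 hiR hz.1 hz.2
      have hj0' : j0 ∉ insert i (insert i' (inn B Q R)) := by
        intro hj
        simp only [mem_insert] at hj
        rcases hj with hj | hj | hj
        · rw [hj] at hlj0
          exact hli hlj0
        · rw [← hj] at hyi'
          rcases mem_union.1 (hj05 hyi') with h8 | h8
          · exact disjoint_left.1 hiM h8 hyM
          · exact disjoint_left.1 h.dis h8 hyM
        · obtain ⟨hj1, hj2⟩ := caseR_mem hj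
          rcases mem_union.1 (hsubR j0 hj1 hj2 hlj0) with h8 | h8
          · exact hli h8
          · exact disjoint_left.1 hLR (mem_singleton_self l) h8
      have h9 := card_le_card h7
      rw [card_insert_of_notMem hj0', card_insert_of_notMem hi, card_insert_of_notMem hi',
        h6] at h9
      omega
    have h10 := cost_ge hs (hr.mono hRQ) hRQ hone
    obtain ⟨m, hm⟩ := hRpm.even
    have h11 : 0 < R.card := card_pos.2 hR
    omega

end Pool.Agent.Hyp5
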