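import Mathlib

/-!
# HYP5: definitions

Dual form of transversals of 5-uniform hypergraphs. Points are the hyperedges, blocks `B i` are the
vertices of the hypergraph (`B i` is the set of hyperedges containing the vertex `i`); every point lies
in exactly five blocks. A transversal is a set of blocks covering all points.
-/

set_option autoImplicit false

namespace Pool.Agent.Hyp5

open Finset

section Graph

variable {V : Type*} [DecidableEq V]

/-- `Q` has a perfect matching in `G`. -/
def PM (G : SimpleGraph V) (Q : Finset V) : Prop :=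
  ∃ f : V → V, ∀ v ∈ Q, f v ∈ Q ∧ f (f v) = v ∧ G.Adj v (f v)

/-- `Q` is factor-critical in `G`. -/
def FC (G : SimpleGraph V) (Q : Finset V) : Prop :=
  Q.Nonempty ∧ ∀ v ∈ Q, PM G (Q.erase v)

/-- `C ⊆ W` has no edge of `G` to the rest of `W`. -/
def Closed (G : SimpleGraph V) (W C : Finset V) : Prop :=
  C ⊆ W ∧ ∀ x ∈ C, ∀ y ∈ W, G.Adj x y → y ∈ C

/-- a family of pairwise disjoint sets of odd size, closed in `W`. -/
structure OddSys (G : SimpleGraph V) (W : Finset V) (F : Finset (Finset V)) : Prop where
  closed : ∀ C ∈ F, Closed G W C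
  odd : ∀ C ∈ F, Odd C.card
  disj : ∀ C ∈ F, ∀ D ∈ F, C ≠ D → Disjoint C D

/-- a family of pairwise disjoint factor-critical sets, closed in `W`. -/
structure FCSys (G : SimpleGraph V) (W : Finset V) (F : Finset (Finset V)) : Prop where
  closed : ∀ C ∈ F, Closed G W C
  fc : ∀ C ∈ F, FC G C
  disj : ∀ C ∈ F, ∀ D ∈ F, C ≠ D → Disjoint C D

open Classical in
/-- the points of `X` with a neighbour in `C`. -/
noncomputable def nb (G : SimpleGraph V) (X C : Finset V) : Finset V :=
  X.filter (fun x => ∃ y ∈ C, G.Adj x y)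

open Classical in
/-- the points of `X` with a neighbour in some member of the family `T`. -/
noncomputable def nbr (G : SimpleGraph V) (X : Finset V) (T : Finset (Finset V)) : Finset V :=
  X.filter (fun x => ∃ C ∈ T, ∃ y ∈ C, G.Adj x y)

/-- `(X, F)` is a tight system of the set `Q`. -/
structure Tight (G : SimpleGraph V) (Q X : Finset V) (F : Finset (Finset V)) : Prop where
  sub : X ⊆ Q
  sys : FCSys G (Q \ X) F
  card : F.card + 1 = X.card

end Graph

section Blocks

variable {V : Type*} [DecidableEq V] {ι : Type*} [Fintype ι]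

/-- the graph of pairs of points contained in a common block. -/
def gr (B : ι → Finset V) : SimpleGraph V where
  Adj x y := x ≠ y ∧ ∃ i, x ∈ B i ∧ y ∈ B i
  symm := ⟨fun _ _ h => ⟨h.1.symm, h.2.imp fun _ hi => ⟨hi.2, hi.1⟩⟩⟩
  loopless := ⟨fun _ h => h.1 rfl⟩

/-- every point of `Q` lies in exactly five blocks. -/
def Reg (B : ι → Finset V) (Q : Finset V) : Prop :=
  ∀ v ∈ Q, (univ.filter (fun i => v ∈ B i)).card = 5

/-- all blocks have at most three points. -/
def Small (B : ι → Finset V) : Prop := ∀ i, (B i).card ≤ 3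

/-- the weight of a block with `k` points: `4` for `k = 2`, `7` for `k = 1`, and `0` otherwise. -/
def om (k : ℕ) : ℕ := if k = 1 then 7 else if k = 2 then 4 else 0

/-- the cost of the block `i` with respect to `Q`. -/
def psi (B : ι → Finset V) (Q : Finset V) (i : ι) : ℕ :=
  4 * (B i \ Q).card + om (B i).card

/-- the blocks meeting `P`. -/
def tch (B : ι → Finset V) (P : Finset V) : Finset ι :=
  univ.filter (fun i => (B i ∩ P).Nonempty)

/-- the cost (with respect to `Q`) of all the blocks meeting `P`. -/
def PsiQ (B : ι → Finset V) (Q P : Finset V) : ℕ := ∑ i ∈ tch B P, psi B Q i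

/-- the cost of `Q`. -/
def Psi (B : ι → Finset V) (Q : Finset V) : ℕ := PsiQ B Q Q

/-- the block `i` is a triple inside `Q`. -/
def Inner (B : ι → Finset V) (Q : Finset V) (i : ι) : Prop := B i ⊆ Q ∧ (B i).card = 3

instance (B : ι → Finset V) (Q : Finset V) : DecidablePred (Inner B Q) := fun i =>
  inferInstanceAs (Decidable (B i ⊆ Q ∧ (B i).card = 3))

/-- the inner triples of `Q` meeting `P`. -/
def inn (B : ι → Finset V) (Q P : Finset V) : Finset ι := (tch B P).filter (fun i => Inner B Q i)

/-- the number of blocks with `k` points. -/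
def num (B : ι → Finset V) (k : ℕ) : ℕ := (univ.filter (fun i => (B i).card = k)).card

/-- no inner triple of `Q` has a complement in `Q` with a perfect matching. -/
def Bad (B : ι → Finset V) (Q : Finset V) : Prop := ∀ i, Inner B Q i → ¬ PM (gr B) (Q \ B i)

/-- the inner triple `i` of `Q` splits `Q` into the odd parts `L`, `M` and a rest with a perfect
matching. -/
structure Split (B : ι → Finset V) (Q : Finset V) (i : ι) (L M : Finset V) : Prop where
  inner : Inner B Q i
  cL : Closed (gr B) (Q \ B i) L
  cM : Closed (gr B) (Q \ B i) M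
  dis : Disjoint L M
  fL : FC (gr B) L
  fM : FC (gr B) M
  bL : Bad B L
  bM : Bad B M
  rest : PM (gr B) (((Q \ B i) \ L) \ M)
  nL : 2 ≤ (nb (gr B) (B i) L).card
  nM : 2 ≤ (nb (gr B) (B i) M).card
  nLM : B i ⊆ nb (gr B) (B i) L ∪ nb (gr B) (B i) M

/-- every inner triple of `Q` has a split. -/
def AllSplit (B : ι → Finset V) (Q : Finset V) : Prop :=
  ∀ i, Inner B Q i → ∃ L M, Split B Q i L M

/-- `L` is a minimal odd part. -/
def Leaf (B : ι → Finset V) (Q L : Finset V) : Prop :=
  (∃ i M, Split B Q i L M) ∧ ∀ j Z Z', Split B Q j Z Z' → Z ⊆ L → Z = L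

/-- the induction hypothesis of the key lemma. -/
def IH (B : ι → Finset V) (Q : Finset V) : Prop :=
  ∀ P : Finset V, P ⊂ Q → FC (gr B) P → Bad B P → 35 ≤ Psi B P

end Blocks

end Pool.Agent.Hyp5
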