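import Pool.Agent.Hyp5.Greedy

/-! # HYP5 FINAL: the theorems for hypergraphs and graphs -/

set_option autoImplicit false

namespace Pool.Agent.Hyp5

open Finset

/-- the degree of a vertex in a family of edges. -/
def deg {V κ : Type*} [DecidableEq V] [Fintype κ] (e : κ → Finset V) (v : V) : ℕ :=
  (univ.filter (fun k => v ∈ e k)).card

/-- the blocks of a hypergraph: the edges containing a vertex. -/
private def finB {V κ : Type*} [DecidableEq V] [Fintype κ] (e : κ → Finset V) (v : V) :
    Finset κ := univ.filter (fun k => v ∈ e k)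

private theorem finB_reg {V κ : Type*} [Fintype V] [DecidableEq V] [Fintype κ] [DecidableEq κ]
    (e : κ → Finset V) (h5 : ∀ k, (e k).card = 5) : Reg (finB e) univ := by
  intro k _
  rw [← h5 k]
  congr 1
  ext v
  simp [finB]

private theorem finB_cover {V κ : Type*} [DecidableEq V] [Fintype κ] [DecidableEq κ]
    (e : κ → Finset V) {T : Finset V} (hT : (univ : Finset κ) ⊆ T.biUnion (finB e)) (k : κ) :
    (e k ∩ T).Nonempty := by
  obtain ⟨v, hv, hk⟩ := Finset.mem_biUnion.mp (hT (Finset.mem_univ k))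
  rw [finB, Finset.mem_filter] at hk
  exact ⟨v, Finset.mem_inter.mpr ⟨hk.2, hv⟩⟩

theorem transversal3 {V κ : Type*} [Fintype V] [DecidableEq V] [Fintype κ]
    (e : κ → Finset V) (h5 : ∀ k, (e k).card = 5) (h3 : ∀ v, deg e v ≤ 3) :
    ∃ T : Finset V, (∀ k, (e k ∩ T).Nonempty) ∧
      70 * T.card ≤ 21 * (univ.filter (fun v => deg e v = 3)).card +
        18 * (univ.filter (fun v => deg e v = 2)).card +
        14 * (univ.filter (fun v => deg e v = 1)).card := by
  classical
  obtain ⟨T, hT, hc⟩ := thmA (B := finB e) (fun v => h3 v) univ (finB_reg e h5)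
    (fun i => Finset.subset_univ _)
  exact ⟨T, finB_cover e hT, hc⟩

theorem transversal5 {V κ : Type*} [Fintype V] [DecidableEq V] [Fintype κ]
    (e : κ → Finset V) (h5 : ∀ k, (e k).card = 5) :
    ∃ T : Finset V, (∀ k, (e k ∩ T).Nonempty) ∧
      51 * T.card ≤ 11 * Fintype.card V + 8 * Fintype.card κ := by
  classical
  obtain ⟨T, hT, hc⟩ := thmC (B := finB e) univ (finB_reg e h5) (fun i => Finset.subset_univ _)
  refine ⟨T, finB_cover e hT, hc.trans ?_⟩
  have h1 : (univ.filter (fun v => (finB e v).Nonempty)).card ≤ Fintype.card V :=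
    Finset.card_le_univ _
  rw [Finset.card_univ]
  omega

theorem total_domination {V : Type*} [Fintype V] (G : SimpleGraph V) [DecidableRel G.Adj]
    (h : 5 ≤ G.minDegree) :
    ∃ S : Finset V, (∀ v : V, ∃ u ∈ S, G.Adj v u) ∧ 51 * S.card ≤ 19 * Fintype.card V := by
  classical
  have h1 : ∀ v : V, ∃ t ⊆ G.neighborFinset v, t.card = 5 := by
    intro v
    refine Finset.exists_subset_card_eq ?_
    rw [SimpleGraph.card_neighborFinset_eq_degree]
    exact h.trans (G.minDegree_le_degree v)
  choose e he h5 using h1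
  obtain ⟨T, hT, hc⟩ := transversal5 e h5
  refine ⟨T, fun v => ?_, by omega⟩
  obtain ⟨u, hu⟩ := hT v
  rw [Finset.mem_inter] at hu
  exact ⟨u, hu.2, (G.mem_neighborFinset v u).mp (he v hu.1)⟩

end Pool.Agent.Hyp5
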