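import Pool.Agent.Hyp5.Cost

/-! # HYP5 GLOBALCOUNT: counting in a family of components of large cost -/

set_option autoImplicit false

namespace Pool.Agent.Hyp5

open Finset

variable {V : Type*} [DecidableEq V] {ι : Type*} [Fintype ι] {B : ι → Finset V}

omit [DecidableEq V] in
private theorem gc_om : ∑ i, om (B i).card = 4 * num B 2 + 7 * num B 1 := by
  have h : ∀ k, om k = 4 * (if k = 2 then 1 else 0) + 7 * (if k = 1 then 1 else 0) := by
    intro k
    unfold om
    split_ifs <;> omega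
  unfold num
  rw [Finset.card_filter, Finset.card_filter, Finset.mul_sum, Finset.mul_sum,
    ← Finset.sum_add_distrib]
  exact Finset.sum_congr rfl fun i _ => h _

theorem count_family {U A : Finset V} {F T : Finset (Finset V)} (hr : Reg B U)
    (hU : ∀ i, B i ⊆ U) (hA : A ⊆ U) (hF : FCSys (gr B) (U \ A) F) (hT : T ⊆ F)
    (hkey : ∀ C ∈ T, 35 ≤ Psi B C) :
    35 * T.card ≤ 20 * (nbr (gr B) A T).card + 4 * num B 2 + 7 * num B 1 := by
  classical
  set N := nbr (gr B) A T with hN
  have hNA : N ⊆ A := Finset.filter_subset _ _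
  -- the points outside `A` of a block meeting `C` are in `C`
  have hcl : ∀ C ∈ T, ∀ i ∈ tch B C, ∀ y ∈ B i, y ∉ A → y ∈ C := by
    intro C hC i hi y hy hyA
    unfold tch at hi
    rw [Finset.mem_filter] at hi
    obtain ⟨-, x, hx⟩ := hi
    rw [Finset.mem_inter] at hx
    by_cases hxy : x = y
    · rw [← hxy]; exact hx.2
    · exact (hF.closed C (hT hC)).2 x hx.2 y (Finset.mem_sdiff.mpr ⟨hU i hy, hyA⟩)
        ⟨hxy, i, hx.1, hy⟩
  have hsub : ∀ C ∈ T, ∀ i ∈ tch B C, B i \ C ⊆ B i ∩ N := by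
    intro C hC i hi y hy
    rw [Finset.mem_sdiff] at hy
    rw [Finset.mem_inter]
    refine ⟨hy.1, ?_⟩
    have hyA : y ∈ A := by
      by_contra h
      exact hy.2 (hcl C hC i hi y hy.1 h)
    have hi' := hi
    unfold tch at hi'
    rw [Finset.mem_filter] at hi'
    obtain ⟨-, x, hx⟩ := hi'
    rw [Finset.mem_inter] at hx
    rw [hN]
    unfold nbr
    rw [Finset.mem_filter]
    refine ⟨hyA, C, hC, x, hx.2, ?_, i, hy.1, hx.1⟩
    rintro rfl
    exact hy.2 hx.2
  have hdisj : (T : Set (Finset V)).PairwiseDisjoint (fun C => tch B C) := by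
    intro C hC D hD hCD
    rw [Function.onFun, Finset.disjoint_left]
    intro i hi hi'
    have hi2 := hi'
    unfold tch at hi2
    rw [Finset.mem_filter] at hi2
    obtain ⟨-, x, hx⟩ := hi2
    rw [Finset.mem_inter] at hx
    have hxU := (hF.closed D (hT hD)).1 hx.2
    rw [Finset.mem_sdiff] at hxU
    have hxC := hcl C hC i hi x hx.1 hxU.2
    exact Finset.disjoint_left.mp (hF.disj C (hT hC) D (hT hD) hCD) hxC hx.2
  have h1 : 35 * T.card ≤ ∑ C ∈ T, Psi B C := by
    have := Finset.card_nsmul_le_sum T (Psi B) 35 hkey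
    rw [smul_eq_mul, mul_comm] at this
    exact this
  have h2 : ∑ C ∈ T, Psi B C ≤ ∑ C ∈ T, ∑ i ∈ tch B C, (4 * (B i ∩ N).card + om (B i).card) := by
    refine Finset.sum_le_sum fun C hC => ?_
    unfold Psi PsiQ
    refine Finset.sum_le_sum fun i hi => ?_
    unfold psi
    have := Finset.card_le_card (hsub C hC i hi)
    omega
  have h3 : ∑ C ∈ T, ∑ i ∈ tch B C, (4 * (B i ∩ N).card + om (B i).card) ≤
      ∑ i, (4 * (B i ∩ N).card + om (B i).card) := by
    rw [← Finset.sum_biUnion hdisj]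
    exact Finset.sum_le_sum_of_subset (Finset.subset_univ _)
  have h4 := sum_inc (B := B) (Reg.mono hr (hNA.trans hA))
  rw [Finset.sum_add_distrib, ← Finset.mul_sum, h4, gc_om] at h3
  omega

theorem card_eq {U : Finset V} (hs : Small B) (hr : Reg B U) (hU : ∀ i, B i ⊆ U) :
    5 * U.card = 3 * num B 3 + 2 * num B 2 + num B 1 := by
  rw [← sum_inc hr]
  unfold num
  rw [Finset.card_filter, Finset.card_filter, Finset.card_filter, Finset.mul_sum, Finset.mul_sum,
    ← Finset.sum_add_distrib, ← Finset.sum_add_distrib]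
  refine Finset.sum_congr rfl fun i _ => ?_
  rw [Finset.inter_eq_left.mpr (hU i)]
  have := hs i
  split_ifs <;> omega

end Pool.Agent.Hyp5
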