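import Pool.Agent.Hyp5.Match

/-! # HYP5 GLOBALCOVER: covers of sets with perfect matchings and of factor-critical sets -/

set_option autoImplicit false

namespace Pool.Agent.Hyp5

open Finset

variable {V : Type*} [DecidableEq V] {ι : Type*} [Fintype ι] {B : ι → Finset V}

theorem cover_aux (f : V → V) : ∀ (k : ℕ) (Q : Finset V), Q.card = k →
    (∀ v ∈ Q, f v ∈ Q ∧ f (f v) = v ∧ (gr B).Adj v (f v)) →
    ∃ T : Finset ι, Q ⊆ T.biUnion B ∧ 2 * T.card ≤ Q.card := by
  classical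
  intro k
  induction k using Nat.strong_induction_on with
  | _ k ih =>
  intro Q hk hf
  rcases Q.eq_empty_or_nonempty with rfl | ⟨v, hv⟩
  · exact ⟨∅, by simp, by simp⟩
  obtain ⟨h1, h2, h3⟩ := hf v hv
  obtain ⟨hne, i, hi1, hi2⟩ := h3
  have hmem : f v ∈ Q.erase v := mem_erase.mpr ⟨hne.symm, h1⟩
  have hc1 : (Q.erase v).card + 1 = Q.card := card_erase_add_one hv
  have hc2 : ((Q.erase v).erase (f v)).card + 1 = (Q.erase v).card := card_erase_add_one hmem
  obtain ⟨T, hT1, hT2⟩ := ih _ (by omega) ((Q.erase v).erase (f v)) rfl (by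
    intro w hw
    rw [mem_erase, mem_erase] at hw
    obtain ⟨hw1, hw2, hw3⟩ := hw
    obtain ⟨g1, g2, g3⟩ := hf w hw3
    refine ⟨?_, g2, g3⟩
    rw [mem_erase, mem_erase]
    refine ⟨?_, ?_, g1⟩
    · intro h
      apply hw2
      rw [← g2, h, h2]
    · intro h
      apply hw1
      rw [← g2, h])
  refine ⟨insert i T, ?_, ?_⟩
  · intro x hx
    rw [biUnion_insert, mem_union]
    by_cases hx1 : x = v
    · left; rw [hx1]; exact hi1
    by_cases hx2 : x = f v
    · left; rw [hx2]; exact hi2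
    right
    exact hT1 (mem_erase.mpr ⟨hx2, mem_erase.mpr ⟨hx1, hx⟩⟩)
  · have := card_insert_le i T
    omega

theorem PM.cover {Q : Finset V} (h : PM (gr B) Q) :
    ∃ T : Finset ι, Q ⊆ T.biUnion B ∧ 2 * T.card ≤ Q.card := by
  obtain ⟨f, hf⟩ := h
  exact cover_aux f _ Q rfl hf

/-- a factor-critical set with a point in a block. -/
theorem FC.cover {Q : Finset V} (h : FC (gr B) Q) (hr : Reg B Q) :
    ∃ T : Finset ι, Q ⊆ T.biUnion B ∧ 2 * T.card ≤ Q.card + 1 := by
  classical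
  obtain ⟨⟨v, hv⟩, h2⟩ := h
  obtain ⟨T, hT1, hT2⟩ := (h2 v hv).cover
  have hc1 : (Q.erase v).card + 1 = Q.card := card_erase_add_one hv
  have h5 := hr v hv
  have hne : (univ.filter (fun i => v ∈ B i)).Nonempty := by
    rw [← card_pos]; omega
  obtain ⟨i, hi⟩ := hne
  rw [mem_filter] at hi
  refine ⟨insert i T, ?_, ?_⟩
  · intro x hx
    rw [biUnion_insert, mem_union]
    by_cases hx1 : x = v
    · left; rw [hx1]; exact hi.2
    · right; exact hT1 (mem_erase.mpr ⟨hx1, hx⟩)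
  · have := card_insert_le i T
    omega

/-- a factor-critical set which is not bad. -/
theorem FC.cover_good {Q : Finset V} (h : FC (gr B) Q) (hb : ¬ Bad B Q) :
    ∃ T : Finset ι, Q ⊆ T.biUnion B ∧ 2 * T.card + 1 ≤ Q.card := by
  classical
  clear h
  unfold Bad at hb
  push Not at hb
  obtain ⟨i, ⟨hi1, hi2⟩, hpm⟩ := hb
  obtain ⟨T, hT1, hT2⟩ := hpm.cover
  have hc : (Q \ B i).card + (B i).card = Q.card := card_sdiff_add_card_eq_card hi1
  refine ⟨insert i T, ?_, ?_⟩
  · intro x hx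
    rw [biUnion_insert, mem_union]
    by_cases hx1 : x ∈ B i
    · left; exact hx1
    · right; exact hT1 (mem_sdiff.mpr ⟨hx, hx1⟩)
  · have := card_insert_le i T
    omega

/-- the cover of the whole set. -/
theorem cover_all {U A : Finset V} {F F1 F2 F3 : Finset (Finset V)} {φ : Finset V → V}
    (hr : Reg B U) (hA : A ⊆ U) (hF : FCSys (gr B) (U \ A) F)
    (hR : PM (gr B) ((U \ A) \ F.biUnion id))
    (hu : F1 ∪ F2 ∪ F3 = F) (h12 : Disjoint F1 F2) (h13 : Disjoint F1 F3)
    (h23 : Disjoint F2 F3) (hφ : ∀ C ∈ F1, φ C ∈ A ∧ ∃ y ∈ C, (gr B).Adj (φ C) y)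
    (hinj : Set.InjOn φ (F1 : Set (Finset V))) (him : F1.image φ = A)
    (hgood : ∀ C ∈ F3, ¬ Bad B C) :
    ∃ T : Finset ι, U ⊆ T.biUnion B ∧ 2 * T.card + F3.card ≤ U.card + F2.card := by
  classical
  have hF1 : F1 ⊆ F := by rw [← hu]; exact subset_union_left.trans subset_union_left
  have hF2 : F2 ⊆ F := by rw [← hu]; exact subset_union_right.trans subset_union_left
  have hF3 : F3 ⊆ F := by rw [← hu]; exact subset_union_right
  have hsub : ∀ C ∈ F, C ⊆ U \ A := fun C hC => (hF.closed C hC).1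
  -- covers of the members
  have c1 : ∀ C ∈ F1, ∃ T : Finset ι, insert (φ C) C ⊆ T.biUnion B ∧ 2 * T.card ≤ C.card + 1 := by
    intro C hC
    have hnot : φ C ∉ C := by
      intro h
      have := hsub C (hF1 hC) h
      rw [mem_sdiff] at this
      exact this.2 (hφ C hC).1
    obtain ⟨T, hT1, hT2⟩ := ((hF.fc C (hF1 hC)).pm_insert hnot (hφ C hC).2).cover
    rw [card_insert_of_notMem hnot] at hT2
    exact ⟨T, hT1, hT2⟩
  have c2 : ∀ C ∈ F2, ∃ T : Finset ι, C ⊆ T.biUnion B ∧ 2 * T.card ≤ C.card + 1 := by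
    intro C hC
    exact (hF.fc C (hF2 hC)).cover (fun v hv => hr v ((mem_sdiff.mp (hsub C (hF2 hC) hv)).1))
  have c3 : ∀ C ∈ F3, ∃ T : Finset ι, C ⊆ T.biUnion B ∧ 2 * T.card + 1 ≤ C.card := by
    intro C hC
    exact (hF.fc C (hF3 hC)).cover_good (hgood C hC)
  obtain ⟨TR, hTR1, hTR2⟩ := hR.cover
  choose! t1 ht1 using c1
  choose! t2 ht2 using c2
  choose! t3 ht3 using c3
  refine ⟨F1.biUnion t1 ∪ F2.biUnion t2 ∪ F3.biUnion t3 ∪ TR, ?_, ?_⟩
  · intro x hx
    rw [mem_biUnion]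
    by_cases hxA : x ∈ A
    · rw [← him, mem_image] at hxA
      obtain ⟨C, hC, rfl⟩ := hxA
      have := (ht1 C hC).1 (mem_insert_self _ _)
      rw [mem_biUnion] at this
      obtain ⟨i, hi, hi'⟩ := this
      refine ⟨i, ?_, hi'⟩
      simp only [mem_union, mem_biUnion]
      exact Or.inl (Or.inl (Or.inl ⟨C, hC, hi⟩))
    · by_cases hxF : x ∈ F.biUnion id
      · rw [mem_biUnion] at hxF
        obtain ⟨C, hC, hxC⟩ := hxF
        rw [← hu, mem_union, mem_union] at hC
        simp only [id] at hxC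
        rcases hC with (hC | hC) | hC
        · have := (ht1 C hC).1 (mem_insert_of_mem hxC)
          rw [mem_biUnion] at this
          obtain ⟨i, hi, hi'⟩ := this
          refine ⟨i, ?_, hi'⟩
          simp only [mem_union, mem_biUnion]
          exact Or.inl (Or.inl (Or.inl ⟨C, hC, hi⟩))
        · have := (ht2 C hC).1 hxC
          rw [mem_biUnion] at this
          obtain ⟨i, hi, hi'⟩ := this
          refine ⟨i, ?_, hi'⟩
          simp only [mem_union, mem_biUnion]
          exact Or.inl (Or.inl (Or.inr ⟨C, hC, hi⟩))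
        · have := (ht3 C hC).1 hxC
          rw [mem_biUnion] at this
          obtain ⟨i, hi, hi'⟩ := this
          refine ⟨i, ?_, hi'⟩
          simp only [mem_union, mem_biUnion]
          exact Or.inl (Or.inr ⟨C, hC, hi⟩)
      · have := hTR1 (mem_sdiff.mpr ⟨mem_sdiff.mpr ⟨hx, hxA⟩, hxF⟩)
        rw [mem_biUnion] at this
        obtain ⟨i, hi, hi'⟩ := this
        refine ⟨i, ?_, hi'⟩
        simp only [mem_union]
        exact Or.inr hi
  · -- counting
    have e1 : (F1.biUnion t1 ∪ F2.biUnion t2 ∪ F3.biUnion t3 ∪ TR).card ≤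
        ∑ C ∈ F1, (t1 C).card + ∑ C ∈ F2, (t2 C).card + ∑ C ∈ F3, (t3 C).card + TR.card := by
      refine (card_union_le _ _).trans (Nat.add_le_add_right ?_ _)
      refine (card_union_le _ _).trans (Nat.add_le_add ?_ card_biUnion_le)
      exact (card_union_le _ _).trans (Nat.add_le_add card_biUnion_le card_biUnion_le)
    have s1 : 2 * ∑ C ∈ F1, (t1 C).card ≤ ∑ C ∈ F1, C.card + F1.card := by
      calc 2 * ∑ C ∈ F1, (t1 C).card = ∑ C ∈ F1, 2 * (t1 C).card := by rw [mul_sum]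
        _ ≤ ∑ C ∈ F1, (C.card + 1) := sum_le_sum (fun C hC => (ht1 C hC).2)
        _ = ∑ C ∈ F1, C.card + F1.card := by rw [sum_add_distrib]; simp
    have s2 : 2 * ∑ C ∈ F2, (t2 C).card ≤ ∑ C ∈ F2, C.card + F2.card := by
      calc 2 * ∑ C ∈ F2, (t2 C).card = ∑ C ∈ F2, 2 * (t2 C).card := by rw [mul_sum]
        _ ≤ ∑ C ∈ F2, (C.card + 1) := sum_le_sum (fun C hC => (ht2 C hC).2)
        _ = ∑ C ∈ F2, C.card + F2.card := by rw [sum_add_distrib]; simp
    have s3 : 2 * ∑ C ∈ F3, (t3 C).card + F3.card ≤ ∑ C ∈ F3, C.card := by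
      calc 2 * ∑ C ∈ F3, (t3 C).card + F3.card = ∑ C ∈ F3, (2 * (t3 C).card + 1) := by
            rw [sum_add_distrib, mul_sum]; simp
        _ ≤ ∑ C ∈ F3, C.card := sum_le_sum (fun C hC => (ht3 C hC).2)
    have hcF : (F.biUnion id).card = ∑ C ∈ F1, C.card + ∑ C ∈ F2, C.card + ∑ C ∈ F3, C.card := by
      have hcb : (F.biUnion id).card = ∑ C ∈ F, (id C : Finset V).card :=
        card_biUnion (fun C hC D hD hne => hF.disj C hC D hD hne)
      rw [hcb, ← hu, sum_union (disjoint_union_left.mpr ⟨h13, h23⟩), sum_union h12]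
      rfl
    have hsubF : F.biUnion id ⊆ U \ A := by
      intro x hx
      rw [mem_biUnion] at hx
      obtain ⟨C, hC, hxC⟩ := hx
      exact hsub C hC hxC
    have hcR : ((U \ A) \ F.biUnion id).card + (F.biUnion id).card = (U \ A).card :=
      card_sdiff_add_card_eq_card hsubF
    have hcU : (U \ A).card + A.card = U.card := card_sdiff_add_card_eq_card hA
    have hcA : A.card = F1.card := by
      rw [← him]
      exact card_image_of_injOn hinj
    omega

end Pool.Agent.Hyp5
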