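import Pool.Agent.Hyp5.ThmA

/-! # HYP5 GREEDY: blocks of any size -/

set_option autoImplicit false

namespace Pool.Agent.Hyp5

open Finset

variable {V : Type*} [DecidableEq V] {ι : Type*} [Fintype ι] {B : ι → Finset V}

/-- weight of a block with `k` points. -/
def grW (k : ℕ) : ℕ :=
  if k = 1 then 238 else if k = 2 then 306 else if k = 3 then 357 else if k = 4 then 406 else 0

theorem grW_sum : ∑ i, grW (B i).card =
    406 * num B 4 + 357 * num B 3 + 306 * num B 2 + 238 * num B 1 := by
  unfold num
  simp only [card_filter, mul_sum]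
  rw [← sum_add_distrib, ← sum_add_distrib, ← sum_add_distrib]
  refine sum_congr rfl (fun i _ => ?_)
  unfold grW
  by_cases h1 : (B i).card = 1
  · simp [h1]
  by_cases h2 : (B i).card = 2
  · simp [h2]
  by_cases h3 : (B i).card = 3
  · simp [h3]
  by_cases h4 : (B i).card = 4
  · simp [h4]
  simp [h1, h2, h3, h4]

theorem grW_step : ∀ s ≤ 4, ∀ t ≤ s, grW (s - t) + 49 * t ≤ grW s := by
  unfold grW
  decide

/-- double counting of the points of `P` in blocks -/
theorem gr_inc {P : Finset V} (hr : Reg B P) : ∑ i, (B i ∩ P).card = 5 * P.card := by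
  classical
  have h1 : ∀ i, (B i ∩ P).card = ∑ v ∈ P, if v ∈ B i then 1 else 0 := by
    intro i
    rw [inter_comm, ← filter_mem_eq_inter, card_filter]
  simp only [h1]
  rw [sum_comm]
  have h2 : ∀ v ∈ P, (∑ i, if v ∈ B i then 1 else 0) = 5 := by
    intro v hv
    rw [← card_filter]
    exact hr v hv
  rw [sum_congr rfl h2]
  simp [mul_comm]

theorem gr_reg {U P : Finset V} (hr : Reg B U) : Reg (fun j => B j \ P) (U \ P) := by
  intro v hv
  rw [mem_sdiff] at hv
  rw [← hr v hv.1]
  congr 1
  refine filter_congr (fun i _ => ?_)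
  simp [hv.2]

theorem gr_sub {U P : Finset V} (hU : ∀ i, B i ⊆ U) (i : ι) : B i \ P ⊆ U \ P :=
  sdiff_subset_sdiff (hU i) le_rfl

theorem gr_cover {U : Finset V} (i : ι) (T : Finset ι) [DecidableEq ι]
    (hT : U \ B i ⊆ T.biUnion (fun j => B j \ B i)) : U ⊆ (insert i T).biUnion B := by
  intro x hx
  rw [biUnion_insert, mem_union]
  by_cases h : x ∈ B i
  · exact Or.inl h
  · right
    have := hT (mem_sdiff.mpr ⟨hx, h⟩)
    rw [mem_biUnion] at this ⊢
    obtain ⟨j, hj, hj'⟩ := this
    exact ⟨j, hj, (mem_sdiff.mp hj').1⟩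

theorem thmB_aux : ∀ (k : ℕ) (B : ι → Finset V) (U : Finset V), U.card = k →
    (∀ i, (B i).card ≤ 4) → Reg B U → (∀ i, B i ⊆ U) →
    ∃ T : Finset ι, U ⊆ T.biUnion B ∧ 1190 * T.card ≤ ∑ i, grW (B i).card := by
  classical
  intro k
  induction k using Nat.strong_induction_on with
  | _ k ih =>
  intro B U hk hs hr hU
  by_cases h4 : ∃ i, (B i).card = 4
  · obtain ⟨i, hi⟩ := h4
    have hc : (U \ B i).card + (B i).card = U.card := card_sdiff_add_card_eq_card (hU i)
    obtain ⟨T, hT1, hT2⟩ := ih (U \ B i).card (by omega) (fun j => B j \ B i) (U \ B i) rfl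
      (fun j => (card_le_card sdiff_subset).trans (hs j)) (gr_reg hr) (gr_sub hU)
    refine ⟨insert i T, gr_cover i T hT1, ?_⟩
    have hstep : ∀ j, grW (B j \ B i).card + 49 * (B j ∩ B i).card ≤ grW (B j).card := by
      intro j
      have h1 : (B j \ B i).card = (B j).card - (B j ∩ B i).card := by
        have := card_sdiff_add_card_inter (B j) (B i)
        omega
      rw [h1]
      exact grW_step _ (hs j) _ (card_le_card inter_subset_left)
    have hinc := gr_inc (B := B) (P := B i) (fun v hv => hr v (hU i hv))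
    have hsum : ∑ j, grW (B j \ B i).card + 1190 ≤ ∑ j, grW (B j).card := by
      rw [← add_sum_erase univ (fun j => grW (B j \ B i).card) (mem_univ i),
        ← add_sum_erase univ (fun j => grW (B j).card) (mem_univ i)]
      rw [← add_sum_erase univ (fun j => (B j ∩ B i).card) (mem_univ i)] at hinc
      have hle := sum_le_sum (s := univ.erase i) (fun j _ => hstep j)
      rw [sum_add_distrib, ← mul_sum] at hle
      have e1 : grW (B i \ B i).card = 0 := by simp [grW]
      have e2 : grW (B i).card = 406 := by rw [hi]; rfl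
      have e3 : (B i ∩ B i).card = 4 := by rw [inter_self, hi]
      omega
    have := card_insert_le i T
    omega
  · push Not at h4
    have hsmall : Small B := by
      intro i
      have := hs i
      have := h4 i
      omega
    obtain ⟨T, hT1, hT2⟩ := thmA hsmall U hr hU
    refine ⟨T, hT1, ?_⟩
    rw [grW_sum]
    omega

theorem thmB (hs : ∀ i, (B i).card ≤ 4) (U : Finset V) (hr : Reg B U) (hU : ∀ i, B i ⊆ U) :
    ∃ T : Finset ι, U ⊆ T.biUnion B ∧
      1190 * T.card ≤ 406 * num B 4 + 357 * num B 3 + 306 * num B 2 + 238 * num B 1 := by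
  obtain ⟨T, h1, h2⟩ := thmB_aux _ B U rfl hs hr hU
  exact ⟨T, h1, by rw [← grW_sum]; exact h2⟩

theorem grW_bound : ∀ k ≤ 4, 3 * grW k ≤ 770 * (if 0 < k then 1 else 0) + 112 * k := by
  unfold grW
  decide

theorem thmC_aux : ∀ (k : ℕ) (B : ι → Finset V) (U : Finset V), U.card = k →
    Reg B U → (∀ i, B i ⊆ U) →
    ∃ T : Finset ι, U ⊆ T.biUnion B ∧
      51 * T.card ≤ 11 * (univ.filter (fun i => (B i).Nonempty)).card + 8 * U.card := by
  classical
  intro k
  induction k using Nat.strong_induction_on with
  | _ k ih =>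
  intro B U hk hr hU
  by_cases h5 : ∃ i, 5 ≤ (B i).card
  · obtain ⟨i, hi⟩ := h5
    have hc : (U \ B i).card + (B i).card = U.card := card_sdiff_add_card_eq_card (hU i)
    obtain ⟨T, hT1, hT2⟩ := ih (U \ B i).card (by omega) (fun j => B j \ B i) (U \ B i) rfl
      (gr_reg hr) (gr_sub hU)
    refine ⟨insert i T, gr_cover i T hT1, ?_⟩
    have hlt : (univ.filter (fun j => (B j \ B i).Nonempty)).card + 1 ≤
        (univ.filter (fun j => (B j).Nonempty)).card := by
      have hsub : univ.filter (fun j => (B j \ B i).Nonempty) ⊆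
          (univ.filter (fun j => (B j).Nonempty)).erase i := by
        intro j hj
        rw [mem_filter] at hj
        rw [mem_erase, mem_filter]
        refine ⟨?_, mem_univ _, hj.2.mono sdiff_subset⟩
        rintro rfl
        have := hj.2
        simp at this
      have hmem : i ∈ univ.filter (fun j => (B j).Nonempty) := by
        rw [mem_filter]
        exact ⟨mem_univ _, card_pos.mp (by omega)⟩
      have h1 := card_le_card hsub
      have h2 := card_erase_add_one hmem
      omega
    have := card_insert_le i T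
    omega
  · push Not at h5
    obtain ⟨T, hT1, hT2⟩ := thmB_aux _ B U rfl (fun i => by have := h5 i; omega) hr hU
    refine ⟨T, hT1, ?_⟩
    have h1 : ∑ i, 3 * grW (B i).card ≤
        ∑ i, (770 * (if 0 < (B i).card then 1 else 0) + 112 * (B i).card) :=
      sum_le_sum (fun i _ => grW_bound _ (by have := h5 i; omega))
    rw [sum_add_distrib, ← mul_sum, ← mul_sum, ← mul_sum, ← card_filter] at h1
    have h2 : ∑ i, (B i).card = 5 * U.card := by
      rw [← gr_inc hr]
      refine sum_congr rfl (fun i _ => ?_)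
      rw [inter_eq_left.mpr (hU i)]
    have h3 : univ.filter (fun i => 0 < (B i).card) = univ.filter (fun i => (B i).Nonempty) := by
      refine filter_congr (fun i _ => ?_)
      exact card_pos
    rw [h2, h3] at h1
    omega

theorem thmC (U : Finset V) (hr : Reg B U) (hU : ∀ i, B i ⊆ U) :
    ∃ T : Finset ι, U ⊆ T.biUnion B ∧
      51 * T.card ≤ 11 * (univ.filter (fun i => (B i).Nonempty)).card + 8 * U.card :=
  thmC_aux _ B U rfl hr hU

end Pool.Agent.Hyp5
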