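import Pool.Agent.Hyp5.AllSplit
import Pool.Agent.Hyp5.CaseR
import Pool.Agent.Hyp5.CaseE

/-! # HYP5 KEY: the key lemma -/

set_option autoImplicit false

namespace Pool.Agent.Hyp5

open Finset

variable {V : Type*} [DecidableEq V] {ι : Type*} [Fintype ι] {B : ι → Finset V}

theorem key_leaf {Q L : Finset V} (hs : Small B) (hr : Reg B Q) (hb : Bad B Q) (ih : IH B Q)
    (hall : AllSplit B Q) (hL : Leaf B Q L) (hk : (inn B Q L).Nonempty) : 35 ≤ Psi B Q := by
  obtain ⟨⟨i, M, h⟩, hmin⟩ := hL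
  have hL : Leaf B Q L := ⟨⟨i, M, h⟩, hmin⟩
  obtain ⟨c, hc⟩ := h.fL.odd
  rcases Nat.eq_zero_or_pos c with h0 | h0
  · have hcard : L.card = 1 := by omega
    rcases (((Q \ B i) \ L) \ M).eq_empty_or_nonempty with hR | hR
    · exact caseB_empty hs hr hb ih hall h hL hk hcard hR
    · exact caseB_rest hs hr ih hall h hL hk hcard hR
  · exact caseB_big hs hr ih hall h hL hk (by omega)

theorem key (hs : Small B) (Q : Finset V) (hr : Reg B Q) (hfc : FC (gr B) Q)
    (hb : Bad B Q) : 35 ≤ Psi B Q := by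
  induction hn : Q.card using Nat.strong_induction_on generalizing Q with
  | _ n ihn =>
    have ih : IH B Q := by
      intro P hP hfP hbP
      exact ihn P.card (hn ▸ card_lt_card hP) P (hr.mono hP.subset) hfP hbP rfl
    by_cases hno : ∀ i, ¬ Inner B Q i
    · exact key_noinner hs hr hfc.odd hno
    push Not at hno
    obtain ⟨i, hi⟩ := hno
    rcases all_split hs hr hfc hb ih with h | hall
    · exact h
    obtain ⟨L, M, h⟩ := hall i hi
    obtain ⟨L1, hL1, hl1⟩ := exists_leaf h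
    obtain ⟨L2, hL2, hl2⟩ := exists_leaf h.symm
    rcases (inn B Q L1).eq_empty_or_nonempty with k1 | k1
    swap
    · exact key_leaf hs hr hb ih hall hl1 k1
    rcases (inn B Q L2).eq_empty_or_nonempty with k2 | k2
    swap
    · exact key_leaf hs hr hb ih hall hl2 k2
    have g1 := leaf_ge20 hs hr hl1 k1
    have g2 := leaf_ge20 hs hr hl2 k2
    have s1 : L1 ⊆ Q := hL1.trans (h.cL.1.trans sdiff_subset)
    have s2 : L2 ⊆ Q := hL2.trans (h.cM.1.trans sdiff_subset)
    have hd : Disjoint L1 L2 := disjoint_of_subset_left hL1 (disjoint_of_subset_right hL2 h.dis)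
    have ha : ∀ x ∈ L1, ∀ y ∈ L2, ¬ (gr B).Adj x y := by
      intro x hx y hy hxy
      have h1 := h.cL.2 x (hL1 hx) y (h.cM.1 (hL2 hy)) hxy
      exact Finset.disjoint_left.1 h.dis h1 (hL2 hy)
    have g3 := PsiQ_add s1 s2 (tch_disj hd ha)
    omega

end Pool.Agent.Hyp5
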