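import Pool.Agent.Hyp5.Match

/-! # HYP5 LEAF: minimal odd parts -/

set_option autoImplicit false
set_option linter.unusedSectionVars false

namespace Pool.Agent.Hyp5

open Finset

variable {V : Type*} [DecidableEq V] {ι : Type*} [Fintype ι] {B : ι → Finset V}

theorem Split.symm {Q L M : Finset V} {i : ι} (h : Split B Q i L M) : Split B Q i M L := by
  refine ⟨h.inner, h.cM, h.cL, h.dis.symm, h.fM, h.fL, h.bM, h.bL, ?_, h.nM, h.nL, ?_⟩
  · rw [sdiff_right_comm]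
    exact h.rest
  · rw [union_comm]
    exact h.nLM

/-- the rest of a split is closed too. -/
theorem Split.closed_rest {Q L M : Finset V} {i : ι} (h : Split B Q i L M) :
    Closed (gr B) (Q \ B i) (((Q \ B i) \ L) \ M) := by
  refine ⟨fun x hx => ?_, fun x hx y hy hxy => ?_⟩
  · exact (mem_sdiff.1 (mem_sdiff.1 hx).1).1
  · rw [mem_sdiff, mem_sdiff] at hx ⊢
    obtain ⟨⟨hx1, hx2⟩, hx3⟩ := hx
    refine ⟨⟨hy, fun hyL => hx2 ?_⟩, fun hyM => hx3 ?_⟩
    · exact h.cL.2 y hyL x hx1 hxy.symm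
    · exact h.cM.2 y hyM x hx1 hxy.symm

/-- the two parts and the rest cover. -/
theorem Split.cases {Q L M : Finset V} {i : ι} (_h : Split B Q i L M) {x : V}
    (hx : x ∈ Q \ B i) : x ∈ L ∨ x ∈ M ∨ x ∈ (((Q \ B i) \ L) \ M) := by
  by_cases h1 : x ∈ L
  · exact Or.inl h1
  by_cases h2 : x ∈ M
  · exact Or.inr (Or.inl h2)
  exact Or.inr (Or.inr (mem_sdiff.2 ⟨mem_sdiff.2 ⟨hx, h1⟩, h2⟩))

/-- an inner triple lies in `B i` and one part. -/
theorem Split.triple_part {Q L M : Finset V} {i j : ι} (h : Split B Q i L M)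
    (hj : Inner B Q j) :
    B j ⊆ B i ∪ L ∨ B j ⊆ B i ∪ M ∨ B j ⊆ B i ∪ (((Q \ B i) \ L) \ M) := by
  by_cases hij : B j ⊆ B i
  · exact Or.inl (hij.trans subset_union_left)
  obtain ⟨x, hxj, hxi⟩ := not_subset.1 hij
  have hxW : x ∈ Q \ B i := mem_sdiff.2 ⟨hj.1 hxj, hxi⟩
  have key : ∀ C : Finset V, Closed (gr B) (Q \ B i) C → x ∈ C → B j ⊆ B i ∪ C := by
    intro C hC hxC y hy
    have h1 := block_closed hC j ⟨x, mem_inter.2 ⟨hxj, hxC⟩⟩
    by_cases hyi : y ∈ B i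
    · exact mem_union_left _ hyi
    · exact mem_union_right _ (h1 (mem_inter.2 ⟨hy, mem_sdiff.2 ⟨hj.1 hy, hyi⟩⟩))
  rcases h.cases hxW with h1 | h1 | h1
  · exact Or.inl (key _ h.cL h1)
  · exact Or.inr (Or.inl (key _ h.cM h1))
  · exact Or.inr (Or.inr (key _ h.closed_rest h1))

/-- a factor-critical set meeting a closed set is contained in it. -/
theorem FC.sub_closed {G : SimpleGraph V} {W C Z : Finset V} (hZ : FC G Z) (hW : Z ⊆ W)
    (hC : Closed G W C) {z : V} (hz : z ∈ Z) (hzC : z ∈ C) : Z ⊆ C := by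
  have h1 : Closed G Z (Z ∩ C) := by
    refine ⟨inter_subset_left, fun x hx y hy hxy => ?_⟩
    exact mem_inter.2 ⟨hy, hC.2 x (mem_inter.1 hx).2 y (hW hy) hxy⟩
  have h2 : Z ∩ C = Z := hZ.conn h1 ⟨z, mem_inter.2 ⟨hz, hzC⟩⟩
  exact inter_eq_left.1 h2

theorem leaf_inter_lt {Q : Finset V} {i j : ι} (hi : Inner B Q i) (hj : Inner B Q j)
    (hne : B j ≠ B i) : (B i ∩ B j).card ≤ 2 := by
  by_contra hcon
  push Not at hcon
  have h1 : B i ∩ B j = B i := by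
    apply eq_of_subset_of_card_le inter_subset_left
    rw [hi.2]
    exact hcon
  have h2 : B i ⊆ B j := inter_eq_left.1 h1
  have h3 : B i = B j := eq_of_subset_of_card_le h2 (by rw [hi.2, hj.2])
  exact hne h3.symm

/-- an inner triple `j` different from the inner triple `i` has an odd part avoiding `B i`. -/
theorem claim1 {Q L M : Finset V} {i j : ι} (h : Split B Q i L M)
    (hj : ∃ Z Z', Split B Q j Z Z') (_hne : B j ≠ B i) :
    ∃ Z Z', Split B Q j Z Z' ∧ Disjoint Z (B i) ∧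
      (Z ⊆ L ∨ Z ⊆ M ∨ Z ⊆ (((Q \ B i) \ L) \ M)) := by
  have h1 : ∃ Z Z', Split B Q j Z Z' ∧ Disjoint Z (B i) := by
    obtain ⟨Z, Z', hs⟩ := hj
    by_cases hd : Disjoint Z (B i)
    · exact ⟨Z, Z', hs, hd⟩
    · refine ⟨Z', Z, hs.symm, ?_⟩
      rw [not_disjoint_iff] at hd
      obtain ⟨z, hzZ, hzi⟩ := hd
      have h2 := block_closed hs.cL i ⟨z, mem_inter.2 ⟨hzi, hzZ⟩⟩
      rw [disjoint_left]
      intro y hy hyi
      have h3 : y ∈ Q \ B j := hs.cM.1 hy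
      have h4 : y ∈ Z := h2 (mem_inter.2 ⟨hyi, h3⟩)
      exact (disjoint_left.1 hs.dis h4) hy
  obtain ⟨Z, Z', hs, hd⟩ := h1
  refine ⟨Z, Z', hs, hd, ?_⟩
  have hZW : Z ⊆ Q \ B i := by
    intro z hz
    exact mem_sdiff.2 ⟨(mem_sdiff.1 (hs.cL.1 hz)).1, disjoint_left.1 hd hz⟩
  obtain ⟨z, hz⟩ := hs.fL.1
  rcases h.cases (hZW hz) with h1 | h1 | h1
  · exact Or.inl (hs.fL.sub_closed hZW h.cL hz h1)
  · exact Or.inr (Or.inl (hs.fL.sub_closed hZW h.cM hz h1))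
  · exact Or.inr (Or.inr (hs.fL.sub_closed hZW h.closed_rest hz h1))

theorem claim2 {Q L M Z Z' : Finset V} {i j : ι} (h : Split B Q i L M)
    (hj : Split B Q j Z Z') (hne : B j ≠ B i) (hZ : Z ⊆ M) (hM : Disjoint (B j) M) :
    Z = M ∧ nb (gr B) (B i) M = B i ∩ B j ∧ (B i ∩ B j).card = 2 := by
  have hMj : M ⊆ Q \ B j := by
    intro m hm
    exact mem_sdiff.2 ⟨(mem_sdiff.1 (h.cM.1 hm)).1, fun hmj => disjoint_left.1 hM hmj hm⟩
  have hZM : Z = M := h.fM.conn (hj.cL.mono hZ hMj) hj.fL.1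
  have hsub : nb (gr B) (B i) M ⊆ B i ∩ B j := by
    classical
    intro x hx
    obtain ⟨hxi, y, hyM, hxy⟩ := Finset.mem_filter.1 hx
    refine mem_inter.2 ⟨hxi, ?_⟩
    by_contra hxj
    have h1 : x ∈ Q \ B j := mem_sdiff.2 ⟨h.inner.1 hxi, hxj⟩
    have h2 : x ∈ Z := hj.cL.2 y (hZM ▸ hyM) x h1 hxy.symm
    have h3 : x ∈ Q \ B i := h.cM.1 (hZ h2)
    exact (mem_sdiff.1 h3).2 hxi
  have h2 := h.nM
  have h3 := card_le_card hsub
  have h4 := leaf_inter_lt h.inner hj.inner hne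
  refine ⟨hZM, eq_of_subset_of_card_le hsub (by omega), by omega⟩

theorem claim3 {Q L M Z Z' : Finset V} {i j : ι} (h : Split B Q i L M)
    (hj : Split B Q j Z Z') (hZ : Z ⊆ (((Q \ B i) \ L) \ M))
    (hM : Disjoint (B j) (((Q \ B i) \ L) \ M)) : False := by
  have hRj : (((Q \ B i) \ L) \ M) ⊆ Q \ B j := by
    intro m hm
    exact mem_sdiff.2 ⟨(mem_sdiff.1 (h.closed_rest.1 hm)).1,
      fun hmj => disjoint_left.1 hM hmj hm⟩
  have h1 : PM (gr B) Z := h.rest.restrict (hj.cL.mono hZ hRj)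
  exact (Nat.not_even_iff_odd.2 hj.fL.odd) h1.even

theorem exists_leaf {Q L M : Finset V} {i : ι} (h : Split B Q i L M) :
    ∃ L', L' ⊆ L ∧ Leaf B Q L' := by
  classical
  let S : Finset (Finset V) := L.powerset.filter (fun Z => ∃ j Z', Split B Q j Z Z')
  have hS : S.Nonempty := ⟨L, mem_filter.2 ⟨mem_powerset.2 subset_rfl, i, M, h⟩⟩
  obtain ⟨L', hL', hmin⟩ := exists_min_image S card hS
  obtain ⟨h1, j, Z', h2⟩ := mem_filter.1 hL'
  rw [mem_powerset] at h1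
  refine ⟨L', h1, ⟨j, Z', h2⟩, fun k Z Z'' hs hsub => ?_⟩
  have h3 : Z ∈ S := mem_filter.2 ⟨mem_powerset.2 (hsub.trans h1), k, Z'', hs⟩
  exact eq_of_subset_of_card_le hsub (hmin Z h3)

/-- the inner triples meeting a leaf. -/
theorem leaf_triple {Q L M : Finset V} {i j : ι} (hall : AllSplit B Q)
    (h : Split B Q i L M) (hL : Leaf B Q L) (hj : Inner B Q j) (ht : (B j ∩ L).Nonempty) :
    nb (gr B) (B i) M = B i ∩ B j ∧ (B i ∩ B j).card = 2 ∧ (B j ∩ L).card = 1 ∧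
      B j ⊆ B i ∪ L := by
  obtain ⟨x, hx⟩ := ht
  obtain ⟨hxj, hxL⟩ := mem_inter.1 hx
  have hxi : x ∉ B i := (mem_sdiff.1 (h.cL.1 hxL)).2
  have hne : B j ≠ B i := fun he => hxi (he ▸ hxj)
  have hsub : B j ⊆ B i ∪ L := by
    rcases h.triple_part hj with h1 | h1 | h1
    · exact h1
    · exfalso
      rcases mem_union.1 (h1 hxj) with h2 | h2
      · exact hxi h2
      · exact disjoint_left.1 h.dis hxL h2
    · exfalso
      rcases mem_union.1 (h1 hxj) with h2 | h2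
      · exact hxi h2
      · exact (mem_sdiff.1 (mem_sdiff.1 h2).1).2 hxL
  have hdM : Disjoint (B j) M := by
    rw [disjoint_left]
    intro y hy hyM
    rcases mem_union.1 (hsub hy) with h2 | h2
    · exact (mem_sdiff.1 (h.cM.1 hyM)).2 h2
    · exact disjoint_left.1 h.dis h2 hyM
  have hdR : Disjoint (B j) (((Q \ B i) \ L) \ M) := by
    rw [disjoint_left]
    intro y hy hyR
    rcases mem_union.1 (hsub hy) with h2 | h2
    · exact (mem_sdiff.1 (h.closed_rest.1 hyR)).2 h2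
    · exact (mem_sdiff.1 (mem_sdiff.1 hyR).1).2 h2
  obtain ⟨Z, Z', hs, _, hZ⟩ := claim1 h (hall j hj) hne
  rcases hZ with h1 | h1 | h1
  · exfalso
    have h2 : Z = L := hL.2 j Z Z' hs h1
    have h3 : x ∈ Q \ B j := hs.cL.1 (h2 ▸ hxL)
    exact (mem_sdiff.1 h3).2 hxj
  · obtain ⟨_, h3, h4⟩ := claim2 h hs hne h1 hdM
    refine ⟨h3, h4, ?_, hsub⟩
    have h5 : B j ∩ L = B j \ (B i ∩ B j) := by
      ext y
      rw [mem_inter, mem_sdiff, mem_inter]
      constructor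
      · rintro ⟨hy1, hy2⟩
        exact ⟨hy1, fun hy3 => (mem_sdiff.1 (h.cL.1 hy2)).2 hy3.1⟩
      · rintro ⟨hy1, hy2⟩
        refine ⟨hy1, ?_⟩
        rcases mem_union.1 (hsub hy1) with h6 | h6
        · exact absurd ⟨h6, hy1⟩ hy2
        · exact h6
    rw [h5, card_sdiff_of_subset inter_subset_right, h4, hj.2]
  · exact (claim3 h hs h1 hdR).elim

end Pool.Agent.Hyp5
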