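import Pool.Agent.Hyp5.Cost
import Pool.Agent.Hyp5.Leaf

/-! # HYP5 LEAFCOST: costs of leaves -/

set_option autoImplicit false

namespace Pool.Agent.Hyp5

open Finset

variable {V : Type*} [DecidableEq V] {ι : Type*} [Fintype ι] {B : ι → Finset V}

theorem lc_mem_inn {Q P : Finset V} {j : ι} : j ∈ inn B Q P ↔ (B j ∩ P).Nonempty ∧ Inner B Q j := by
  simp [inn, tch]

omit [DecidableEq V] in
theorem lc_mem_nb {G : SimpleGraph V} {X C : Finset V} {x : V} :
    x ∈ nb G X C ↔ x ∈ X ∧ ∃ y ∈ C, G.Adj x y := by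
  simp [nb]

/-- at most three inner triples meet a leaf (counted with `i` itself and one block to `M`, at most
five blocks contain a point of `nb (B i) M`). -/
theorem leaf_count {Q L : Finset V} (hr : Reg B Q) (hall : AllSplit B Q)
    (hL : Leaf B Q L) : (inn B Q L).card ≤ 3 := by
  classical
  obtain ⟨i, M, h⟩ := hL.1
  obtain ⟨x, hx⟩ : (nb (gr B) (B i) M).Nonempty := by
    rw [← Finset.card_pos]
    have := h.nM
    omega
  obtain ⟨hxi, y, hy, hxy, k, hxk, hyk⟩ := lc_mem_nb.1 hx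
  have hyQ := Finset.mem_sdiff.1 (h.cM.1 hy)
  have key : ∀ j ∈ inn B Q L, x ∈ B j ∧ B j ⊆ B i ∪ L := by
    intro j hj
    obtain ⟨h1, h2⟩ := lc_mem_inn.1 hj
    obtain ⟨g1, _, _, g2⟩ := leaf_triple hall h hL h2 h1
    rw [g1] at hx
    exact ⟨(Finset.mem_inter.1 hx).2, g2⟩
  have hi : i ∉ inn B Q L := by
    intro hi
    obtain ⟨z, hz⟩ := (lc_mem_inn.1 hi).1
    have hz' := Finset.mem_inter.1 hz
    exact (Finset.mem_sdiff.1 (h.cL.1 hz'.2)).2 hz'.1
  have hk : k ∉ inn B Q L := by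
    intro hk
    have := (key k hk).2 hyk
    rcases Finset.mem_union.1 this with h1 | h1
    · exact hyQ.2 h1
    · exact (Finset.disjoint_left.1 h.dis h1) hy
  have hik : i ≠ k := by
    rintro rfl
    exact hyQ.2 hyk
  have hsub : insert i (insert k (inn B Q L)) ⊆ univ.filter (fun i => x ∈ B i) := by
    intro j hj
    simp only [Finset.mem_filter, Finset.mem_univ, true_and]
    rcases Finset.mem_insert.1 hj with rfl | hj
    · exact hxi
    rcases Finset.mem_insert.1 hj with rfl | hj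
    · exact hxk
    exact (key j hj).1
  have hc := Finset.card_le_card hsub
  rw [hr x (h.inner.1 hxi), Finset.card_insert_of_notMem, Finset.card_insert_of_notMem hk] at hc
  · omega
  · rw [Finset.mem_insert]
    rintro (h1 | h1)
    · exact hik h1
    · exact hi h1

omit [Fintype ι] in
theorem lc_sub {Q L : Finset V} (hL : Leaf B Q L) : L ⊆ Q := by
  obtain ⟨i, M, h⟩ := hL.1
  exact h.cL.1.trans Finset.sdiff_subset

omit [Fintype ι] in
theorem lc_odd {Q L : Finset V} (hL : Leaf B Q L) : Odd L.card := by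
  obtain ⟨i, M, h⟩ := hL.1
  exact h.fL.odd

theorem leaf_ge8 {Q L : Finset V} (hs : Small B) (hr : Reg B Q) (hall : AllSplit B Q)
    (hL : Leaf B Q L) : 8 ≤ PsiQ B Q L := by
  have hc := leaf_count hr hall hL
  obtain ⟨i, M, h⟩ := hL.1
  have hLQ := lc_sub hL
  obtain ⟨m, hm⟩ := lc_odd hL
  rcases Nat.eq_zero_or_pos m with rfl | hm0
  · obtain ⟨l, rfl⟩ := Finset.card_eq_one.1 (by simpa using hm)
    have := cost_single hs (hr.mono hLQ) (hLQ (Finset.mem_singleton_self l))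
    omega
  · have := cost_ge hs (hr.mono hLQ) hLQ (fun j hj => by
      obtain ⟨h1, h2⟩ := lc_mem_inn.1 hj
      exact (leaf_triple hall h hL h2 h1).2.2.1)
    omega

theorem leaf_ge20 {Q L : Finset V} (hs : Small B) (hr : Reg B Q)
    (hL : Leaf B Q L) (hk : inn B Q L = ∅) : 20 ≤ PsiQ B Q L := by
  have hLQ := lc_sub hL
  obtain ⟨m, hm⟩ := lc_odd hL
  rcases Nat.eq_zero_or_pos m with rfl | hm0
  · obtain ⟨l, rfl⟩ := Finset.card_eq_one.1 (by simpa using hm)
    have := cost_single hs (hr.mono hLQ) (hLQ (Finset.mem_singleton_self l))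
    rw [hk] at this
    simpa using this
  · have := cost_ge hs (hr.mono hLQ) hLQ (fun j hj => by
      rw [hk] at hj
      simp at hj)
    rw [hk, Finset.card_empty] at this
    omega

theorem other_ge {Q L M : Finset V} {i : ι} (hr : Reg B Q) (ih : IH B Q)
    (hall : AllSplit B Q) (h : Split B Q i L M) (hL : Leaf B Q L)
    (hk : (inn B Q L).Nonempty) : 3 + 8 * (inn B Q L).card ≤ PsiQ B Q M := by
  classical
  have hMQ : M ⊆ Q := h.cM.1.trans Finset.sdiff_subset
  have key : ∀ j ∈ inn B Q L, nb (gr B) (B i) M = B i ∩ B j ∧ (B i ∩ B j).card = 2 ∧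
      B j ⊆ B i ∪ L := by
    intro j hj
    obtain ⟨h1, h2⟩ := lc_mem_inn.1 hj
    obtain ⟨g1, g3, _, g2⟩ := leaf_triple hall h hL h2 h1
    exact ⟨g1, g3, g2⟩
  set N := nb (gr B) (B i) M with hN
  have hNi : N ⊆ B i := fun x hx => (lc_mem_nb.1 hx).1
  have hN2 : N.card = 2 := by
    obtain ⟨j, hj⟩ := hk
    rw [(key j hj).1, (key j hj).2.1]
  have hNQ : N ⊆ Q \ M := by
    intro x hx
    rw [Finset.mem_sdiff]
    exact ⟨h.inner.1 (hNi hx), fun hxM => (Finset.mem_sdiff.1 (h.cM.1 hxM)).2 (hNi hx)⟩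
  have hcl : ∀ k ∈ tch B M, B k ∩ Q ⊆ M ∪ N := by
    intro k hk x hx
    simp only [tch, Finset.mem_filter, Finset.mem_univ, true_and] at hk
    obtain ⟨y, hy⟩ := hk
    obtain ⟨hyk, hyM⟩ := Finset.mem_inter.1 hy
    obtain ⟨hxk, hxQ⟩ := Finset.mem_inter.1 hx
    rw [Finset.mem_union]
    by_cases hxM : x ∈ M
    · exact Or.inl hxM
    have hne : x ≠ y := fun h => hxM (h ▸ hyM)
    by_cases hxi : x ∈ B i
    · exact Or.inr (lc_mem_nb.2 ⟨hxi, y, hyM, hne, k, hxk, hyk⟩)
    · exact Or.inl (h.cM.2 y hyM x (Finset.mem_sdiff.2 ⟨hxQ, hxi⟩) ⟨hne.symm, k, hyk, hxk⟩)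
  have hPsi := Psi_closed hMQ hNQ hcl
  have hMne : M ⊂ Q := by
    refine ⟨hMQ, fun hQM => ?_⟩
    obtain ⟨x, hx⟩ : (B i).Nonempty := by
      rw [← Finset.card_pos, h.inner.2]
      norm_num
    exact (Finset.mem_sdiff.1 (h.cM.1 (hQM (h.inner.1 hx)))).2 hx
  have h35 := ih M hMne h.fM h.bM
  have hsum : ∑ k, (B k ∩ N).card = 5 * N.card := sum_inc (hr.mono (hNQ.trans Finset.sdiff_subset))
  have hi : i ∉ inn B Q L := by
    intro hi
    obtain ⟨z, hz⟩ := (lc_mem_inn.1 hi).1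
    have hz' := Finset.mem_inter.1 hz
    exact (Finset.mem_sdiff.1 (h.cL.1 hz'.2)).2 hz'.1
  have hdis : Disjoint (tch B M) (insert i (inn B Q L)) := by
    rw [Finset.disjoint_left]
    intro k hk hk'
    simp only [tch, Finset.mem_filter, Finset.mem_univ, true_and] at hk
    obtain ⟨y, hy⟩ := hk
    obtain ⟨hyk, hyM⟩ := Finset.mem_inter.1 hy
    have hyQ := Finset.mem_sdiff.1 (h.cM.1 hyM)
    rcases Finset.mem_insert.1 hk' with rfl | hk'
    · exact hyQ.2 hyk
    · rcases Finset.mem_union.1 ((key k hk').2.2 hyk) with h1 | h1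
      · exact hyQ.2 h1
      · exact (Finset.disjoint_left.1 h.dis h1) hyM
  have hle : ∑ k ∈ tch B M, (B k ∩ N).card + ∑ k ∈ insert i (inn B Q L), (B k ∩ N).card ≤
      ∑ k, (B k ∩ N).card := by
    rw [← Finset.sum_union hdis]
    exact Finset.sum_le_sum_of_subset (Finset.subset_univ _)
  have h2 : ∑ k ∈ insert i (inn B Q L), (B k ∩ N).card = (insert i (inn B Q L)).card * 2 := by
    rw [Finset.sum_const_nat]
    intro k hk
    have : N ⊆ B k := by
      rcases Finset.mem_insert.1 hk with rfl | hk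
      · exact hNi
      · rw [(key k hk).1]
        exact Finset.inter_subset_right
    rw [Finset.inter_eq_right.2 this, hN2]
  rw [h2, Finset.card_insert_of_notMem hi, hsum, hN2] at hle
  omega

end Pool.Agent.Hyp5
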