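import Pool.Agent.Hyp5.Sys

/-! # HYP5 SYSB: minimal tight systems containing a clique of three points -/

set_option autoImplicit false

namespace Pool.Agent.Hyp5

open Finset

variable {V : Type*} [DecidableEq V] {G : SimpleGraph V}

theorem sysB_mem_nbr {X : Finset V} {T : Finset (Finset V)} {x : V} :
    x ∈ nbr G X T ↔ x ∈ X ∧ ∃ C ∈ T, ∃ y ∈ C, G.Adj x y := by
  classical
  unfold nbr
  exact mem_filter

theorem sysB_nbr_union (X : Finset V) (T T' : Finset (Finset V)) :
    nbr G X (T ∪ T') = nbr G X T ∪ nbr G X T' := by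
  ext x
  rw [mem_union, sysB_mem_nbr, sysB_mem_nbr, sysB_mem_nbr]
  constructor
  · rintro ⟨hx, C, hC, h⟩
    rcases mem_union.1 hC with hC | hC
    · exact Or.inl ⟨hx, C, hC, h⟩
    · exact Or.inr ⟨hx, C, hC, h⟩
  · rintro (⟨hx, C, hC, h⟩ | ⟨hx, C, hC, h⟩)
    · exact ⟨hx, C, mem_union_left _ hC, h⟩
    · exact ⟨hx, C, mem_union_right _ hC, h⟩

theorem sysB_nbr_inter_sub (X : Finset V) (T T' : Finset (Finset V)) :
    nbr G X (T ∩ T') ⊆ nbr G X T ∩ nbr G X T' := by
  intro x hx
  rw [sysB_mem_nbr] at hx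
  obtain ⟨hx, C, hC, h⟩ := hx
  rw [mem_inter] at hC
  rw [mem_inter, sysB_mem_nbr, sysB_mem_nbr]
  exact ⟨⟨hx, C, hC.1, h⟩, ⟨hx, C, hC.2, h⟩⟩

/-- a set `Y` and a family `D` of factor-critical sets with `|D| = |Y|` and Hall's condition. -/
theorem pm_of_hall {Y : Finset V} {D : Finset (Finset V)} (hfc : ∀ C ∈ D, FC G C)
    (hd : ∀ C ∈ D, ∀ C' ∈ D, C ≠ C' → Disjoint C C') (hY : ∀ C ∈ D, Disjoint C Y)
    (hc : D.card = Y.card) (hall : ∀ T ⊆ D, T.card ≤ (nbr G Y T).card) :
    PM G (Y ∪ D.biUnion id) := by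
  classical
  have hH : ∀ s : Finset {C // C ∈ D}, s.card ≤ (s.biUnion fun C => nbr G Y {C.1}).card := by
    intro s
    have h1 := hall (s.image Subtype.val) (by
      intro C hC
      obtain ⟨x, _, rfl⟩ := mem_image.1 hC
      exact x.2)
    rw [card_image_of_injective _ Subtype.val_injective] at h1
    refine h1.trans (card_le_card ?_)
    intro x hx
    obtain ⟨hx, C, hC, h⟩ := sysB_mem_nbr.1 hx
    obtain ⟨c, hc, rfl⟩ := mem_image.1 hC
    rw [mem_biUnion]
    exact ⟨c, hc, sysB_mem_nbr.2 ⟨hx, c.1, mem_singleton_self _, h⟩⟩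
  obtain ⟨f, hf, hfm⟩ := (Finset.all_card_le_biUnion_card_iff_exists_injective _).1 hH
  have hfY : ∀ C, f C ∈ Y := fun C => (sysB_mem_nbr.1 (hfm C)).1
  have hfa : ∀ C, ∃ y ∈ C.1, G.Adj (f C) y := by
    intro C
    obtain ⟨_, C', hC', h⟩ := sysB_mem_nbr.1 (hfm C)
    rw [mem_singleton] at hC'
    rw [← hC']
    exact h
  have himg : (univ : Finset {C // C ∈ D}).image f = Y := by
    apply eq_of_subset_of_card_le
    · intro x hx
      obtain ⟨C, _, rfl⟩ := mem_image.1 hx
      exact hfY C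
    · rw [card_image_of_injective _ hf, card_univ, Fintype.card_coe, hc]
  let F' : Finset (Finset V) := (univ : Finset {C // C ∈ D}).image fun C => insert (f C) C.1
  have hF' : ∀ E ∈ F', ∃ C : {C // C ∈ D}, insert (f C) C.1 = E := by
    intro E hE
    obtain ⟨C, _, h⟩ := mem_image.1 hE
    exact ⟨C, h⟩
  have hU : Y ∪ D.biUnion id = F'.biUnion id := by
    ext x
    rw [mem_union, mem_biUnion, mem_biUnion]
    constructor
    · rintro (hx | ⟨C, hC, hx⟩)
      · rw [← himg] at hx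
        obtain ⟨C, _, rfl⟩ := mem_image.1 hx
        exact ⟨insert (f C) C.1, mem_image.2 ⟨C, mem_univ _, rfl⟩, mem_insert_self _ _⟩
      · exact ⟨insert (f ⟨C, hC⟩) C, mem_image.2 ⟨⟨C, hC⟩, mem_univ _, rfl⟩,
          mem_insert_of_mem hx⟩
    · rintro ⟨E, hE, hx⟩
      obtain ⟨C, rfl⟩ := hF' E hE
      rcases mem_insert.1 hx with h | h
      · rw [h]
        exact Or.inl (hfY C)
      · exact Or.inr ⟨C.1, C.2, h⟩
  rw [hU]
  refine PM.biUnion ?_ ?_
  · intro E hE
    obtain ⟨C, rfl⟩ := hF' E hE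
    refine (hfc C.1 C.2).pm_insert ?_ (hfa C)
    intro h
    exact (Finset.disjoint_left.1 (hY C.1 C.2)) h (hfY C)
  · intro E hE E' hE' hne
    obtain ⟨C, rfl⟩ := hF' E hE
    obtain ⟨C', rfl⟩ := hF' E' hE'
    have hCC : C ≠ C' := by
      rintro rfl
      exact hne rfl
    have hCC' : C.1 ≠ C'.1 := fun h => hCC (Subtype.ext h)
    rw [Finset.disjoint_left]
    intro x hx hx'
    rcases mem_insert.1 hx with h | h
    · rcases mem_insert.1 hx' with h' | h'
      · exact hCC (hf (h.symm.trans h'))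
      · rw [h] at h'
        exact (Finset.disjoint_left.1 (hY C'.1 C'.2)) h' (hfY C)
    · rcases mem_insert.1 hx' with h' | h'
      · rw [h'] at h
        exact (Finset.disjoint_left.1 (hY C.1 C.2)) h (hfY C')
      · exact (Finset.disjoint_left.1 (hd C.1 C.2 C'.1 C'.2 hCC')) h h'

/-- existence of a tight system containing `P`, with the least possible `X`. -/
theorem exists_min_tight {Q P : Finset V} (hQ : FC G Q) (hP : P ⊆ Q) (h3 : P.card = 3)
    (hn : ¬ PM G (Q \ P)) :
    ∃ (X : Finset V) (F : Finset (Finset V)), P ⊆ X ∧ Tight G Q X F ∧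
      ∀ (X' : Finset V) (F' : Finset (Finset V)), P ⊆ X' → Tight G Q X' F' →
        X.card ≤ X'.card := by
  classical
  have hex : ∃ k : ℕ, ∃ (X : Finset V) (F : Finset (Finset V)), P ⊆ X ∧ Tight G Q X F ∧
      X.card = k := by
    obtain ⟨X, F, hPX, hXQ, hsys, _, hmax⟩ := exists_sys G Q P hP
    have hXne : X.Nonempty := by
      rw [← card_pos]
      have := card_le_card hPX
      omega
    have h1 := hQ.sys_le hXQ hXne hsys.oddSys
    have hev : Even (Q \ P).card := by
      have h4 := card_sdiff_add_card_eq_card hP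
      obtain ⟨k, hk⟩ := hQ.odd
      exact ⟨k - 1, by omega⟩
    obtain ⟨S, hS, F', hF', hcard⟩ := tutte_fin G (Q \ P) hev hn
    have hsd : (Q \ P) \ S = Q \ (P ∪ S) := by
      ext x
      simp only [mem_sdiff, mem_union]
      tauto
    rw [hsd] at hF'
    have h5 := hmax (P ∪ S) F' subset_union_left
      (union_subset hP (hS.trans sdiff_subset)) hF'
    have h6 := card_union_le P S
    exact ⟨X.card, X, F, hPX, ⟨hXQ, hsys, by omega⟩, rfl⟩
  obtain ⟨X, F, hPX, ht, hk⟩ := Nat.find_spec hex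
  refine ⟨X, F, hPX, ht, fun X' F' hPX' ht' => ?_⟩
  rw [hk]
  exact Nat.find_min' hex ⟨X', F', hPX', ht', rfl⟩

/-- if Hall's condition fails after removing two points -/
private theorem hall_fail {Q X : Finset V} {F : Finset (Finset V)} (hQ : FC G Q) (hX : X ⊆ Q)
    (hne : X.Nonempty) (h : OddSys G (Q \ X) F) {D : Finset (Finset V)} (hD : D ⊆ F) {b b' : V}
    (hn : ¬ ∀ T ⊆ D, T.card ≤ (nbr G ((X.erase b).erase b') T).card) :
    ∃ T ⊆ D, b ∈ nbr G X T ∧ b' ∈ nbr G X T ∧ (nbr G X T).card ≤ T.card + 1 := by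
  classical
  push Not at hn
  obtain ⟨T, hT, hlt⟩ := hn
  have hTne : T.Nonempty := by
    rw [← card_pos]
    omega
  have h1 := hQ.hall hX hne h (hT.trans hD) hTne
  have h2 : nbr G ((X.erase b).erase b') T = ((nbr G X T).erase b).erase b' := by
    ext x
    simp only [sysB_mem_nbr, mem_erase]
    tauto
  rw [h2] at hlt
  have h3 : ((nbr G X T).erase b).card ≤ (((nbr G X T).erase b).erase b').card + 1 := by
    have := pred_card_le_card_erase (s := (nbr G X T).erase b) (a := b')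
    omega
  have h4 : (nbr G X T).card ≤ ((nbr G X T).erase b).card + 1 := by
    have := pred_card_le_card_erase (s := nbr G X T) (a := b)
    omega
  refine ⟨T, hT, ?_, ?_, by omega⟩
  · by_contra hb
    rw [erase_eq_of_notMem hb] at h3 hlt
    omega
  · by_contra hb
    have : b' ∉ (nbr G X T).erase b := fun h => hb (mem_of_mem_erase h)
    rw [erase_eq_of_notMem this] at hlt
    omega

/-- the matching of the complement, given Hall's condition -/
private theorem pm_of_edge {Q X : Finset V} {F : Finset (Finset V)} (hQ : FC G Q)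
    (ht : Tight G Q X F) {b b' : V} (hb : b ∈ X) (hb' : b' ∈ X) (hbb : G.Adj b b')
    {C S : Finset V} (hC : C ∈ F) (hS : S ⊆ C) (hpm : PM G (C \ S))
    (hall : ∀ T ⊆ F.erase C, T.card ≤ (nbr G ((X.erase b).erase b') T).card) :
    PM G (Q \ S) := by
  classical
  have hCX : ∀ E ∈ F, Disjoint E X := by
    intro E hE
    rw [Finset.disjoint_left]
    intro x hx hx'
    exact (mem_sdiff.1 ((ht.sys.closed E hE).1 hx)).2 hx'
  have hCQ : ∀ E ∈ F, E ⊆ Q := fun E hE => ((ht.sys.closed E hE).1).trans sdiff_subset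
  have hne : b ≠ b' := hbb.ne
  have hYX : (X.erase b).erase b' ⊆ X := (erase_subset _ _).trans (erase_subset _ _)
  have h1 : PM G ((X.erase b).erase b' ∪ (F.erase C).biUnion id) := by
    refine pm_of_hall (fun E hE => ht.sys.fc E (mem_of_mem_erase hE))
      (fun E hE E' hE' hn => ht.sys.disj E (mem_of_mem_erase hE) E' (mem_of_mem_erase hE') hn)
      (fun E hE => (hCX E (mem_of_mem_erase hE)).mono_right hYX) ?_ hall
    rw [card_erase_of_mem hC, card_erase_of_mem (mem_erase.2 ⟨hne.symm, hb'⟩),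
      card_erase_of_mem hb, ← ht.card]
    rfl
  have h2 : PM G {b, b'} := PM.pair hbb
  have h3 := ht.rest_pm hQ
  have hbC : ∀ E ∈ F, b ∉ E := fun E hE h => (Finset.disjoint_left.1 (hCX E hE)) h hb
  have hb'C : ∀ E ∈ F, b' ∉ E := fun E hE h => (Finset.disjoint_left.1 (hCX E hE)) h hb'
  have h4 : PM G (({b, b'} : Finset V) ∪ ((X.erase b).erase b' ∪ (F.erase C).biUnion id)) := by
    refine PM.union h2 h1 ?_
    rw [Finset.disjoint_left]
    intro x hx hx'
    rw [mem_insert, mem_singleton] at hx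
    rcases mem_union.1 hx' with h | h
    · simp only [mem_erase] at h
      rcases hx with hx | hx
      · exact h.2.1 hx
      · exact h.1 hx
    · obtain ⟨E, hE, hxE⟩ := mem_biUnion.1 h
      rcases hx with hx | hx
      · rw [hx] at hxE
        exact hbC E (mem_of_mem_erase hE) hxE
      · rw [hx] at hxE
        exact hb'C E (mem_of_mem_erase hE) hxE
  have h5 : ({b, b'} : Finset V) ∪ ((X.erase b).erase b' ∪ (F.erase C).biUnion id) =
      X ∪ (F.erase C).biUnion id := by
    ext x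
    simp only [mem_union, mem_insert, mem_singleton, mem_erase]
    constructor
    · rintro ((h | h) | h | h)
      · rw [h]; exact Or.inl hb
      · rw [h]; exact Or.inl hb'
      · exact Or.inl h.2.2
      · exact Or.inr h
    · rintro (h | h)
      · by_cases e1 : x = b
        · exact Or.inl (Or.inl e1)
        · by_cases e2 : x = b'
          · exact Or.inl (Or.inr e2)
          · exact Or.inr (Or.inl ⟨e2, e1, h⟩)
      · exact Or.inr (Or.inr h)
  rw [h5] at h4
  have h6 : PM G ((C \ S) ∪ ((Q \ X) \ F.biUnion id)) := by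
    refine PM.union hpm h3 ?_
    rw [Finset.disjoint_left]
    intro x hx hx'
    exact (mem_sdiff.1 hx').2 (mem_biUnion.2 ⟨C, hC, (mem_sdiff.1 hx).1⟩)
  have h7 : PM G (((C \ S) ∪ ((Q \ X) \ F.biUnion id)) ∪ (X ∪ (F.erase C).biUnion id)) := by
    refine PM.union h6 h4 ?_
    rw [Finset.disjoint_left]
    intro x hx hx'
    rcases mem_union.1 hx with h | h
    · have hxC : x ∈ C := (mem_sdiff.1 h).1
      rcases mem_union.1 hx' with h' | h'
      · exact (Finset.disjoint_left.1 (hCX C hC)) hxC h'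
      · obtain ⟨E, hE, hxE⟩ := mem_biUnion.1 h'
        exact (Finset.disjoint_left.1 (ht.sys.disj E (mem_of_mem_erase hE) C hC
          (ne_of_mem_erase hE))) hxE hxC
    · rw [mem_sdiff, mem_sdiff] at h
      rcases mem_union.1 hx' with h' | h'
      · exact h.1.2 h'
      · obtain ⟨E, hE, hxE⟩ := mem_biUnion.1 h'
        exact h.2 (mem_biUnion.2 ⟨E, mem_of_mem_erase hE, hxE⟩)
  have h8 : ((C \ S) ∪ ((Q \ X) \ F.biUnion id)) ∪ (X ∪ (F.erase C).biUnion id) = Q \ S := by
    ext x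
    simp only [mem_union, mem_sdiff, mem_biUnion, id]
    constructor
    · rintro ((h | h) | h | h)
      · exact ⟨hCQ C hC h.1, h.2⟩
      · exact ⟨h.1.1, fun hxS => h.2 ⟨C, hC, hS hxS⟩⟩
      · exact ⟨ht.sub h, fun hxS => (Finset.disjoint_left.1 (hCX C hC)) (hS hxS) h⟩
      · obtain ⟨E, hE, hxE⟩ := h
        exact ⟨hCQ E (mem_of_mem_erase hE) hxE, fun hxS =>
          (Finset.disjoint_left.1 (ht.sys.disj E (mem_of_mem_erase hE) C hC
            (ne_of_mem_erase hE))) hxE (hS hxS)⟩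
    · rintro ⟨hxQ, hxS⟩
      by_cases hxX : x ∈ X
      · exact Or.inr (Or.inl hxX)
      · by_cases hxF : ∃ E ∈ F, x ∈ E
        · obtain ⟨E, hE, hxE⟩ := hxF
          by_cases hEC : E = C
          · rw [hEC] at hxE
            exact Or.inl (Or.inl ⟨hxE, hxS⟩)
          · exact Or.inr (Or.inr ⟨E, mem_erase.2 ⟨hEC, hE⟩, hxE⟩)
        · exact Or.inl (Or.inr ⟨⟨hxQ, hxX⟩, hxF⟩)
  rw [h8] at h7
  exact h7

/-- In a minimal tight system containing the clique `P`, a subset `S` of a member `C` whose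
complement in `C` has a perfect matching has a complement in `Q` with a perfect matching. -/
theorem good_comp {Q P X : Finset V} {F : Finset (Finset V)} (hQ : FC G Q) (h3 : P.card = 3)
    (hcl : ∀ x ∈ P, ∀ y ∈ P, x ≠ y → G.Adj x y) (hPX : P ⊆ X) (ht : Tight G Q X F)
    (hmin : ∀ (X' : Finset V) (F' : Finset (Finset V)), P ⊆ X' → Tight G Q X' F' →
      X.card ≤ X'.card)
    {C S : Finset V} (hC : C ∈ F) (hS : S ⊆ C) (hpm : PM G (C \ S)) : PM G (Q \ S) := by
  classical
  obtain ⟨b1, b2, b3, h12, h13, h23, rfl⟩ := card_eq_three.1 h3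
  have hb1 : b1 ∈ X := hPX (by simp)
  have hb2 : b2 ∈ X := hPX (by simp)
  have hb3 : b3 ∈ X := hPX (by simp)
  have hXne : X.Nonempty := ⟨b1, hb1⟩
  have hodd := ht.sys.oddSys
  by_cases hA : ∀ T ⊆ F.erase C, T.card ≤ (nbr G ((X.erase b1).erase b2) T).card
  · exact pm_of_edge hQ ht hb1 hb2 (hcl b1 (by simp) b2 (by simp) h12) hC hS hpm hA
  by_cases hB : ∀ T ⊆ F.erase C, T.card ≤ (nbr G ((X.erase b1).erase b3) T).card
  · exact pm_of_edge hQ ht hb1 hb3 (hcl b1 (by simp) b3 (by simp) h13) hC hS hpm hB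
  exfalso
  obtain ⟨T2, hT2, h21, h22, h2c⟩ := hall_fail hQ ht.sub hXne hodd (erase_subset _ _) hA
  obtain ⟨T3, hT3, h31, h33, h3c⟩ := hall_fail hQ ht.sub hXne hodd (erase_subset _ _) hB
  have hTF : T2 ∪ T3 ⊆ F.erase C := union_subset hT2 hT3
  have hTF' : T2 ∪ T3 ⊆ F := hTF.trans (erase_subset _ _)
  have hsub : (T2 ∩ T3).card + 1 ≤ (nbr G X T2 ∩ nbr G X T3).card := by
    rcases (T2 ∩ T3).eq_empty_or_nonempty with h | h
    · rw [h, card_empty]
      exact card_pos.2 ⟨b1, mem_inter.2 ⟨h21, h31⟩⟩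
    · exact (hQ.hall ht.sub hXne hodd ((inter_subset_left.trans hT2).trans (erase_subset _ _)) h).trans
        (card_le_card (sysB_nbr_inter_sub X T2 T3))
  have hc1 := card_union_add_card_inter T2 T3
  have hc2 := card_union_add_card_inter (nbr G X T2) (nbr G X T3)
  rw [← sysB_nbr_union] at hc2
  have hTne : (T2 ∪ T3).Nonempty := by
    obtain ⟨_, E, hE, _⟩ := sysB_mem_nbr.1 h21
    exact ⟨E, mem_union_left _ hE⟩
  have hge := hQ.hall ht.sub hXne hodd hTF' hTne
  have htight : Tight G Q (nbr G X (T2 ∪ T3)) (T2 ∪ T3) := by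
    refine ⟨?_, ht.sys.sub_nbr ht.sub hTF', by omega⟩
    intro x hx
    exact ht.sub (sysB_mem_nbr.1 hx).1
  have hP' : ({b1, b2, b3} : Finset V) ⊆ nbr G X (T2 ∪ T3) := by
    rw [sysB_nbr_union]
    intro x hx
    simp only [mem_insert, mem_singleton] at hx
    rcases hx with rfl | rfl | rfl
    · exact mem_union_left _ h21
    · exact mem_union_left _ h22
    · exact mem_union_right _ h33
  have h9 := hmin _ _ hP' htight
  have h10 := card_le_card hTF
  rw [card_erase_of_mem hC] at h10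
  have h11 := ht.card
  have h12 : 1 ≤ F.card := card_pos.2 ⟨C, hC⟩
  omega

end Pool.Agent.Hyp5
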