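import Pool.Agent.Hyp5.Key
import Pool.Agent.Hyp5.GlobalHall
import Pool.Agent.Hyp5.GlobalCover
import Pool.Agent.Hyp5.GlobalCount

/-! # HYP5 THMA: the sharp theorem for blocks of at most three points -/

set_option autoImplicit false

namespace Pool.Agent.Hyp5

open Finset

variable {V : Type*} [DecidableEq V] {ι : Type*} [Fintype ι] {B : ι → Finset V}

theorem thmA (hs : Small B) (U : Finset V) (hr : Reg B U) (hU : ∀ i, B i ⊆ U) :
    ∃ T : Finset ι, U ⊆ T.biUnion B ∧
      70 * T.card ≤ 21 * num B 3 + 18 * num B 2 + 14 * num B 1 := by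
  classical
  rcases isEmpty_or_nonempty V with hV | hV
  · refine ⟨∅, fun v _ => (hV.false v).elim, by simp⟩
  obtain ⟨A, F, -, hA, hF, hR, hmax⟩ := exists_sys (gr B) U ∅ (Finset.empty_subset U)
  have hAF : A.card ≤ F.card := by
    have := hmax ∅ ∅ (Finset.empty_subset _) (Finset.empty_subset _)
      ⟨by simp, by simp, by simp⟩
    simpa using this
  obtain ⟨d, hd⟩ := Nat.exists_eq_add_of_le hAF
  have hnbr : ∀ T : Finset (Finset V), nbr (gr B) A T ⊆ A := by
    intro T
    unfold nbr
    exact Finset.filter_subset _ _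
  have h1 : ∀ T ⊆ F, T.card ≤ (nbr (gr B) A T).card + d := by
    intro T hT
    have := hmax (nbr (gr B) A T) T (Finset.empty_subset _) ((hnbr T).trans hA)
      (OddSys.sub_nbr hA hF.oddSys hT)
    omega
  set Fb := F.filter (fun C => Bad B C) with hFbdef
  have hFb : Fb ⊆ F := Finset.filter_subset _ _
  obtain ⟨T0, hT0, hsup⟩ := Finset.exists_mem_eq_sup Fb.powerset
    ⟨∅, Finset.empty_mem_powerset _⟩ (fun T => T.card - (nbr (gr B) A T).card)
  set dB := Fb.powerset.sup (fun T => T.card - (nbr (gr B) A T).card) with hdB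
  rw [Finset.mem_powerset] at hT0
  have hle : dB ≤ d := by
    have := h1 T0 (hT0.trans hFb)
    omega
  have h2 : ∀ T ⊆ Fb, T.card ≤ (nbr (gr B) A T).card + dB := by
    intro T hT
    have : T.card - (nbr (gr B) A T).card ≤ dB :=
      Finset.le_sup (f := fun T => T.card - (nbr (gr B) A T).card)
        (Finset.mem_powerset.mpr hT)
    omega
  have hcount : 35 * dB ≤ 4 * num B 2 + 7 * num B 1 := by
    have hk : ∀ C ∈ T0, 35 ≤ Psi B C := by
      intro C hC
      have hC' := Finset.mem_filter.mp (hT0 hC)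
      have hCU : C ⊆ U := (hF.closed C hC'.1).1.trans Finset.sdiff_subset
      exact key hs C (fun v hv => hr v (hCU hv)) (hF.fc C hC'.1) hC'.2
    have := count_family hr hU hA hF (hT0.trans hFb) hk
    omega
  obtain ⟨F1, F2, F3, φ, hu, h12, h13, h23, hφ, hinj, him, hc2, hc3, hdis⟩ :=
    exists_assignment hFb hd hle h1 h2
  have hgood : ∀ C ∈ F3, ¬ Bad B C := by
    intro C hC hbad
    have hCF : C ∈ F := by
      rw [← hu]
      exact Finset.mem_union_right _ hC
    exact Finset.disjoint_left.mp hdis hC (Finset.mem_filter.mpr ⟨hCF, hbad⟩)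
  obtain ⟨T, hTU, hT⟩ := cover_all hr hA hF hR hu h12 h13 h23 hφ hinj him hgood
  refine ⟨T, hTU, ?_⟩
  have hcard := card_eq hs hr hU
  omega

end Pool.Agent.Hyp5
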